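import Mathlib
import Pool.Agent.H12.LT.Defs
import Pool.Agent.H71.EX.Np

/-!
NP2: `H12/LS/Np2.lean` with the parameter `L` (no other change).
-/

set_option autoImplicit false

namespace Pool.Agent.H12.LT

open Finset Classical
open Pool.Agent.H71.DN Pool.Agent.H71.EX

theorem np_s {V : Type} [Fintype V] (G : SimpleGraph V) (Δ N L : ℕ) (h : Xs G Δ N L) (v : V) :
    (Δ : ℝ) ^ 2 / (2 * N) ≤ (np2 G univ v).card := by
  have hN := h.hN
  have hN0 : (1000 : ℝ) ≤ N := by exact_mod_cast hN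
  have hNpos : (0 : ℝ) < N := by linarith
  have hΔ1 : 1 ≤ Δ := le_trans (Nat.one_le_pow _ _ (by omega)) h.hΔ
  set B := univ.filter fun u => G.Adj v u with hB
  set S := insert v B with hS
  have hvB : v ∉ B := by simp [hB]
  have hBd : B.card = dg G v := rfl
  have hScard : S.card = dg G v + 1 := by rw [hS, card_insert_of_notMem hvB, hBd]
  have hup : dg G v ≤ Δ := h.up v
  have hlo := h.lo v
  -- expansion
  have h60 : 2 ≤ N ^ 60 := by
    calc 2 ≤ N := by omega
      _ = N ^ 1 := (pow_one _).symm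
      _ ≤ N ^ 60 := Nat.pow_le_pow_right (by omega) (by norm_num)
  have hhalf : S.card ≤ N ^ 60 * Δ := by
    rw [hScard]
    calc dg G v + 1 ≤ 2 * Δ := by omega
      _ ≤ N ^ 60 * Δ := Nat.mul_le_mul_right _ h60
  have hex := h.ex S hhalf
  have hee : ee G S (univ \ S) = ∑ a ∈ B, ((univ \ S).filter fun u => G.Adj a u).card := by
    rw [np_ee, hS, Finset.sum_insert hvB]
    have : ((univ \ insert v B).filter fun u => G.Adj v u) = ∅ := by
      rw [Finset.filter_eq_empty_iff]
      intro u hu hvu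
      simp only [mem_sdiff, mem_univ, true_and, mem_insert, not_or] at hu
      exact hu.2 (by simp [hB, hvu])
    rw [this, card_empty, zero_add]
  -- count
  have hsum : ((np2 G univ v).card : ℝ) + B.card * Δ ≥
      B.card * dg G v + ee G S (univ \ S) := by
    rw [np_sum, hee]
    push_cast
    rw [← nsmul_eq_mul, ← nsmul_eq_mul, ← Finset.sum_const, ← Finset.sum_const,
      ← Finset.sum_add_distrib, ← Finset.sum_add_distrib]
    apply Finset.sum_le_sum
    intro a ha
    have hva : G.Adj v a := by simpa [hB] using ha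
    have h1 := np_count G v a hva
    have h2 : dg G a ≤ Δ := h.up a
    have h1' : ((B.filter fun b => a ≠ b ∧ ¬ G.Adj a b).card : ℝ) + dg G a =
        dg G v + ((univ \ S).filter fun u => G.Adj a u).card := by exact_mod_cast h1
    have h2' : (dg G a : ℝ) ≤ Δ := by exact_mod_cast h2
    linarith
  -- numbers
  set d : ℝ := (dg G v : ℝ) with hd
  set D : ℝ := (Δ : ℝ) with hD
  have hD0 : 0 < D := by rw [hD]; exact_mod_cast hΔ1
  have hd0 : 0 ≤ d := by rw [hd]; positivity
  have hdD : d ≤ D := by rw [hd, hD]; exact_mod_cast hup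
  have hSc : (S.card : ℝ) = d + 1 := by rw [hScard]; push_cast; rfl
  rw [hSc] at hex
  have hBc : (B.card : ℝ) = d := by rw [hBd]
  rw [hBc] at hsum
  set M : ℝ := (N : ℝ) ^ 20 with hM
  have hM0 : 4 * (N : ℝ) ≤ M := by
    have h1 : (N : ℝ) ^ 20 = N ^ 19 * N := by ring
    have h2 : (4 : ℝ) ≤ (N : ℝ) ^ 19 := by
      calc (4 : ℝ) ≤ N := by linarith
        _ = (N : ℝ) ^ 1 := (pow_one _).symm
        _ ≤ (N : ℝ) ^ 19 := pow_le_pow_right₀ (by linarith) (by norm_num)
    rw [hM, h1]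
    exact mul_le_mul_of_nonneg_right h2 hNpos.le
  have hMpos : 0 < M := by linarith
  have e1 : D / M ≤ D / (4 * N) := by
    apply div_le_div_of_nonneg_left hD0.le (by positivity) hM0
  have e2 : D / (4 * N) = D / N / 4 := by field_simp
  have e3 : D / M ≤ D / 4 := by
    apply div_le_div_of_nonneg_left hD0.le (by norm_num)
    linarith
  have e4 : 0 ≤ D / N := by positivity
  have e5 : 3 / 4 * D ≤ d := by linarith
  -- `np ≥ d (d - D) + (D / N) (d + 1)`
  have e6 : D / N * (d + 1) + d * (d - D) ≤ (np2 G univ v).card := by nlinarith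
  have e7 : -(D / M) ≤ d - D := by linarith
  have e8 : d * (-(D / M)) ≤ d * (d - D) := mul_le_mul_of_nonneg_left e7 hd0
  have e9 : d * (D / M) ≤ d * (D / N / 4) := mul_le_mul_of_nonneg_left (by linarith) hd0
  have e10 : D / N * (3 / 4 * D) ≤ D / N * d := mul_le_mul_of_nonneg_left e5 e4
  have e11 : D ^ 2 / (2 * N) = D / N * (1 / 2 * D) := by field_simp
  have e12 : D / N * (1 / 2 * D) ≤ D / N * (9 / 16 * D) :=
    mul_le_mul_of_nonneg_left (by linarith) e4
  rw [e11]
  nlinarith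

theorem cv_s {V : Type} [Fintype V] (G : SimpleGraph V) (Δ N L : ℕ) (h : Xs G Δ N L) (v : V) :
    Δ ≤ 2 * Fintype.card V := by
  have hN := h.hN
  have hN0 : (1000 : ℝ) ≤ N := by exact_mod_cast hN
  have hlo := h.lo v
  have hD0 : (0 : ℝ) ≤ (Δ : ℝ) := Nat.cast_nonneg _
  have hM0 : (2 : ℝ) ≤ (N : ℝ) ^ 20 := by
    calc (2 : ℝ) ≤ N := by linarith
      _ = (N : ℝ) ^ 1 := (pow_one _).symm
      _ ≤ (N : ℝ) ^ 20 := pow_le_pow_right₀ (by linarith) (by norm_num)
  have e1 : (Δ : ℝ) / (N : ℝ) ^ 20 ≤ (Δ : ℝ) / 2 :=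
    div_le_div_of_nonneg_left hD0 (by norm_num) hM0
  have h1 : dg G v ≤ Fintype.card V := by
    unfold dg
    exact Finset.card_le_univ _
  have h2 : (dg G v : ℝ) ≤ Fintype.card V := by exact_mod_cast h1
  have h3 : (Δ : ℝ) ≤ 2 * Fintype.card V := by linarith
  exact_mod_cast h3

end Pool.Agent.H12.LT
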