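import Mathlib
import Pool.Agent.H12.LT.Defs
import Pool.Agent.H12.LS.Rgg
import Pool.Agent.H12.LS.Gm

/-!
RG2: the reserve, and the graph without the edges inside `F0`. `rg2`: `rg2` in `H12/LS/Rgg.lean` (proved) with the parameter `L`:
`κ ≥ Δ / (2 N ^ 35) ≥ 4 L` (`N ^ 60 L ^ 3 ≤ Δ`). `xs_t`, `xs_gm`: as in `H12/LS/Gm.lean` (proved).
-/

set_option autoImplicit false

namespace Pool.Agent.H12.LT

open Finset Classical
open Pool.Agent.H71.DN Pool.Agent.H71.EX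

private theorem Rg2_ee_le {V : Type} [Fintype V] (G : SimpleGraph V) (F0 : Finset V)
    (A B : Finset V) : ee (LS.Gm G F0) A B ≤ ee G A B := by
  unfold ee
  refine Finset.card_le_card fun x hx => ?_
  rw [Finset.mem_filter] at hx ⊢
  exact ⟨hx.1, hx.2.1⟩

theorem rg2 {V : Type} [Fintype V] (G : SimpleGraph V) (Δ N L : ℕ) (h : Xt G Δ N L) :
    ∃ R : SimpleGraph V, R ≤ G ∧
      (∀ v, |(dg R v : ℝ) - dg G v / (N : ℝ) ^ 8| ≤ Δ / (N : ℝ) ^ 21) ∧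
      (∀ A B : Finset V, Disjoint A B →
        (ee R A B : ℝ) ≤ ee G A B / (N : ℝ) ^ 8 + Δ / (N : ℝ) ^ 21 * (A.card + B.card)) ∧
      ∀ S : Finset V, (ee G S (univ \ S) : ℝ) / (N : ℝ) ^ 8 - Δ / (N : ℝ) ^ 21 * S.card ≤
        ee R S (univ \ S) := by
  have hN : (1000 : ℝ) ≤ N := by exact_mod_cast h.hN
  have hN0 : (0 : ℝ) < N := by linarith
  have hL : (N : ℝ) ≤ L := by exact_mod_cast h.hL
  have hL0 : (1000 : ℝ) ≤ L := by linarith
  have hΔ : (N : ℝ) ^ 60 * (L : ℝ) ^ 3 ≤ Δ := by exact_mod_cast h.hΔL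
  obtain ⟨c, hc⟩ : ∃ c : ℝ, c = 1 / (N : ℝ) ^ 14 * (Δ / (N : ℝ) ^ 21) -
      (1 / (N : ℝ) ^ 14) ^ 2 * Δ / ((N ^ 8 : ℕ) : ℝ) := ⟨_, rfl⟩
  have hc4 : 4 * (L : ℝ) ≤ c := by
    have e1 : c = Δ / (N : ℝ) ^ 36 * (N - 1) := by
      rw [hc]
      push_cast
      field_simp
    rw [e1]
    have e2 : (L : ℝ) ≤ Δ / (N : ℝ) ^ 36 := by
      rw [le_div_iff₀ (by positivity)]
      refine le_trans ?_ hΔ
      have e3 : (N : ℝ) ^ 36 ≤ (N : ℝ) ^ 60 :=
        pow_le_pow_right₀ (by linarith) (by norm_num)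
      have e4 : (L : ℝ) ≤ (L : ℝ) ^ 3 := by
        calc (L : ℝ) = (L : ℝ) ^ 1 := (pow_one _).symm
          _ ≤ (L : ℝ) ^ 3 := pow_le_pow_right₀ (by linarith) (by norm_num)
      rw [mul_comm]
      exact mul_le_mul e3 e4 (by linarith) (by positivity)
    nlinarith
  have hsmall : 16 * (Fintype.card V : ℝ) * Real.exp (-c) < 1 := by
    have e1 : (Fintype.card V : ℝ) * Real.exp (-c) ≤ Real.exp L * Real.exp (-(4 * L)) :=
      mul_le_mul h.n2 (Real.exp_le_exp.2 (by linarith)) (Real.exp_pos _).le (Real.exp_pos _).le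
    have e2 : Real.exp L * Real.exp (-(4 * L)) = Real.exp (-(3 * L)) := by
      rw [← Real.exp_add]
      congr 1
      ring
    have e3 : Real.exp (-(3 * L)) ≤ Real.exp (-100) := Real.exp_le_exp.2 (by linarith)
    have e4 : Real.exp (-100) * (101 : ℝ) ≤ 1 := by
      rw [Real.exp_neg, inv_mul_le_iff₀ (Real.exp_pos _), mul_one]
      linarith [Real.add_one_le_exp (100 : ℝ)]
    linarith [e1, Real.exp_pos (-100)]
  obtain ⟨R, h1, h2, h3, h4⟩ := LS.rgg G (N ^ 8) Δ (Δ / (N : ℝ) ^ 21) (1 / (N : ℝ) ^ 14)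
    (Nat.one_le_pow _ _ (by have := h.hN; omega)) (by positivity) (by
      rw [div_le_one (by positivity)]
      exact one_le_pow₀ (by linarith)) (fun v => by exact_mod_cast h.up v) (by rw [← hc]; exact hsmall)
  refine ⟨R, h1, fun v => ?_, fun A B hAB => ?_, fun S => ?_⟩
  · have := h2 v
    push_cast at this
    exact this
  · have := h3 A B hAB
    push_cast at this
    exact this
  · have := h4 S
    push_cast at this
    exact this

theorem xs_t {V : Type} [Fintype V] (G : SimpleGraph V) (Δ N L : ℕ) (h : Xt G Δ N L) :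
    Xs G Δ N L := by
  have hN : (1000 : ℝ) ≤ N := by exact_mod_cast h.hN
  have hN0 : (0 : ℝ) < N := by linarith
  have hΔ0 : (0 : ℝ) ≤ Δ := Nat.cast_nonneg _
  refine ⟨h.hN, h.hL, h.hΔ, h.hΔL, h.n2, h.up, fun v => ?_, fun S hS => ?_, h.nb⟩
  · refine le_trans ?_ (h.lo v)
    have h1 : (Δ : ℝ) / (N : ℝ) ^ 21 ≤ Δ / (N : ℝ) ^ 20 :=
      div_le_div_of_nonneg_left hΔ0 (by positivity)
        (pow_le_pow_right₀ (by linarith) (by norm_num))
    linarith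
  · refine le_trans ?_ (h.ex S hS)
    have h1 : 0 ≤ (Δ : ℝ) / N * S.card := by positivity
    linarith

theorem xs_gm {V : Type} [Fintype V] (G : SimpleGraph V) (Δ N L : ℕ) (h : Xt G Δ N L)
    (F0 : Finset V) (hf : ∀ v, (dn G v F0 : ℝ) ≤ 2 * (Δ / (N : ℝ) ^ 31)) :
    Xs (LS.Gm G F0) Δ N L := by
  have hN : (1000 : ℝ) ≤ N := by exact_mod_cast h.hN
  have hN0 : (0 : ℝ) < N := by linarith
  have hΔ0 : (0 : ℝ) ≤ Δ := Nat.cast_nonneg _
  have e1 : (Δ : ℝ) / (N : ℝ) ^ 21 + 2 * (Δ / (N : ℝ) ^ 31) ≤ Δ / (N : ℝ) ^ 20 := by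
    have h1 : (Δ : ℝ) / (N : ℝ) ^ 31 ≤ Δ / (N : ℝ) ^ 21 :=
      div_le_div_of_nonneg_left hΔ0 (by positivity)
        (pow_le_pow_right₀ (by linarith) (by norm_num))
    have h2 : (Δ : ℝ) / (N : ℝ) ^ 20 = N * (Δ / (N : ℝ) ^ 21) := by
      field_simp
    have h3 : 0 ≤ (Δ : ℝ) / (N : ℝ) ^ 21 := by positivity
    rw [h2]
    nlinarith
  have e2 : 2 * ((Δ : ℝ) / (N : ℝ) ^ 31) ≤ Δ / N := by
    have h1 : (Δ : ℝ) / (N : ℝ) ^ 31 ≤ Δ / (N : ℝ) ^ 2 :=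
      div_le_div_of_nonneg_left hΔ0 (by positivity)
        (pow_le_pow_right₀ (by linarith) (by norm_num))
    have h2 : (Δ : ℝ) / N = N * (Δ / (N : ℝ) ^ 2) := by
      field_simp
    have h3 : 0 ≤ (Δ : ℝ) / (N : ℝ) ^ 2 := by positivity
    rw [h2]
    nlinarith
  refine ⟨h.hN, h.hL, h.hΔ, h.hΔL, h.n2, fun v => ?_, fun v => ?_, fun S hS => ?_,
    fun A B hAB => ?_⟩
  · refine le_trans ?_ (h.up v)
    unfold dg
    refine Finset.card_le_card fun x hx => ?_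
    rw [Finset.mem_filter] at hx ⊢
    exact ⟨hx.1, hx.2.1⟩
  · have h1 : (dg G v : ℝ) ≤ dg (LS.Gm G F0) v + dn G v F0 := by
      exact_mod_cast LS.gm_dg G F0 v
    have h2 := h.lo v
    have h3 := hf v
    linarith
  · have h1 := h.ex S hS
    have h2 := LS.gm_ee G F0 _ hf S (univ \ S)
    have h3 : (0 : ℝ) ≤ S.card := Nat.cast_nonneg _
    have h4 : 2 * ((Δ : ℝ) / (N : ℝ) ^ 31) * S.card ≤ Δ / N * S.card :=
      mul_le_mul_of_nonneg_right e2 h3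
    linarith
  · have h1 := h.nb A B hAB
    have h2 : (ee (LS.Gm G F0) A B : ℝ) ≤ ee G A B := by exact_mod_cast Rg2_ee_le G F0 A B
    linarith

end Pool.Agent.H12.LT
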