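import Mathlib
import Pool.Agent.H12.LT.Defs
import Pool.Agent.H12.LS.Sl1

/-!
SL2: the random sets `F t ⊆ F0 \ Y t`, `t < T`. Compare `H12/LS/Sl2.lean` (copy and adapt). Write `sg = sg Δ N L = Δ / (N ^ 42 L)`,
`ov = ov Δ N L = 4 Δ / (N ^ 45 L ^ 2)`.

Proof.  Let `n = #V`, `K = N ^ 3 * L` (no rounding), `Ω = Fin T → Fin K`, `g : V → Ω`
and `F t = (F0 \ Y t).filter fun u => (g u t : ℕ) = 0` for `t < T`, `F t = ∅` for `t ≥ T`. `A t = {ω : ω t = 0}`, `#(A t) = #Ω / K`,
`A s ∩ A t`: `#Ω / K ^ 2` for `s ≠ t`. `sl1a`, `sl1b`, `sl1c` are `LS.sl1a` etc. (`H12/LS/Sl1.lean`). Call `g` bad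
(1) for `(v, t)` if `dn R v (F t) < sg / 8`: at most `#Ω ^ n exp (sg / 8 - q m / 2)` of the `g` by `sl1b` with `S = {u ∈ F0 \ Y t : R.Adj v u}`,
    `m = #S ≥ 3/4 Δ / N ^ 39 - Δ / N ^ 45 ≥ 0.7 Δ / N ^ 39`, `q = 1 / K`: `q m ≥ 0.7 sg`; exponent `≤ - 0.2 sg`;
(2) for `(v, t)` if `4 sg < dn R v (F t)`: by `sl1a`, `m ≤ 5/4 Δ / N ^ 39`, `2 q m ≤ 2.5 sg`: exponent `≤ - 1.5 sg`;
(3) for `v` if `4 Δ / (N ^ 3 L) < #{t : g v t = 0}`: by `sl1c`, `2 T / K ≤ 2 Δ / (N ^ 3 L)`: exponent `≤ - 2 Δ / (N ^ 3 L)`;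
(4) for `(s, t, v)`, `s ≠ t`, if `ov < dn R v (F s ∩ F t)`: by `sl1a` with `A s ∩ A t`, `q = 1 / K ^ 2`, `S = {u ∈ F0 : R.Adj v u}`,
    `2 q m ≤ 2.5 Δ / (N ^ 45 L ^ 2)`: exponent `≤ - 1.5 Δ / (N ^ 45 L ^ 2)`.
All exponents are `≤ - 10 L` (`N ^ 60 L ^ 3 ≤ Δ`), and the number of the indices is at most `4 n T ^ 2 + n < exp (10 L)`, because
`T ≤ Δ ≤ 2 n ≤ 2 exp L`. So some `g` is not bad for any index. If `V` is empty or `T = 0` take `F t = ∅`.
-/

set_option autoImplicit false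

namespace Pool.Agent.H12.LT

open Finset Classical
open Pool.Agent.H71.DN Pool.Agent.H71.EX

private lemma sl2_zero (K : ℕ) (hK : 1 ≤ K) :
    (univ.filter fun k : Fin K => (k : ℕ) = 0).card = 1 := by
  rw [Finset.card_eq_one]
  refine ⟨⟨0, by omega⟩, ?_⟩
  ext k
  simp only [mem_filter, mem_univ, true_and, mem_singleton, Fin.ext_iff]

private lemma sl2_pi (T K : ℕ) (hK : 1 ≤ K) (P : Finset (Fin T)) :
    K ^ P.card * (univ.filter fun ω : Fin T → Fin K => ∀ t ∈ P, ((ω t : Fin K) : ℕ) = 0).card =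
      K ^ T := by
  have h1 : (univ.filter fun ω : Fin T → Fin K => ∀ t ∈ P, ((ω t : Fin K) : ℕ) = 0) =
      Fintype.piFinset (fun s : Fin T => if s ∈ P then (univ.filter fun k : Fin K => (k : ℕ) = 0)
        else univ) := by
    ext ω
    simp only [mem_filter, mem_univ, true_and, Fintype.mem_piFinset]
    constructor
    · intro h s
      by_cases hs : s ∈ P
      · rw [if_pos hs]
        exact mem_filter.2 ⟨mem_univ _, h s hs⟩
      · rw [if_neg hs]
        exact mem_univ _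
    · intro h s hs
      have := h s
      rw [if_pos hs] at this
      exact (mem_filter.1 this).2
  rw [h1, Fintype.card_piFinset]
  have h2 : ∀ s : Fin T, (if s ∈ P then (univ.filter fun k : Fin K => (k : ℕ) = 0)
        else univ).card = if s ∈ P then 1 else K := by
    intro s
    by_cases hs : s ∈ P
    · rw [if_pos hs, if_pos hs, sl2_zero K hK]
    · rw [if_neg hs, if_neg hs, Finset.card_univ, Fintype.card_fin]
  rw [Finset.prod_congr rfl fun s _ => h2 s]
  have h3 : K ^ P.card = ∏ s : Fin T, if s ∈ P then K else 1 := by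
    rw [Finset.prod_ite, Finset.prod_const_one, mul_one, Finset.prod_const]
    have : (univ.filter fun s : Fin T => s ∈ P) = P := by
      ext s
      simp
    rw [this]
  rw [h3, ← Finset.prod_mul_distrib]
  have h4 : ∀ s : Fin T, ((if s ∈ P then K else 1) * if s ∈ P then 1 else K) = K := by
    intro s
    by_cases hs : s ∈ P
    · rw [if_pos hs, if_pos hs, mul_one]
    · rw [if_neg hs, if_neg hs, one_mul]
  rw [Finset.prod_congr rfl fun s _ => h4 s, Finset.prod_const, Finset.card_univ, Fintype.card_fin]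

private lemma sl2_ub {G ι : Type} [Fintype G] (I : Finset ι) (w : ι → G → ℝ) (W c : ℝ)
    (hw : ∀ i ∈ I, ∀ g, 0 ≤ w i g) (hs : ∀ i ∈ I, ∑ g, w i g ≤ W * c)
    (hW : 0 < W) (hc : W = Fintype.card G) (hI : (I.card : ℝ) * c < 1) :
    ∃ g, ∀ i ∈ I, w i g < 1 := by
  by_contra hcon
  push Not at hcon
  have h1 : (Fintype.card G : ℝ) ≤ ∑ g : G, ∑ i ∈ I, w i g := by
    have : (Fintype.card G : ℝ) = ∑ _g : G, (1 : ℝ) := by
      rw [Finset.sum_const, Finset.card_univ, nsmul_eq_mul, mul_one]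
    rw [this]
    apply Finset.sum_le_sum
    intro g _
    obtain ⟨i, hi, h⟩ := hcon g
    exact h.trans (Finset.single_le_sum (f := fun i => w i g) (fun j hj => hw j hj g) hi)
  rw [Finset.sum_comm] at h1
  have h2 : ∑ i ∈ I, ∑ g : G, w i g ≤ ∑ _i ∈ I, W * c := Finset.sum_le_sum hs
  rw [Finset.sum_const, nsmul_eq_mul] at h2
  have h3 : (I.card : ℝ) * (W * c) = W * ((I.card : ℝ) * c) := by ring
  have h4 : W * ((I.card : ℝ) * c) < W * 1 := by
    apply mul_lt_mul_of_pos_left hI hW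
  rw [← hc] at h1
  linarith

private lemma sl2_lo {V Ω : Type} [Fintype V] [Fintype Ω] (S : Finset V) (A : Finset Ω) (q : ℝ)
    (hq : 0 ≤ q) (hA : q * Fintype.card Ω ≤ A.card) (m : (V → Ω) → ℕ)
    (hm : ∀ g, ∀ B : Finset V, B ⊆ S → (∀ u ∈ B, g u ∈ A) → B.card ≤ m g) :
    ∑ g : V → Ω, Real.exp (-(m g : ℝ)) ≤
      (Fintype.card Ω : ℝ) ^ Fintype.card V * Real.exp (-(q * S.card / 2)) := by
  refine le_trans ?_ (LS.sl1b S A q hq hA)
  apply Finset.sum_le_sum
  intro g _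
  apply Real.exp_le_exp.2
  apply neg_le_neg
  have := hm g (S.filter fun u => g u ∈ A) (Finset.filter_subset _ _)
    (fun u hu => (mem_filter.1 hu).2)
  exact_mod_cast this

private lemma sl2_up {V Ω : Type} [Fintype V] [Fintype Ω] (S : Finset V) (A : Finset Ω) (q : ℝ)
    (hq : 0 ≤ q) (hA : (A.card : ℝ) ≤ q * Fintype.card Ω) (m : (V → Ω) → ℕ)
    (hm : ∀ g, ∃ B : Finset V, B ⊆ S ∧ (∀ u ∈ B, g u ∈ A) ∧ m g ≤ B.card) :
    ∑ g : V → Ω, Real.exp (m g : ℝ) ≤
      (Fintype.card Ω : ℝ) ^ Fintype.card V * Real.exp (2 * q * S.card) := by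
  refine le_trans ?_ (LS.sl1a S A q hq hA)
  apply Finset.sum_le_sum
  intro g _
  apply Real.exp_le_exp.2
  obtain ⟨B, h1, h2, h3⟩ := hm g
  have h4 : B ⊆ S.filter fun u => g u ∈ A := fun u hu => mem_filter.2 ⟨h1 hu, h2 u hu⟩
  have := h3.trans (Finset.card_le_card h4)
  exact_mod_cast this

private lemma sl2_exp_lt {a b : ℝ} (h : Real.exp (-a) * Real.exp b < 1) : b < a := by
  rw [← Real.exp_add, Real.exp_lt_one_iff] at h
  linarith

theorem sl2 {V : Type} [Fintype V] (R : SimpleGraph V) (Δ N L T : ℕ) (F0 : Finset V)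
    (Y : ℕ → Finset V) (hN : 1000 ≤ N) (hL : N ≤ L) (hΔ : N ^ 250 ≤ Δ)
    (hΔL : N ^ 60 * L ^ 3 ≤ Δ) (hn : (Fintype.card V : ℝ) ≤ Real.exp L) (hn2 : ∀ v : V, Δ ≤ 2 * Fintype.card V) (hT : T ≤ Δ)
    (hl : ∀ v, 3 / 4 * (Δ / (N : ℝ) ^ 39) ≤ dn R v F0)
    (hu : ∀ v, (dn R v F0 : ℝ) ≤ 5 / 4 * (Δ / (N : ℝ) ^ 39))
    (hY : ∀ t < T, ∀ v, (dn R v (Y t) : ℝ) ≤ Δ / (N : ℝ) ^ 45) :
    ∃ F : ℕ → Finset V, (∀ t < T, F t ⊆ F0 \ Y t) ∧
      (∀ t < T, ∀ v, sg Δ N L / 8 ≤ dn R v (F t)) ∧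
      (∀ t < T, ∀ v, (dn R v (F t) : ℝ) ≤ 4 * sg Δ N L) ∧
      (∀ v, (((range T).filter fun t => v ∈ F t).card : ℝ) ≤ 4 * (Δ / ((N : ℝ) ^ 3 * L))) ∧
      ∀ s < T, ∀ t < T, s ≠ t → ∀ v, (dn R v (F s ∩ F t) : ℝ) ≤ ov Δ N L := by
  rcases isEmpty_or_nonempty V with hV | hV
  · refine ⟨fun _ => ∅, fun t _ => Finset.empty_subset _, fun t _ v => hV.elim v,
      fun t _ v => hV.elim v, fun v => hV.elim v, fun s _ t _ _ v => hV.elim v⟩
  obtain ⟨x, hx⟩ : ∃ x : ℝ, x = (N : ℝ) := ⟨_, rfl⟩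
  obtain ⟨y, hy⟩ : ∃ y : ℝ, y = (L : ℝ) := ⟨_, rfl⟩
  have hx1 : (1000 : ℝ) ≤ x := by rw [hx]; exact_mod_cast hN
  have hx0 : 0 < x := by linarith
  have hxy : x ≤ y := by rw [hx, hy]; exact_mod_cast hL
  have hy0 : 0 < y := by linarith
  have hD : x ^ 60 * y ^ 3 ≤ (Δ : ℝ) := by
    rw [hx, hy]
    exact_mod_cast hΔL
  have hD0 : (0 : ℝ) < Δ := lt_of_lt_of_le (by positivity) hD
  have hxk : ∀ k : ℕ, k ≤ 45 → 1000 * x ^ k ≤ x ^ 60 := by
    intro k hk
    have h1 : 1000 * x ^ k ≤ x * x ^ k := mul_le_mul_of_nonneg_right hx1 (by positivity)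
    have h2 : x * x ^ k = x ^ (k + 1) := by ring
    have h3 : x ^ (k + 1) ≤ x ^ 60 := pow_le_pow_right₀ (by linarith) (by omega)
    linarith
  have hyk : ∀ k j : ℕ, k ≤ 45 → j ≤ 3 → (1000 * x ^ k) * y ^ j ≤ Δ := by
    intro k j hk hj
    refine le_trans ?_ hD
    apply mul_le_mul (hxk k hk) (pow_le_pow_right₀ (by linarith) hj) (by positivity) (by positivity)
  obtain ⟨σ, hσ⟩ : ∃ σ : ℝ, σ = sg Δ N L := ⟨_, rfl⟩
  obtain ⟨o, ho⟩ : ∃ o : ℝ, o = ov Δ N L := ⟨_, rfl⟩
  obtain ⟨τ, hτ⟩ : ∃ τ : ℝ, τ = (Δ : ℝ) / ((N : ℝ) ^ 3 * L) := ⟨_, rfl⟩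
  rw [← hσ, ← ho, ← hτ]
  have hσe : σ = Δ / (x ^ 42 * y) := by rw [hσ, hx, hy]; rfl
  have hoe : o = 4 * Δ / (x ^ 45 * y ^ 2) := by rw [ho, hx, hy]; rfl
  have hτe : τ = Δ / (x ^ 3 * y) := by rw [hτ, hx, hy]
  have hσ1 : 1000 * y ≤ σ := by
    rw [hσe, le_div_iff₀ (by positivity)]
    have := hyk 42 2 (by norm_num) (by norm_num)
    nlinarith
  have ho1 : 1000 * y ≤ o := by
    rw [hoe, le_div_iff₀ (by positivity)]
    have := hyk 45 3 (by norm_num) (by norm_num)
    nlinarith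
  have hτ1 : 1000 * y ≤ τ := by
    rw [hτe, le_div_iff₀ (by positivity)]
    have := hyk 3 2 (by norm_num) (by norm_num)
    nlinarith
  obtain ⟨K, hK⟩ : ∃ K : ℕ, K = N ^ 3 * L := ⟨_, rfl⟩
  have hKr : (K : ℝ) = x ^ 3 * y := by
    rw [hK, hx, hy]
    push_cast
    rfl
  have hK0 : (0 : ℝ) < K := by rw [hKr]; positivity
  have hKn : 1 ≤ K := by
    have : 0 < K := by exact_mod_cast hK0
    omega
  have hM39 : (Δ : ℝ) / (N : ℝ) ^ 39 = σ * K := by
    rw [hσe, hKr, ← hx]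
    field_simp
  have hM39o : (Δ : ℝ) / (N : ℝ) ^ 39 = o / 4 * K ^ 2 := by
    rw [hoe, hKr, ← hx]
    field_simp
  have hΔτ : (Δ : ℝ) = τ * K := by
    rw [hτe, hKr]
    field_simp
  have hσ0 : 0 < σ := by linarith
  -- the sample space
  have hcΩ : Fintype.card (Fin T → Fin K) = K ^ T := by
    rw [Fintype.card_fun, Fintype.card_fin, Fintype.card_fin]
  obtain ⟨W, hW⟩ : ∃ W : ℝ, W = (Fintype.card (Fin T → Fin K) : ℝ) ^ Fintype.card V := ⟨_, rfl⟩
  have hWc : W = Fintype.card (V → Fin T → Fin K) := by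
    rw [hW, Fintype.card_fun (α := V), Nat.cast_pow]
  have hW0 : 0 < W := by
    rw [hW, hcΩ]
    positivity
  -- the basic events
  obtain ⟨A1, hA1⟩ : ∃ A1 : Fin T → Finset (Fin T → Fin K),
      A1 = fun t => univ.filter fun ω : Fin T → Fin K => ∀ r ∈ ({t} : Finset (Fin T)),
        ((ω r : Fin K) : ℕ) = 0 := ⟨_, rfl⟩
  obtain ⟨A2, hA2⟩ : ∃ A2 : Fin T → Fin T → Finset (Fin T → Fin K),
      A2 = fun s t => univ.filter fun ω : Fin T → Fin K => ∀ r ∈ ({s, t} : Finset (Fin T)),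
        ((ω r : Fin K) : ℕ) = 0 := ⟨_, rfl⟩
  have hA1m : ∀ t ω, ω ∈ A1 t ↔ ((ω t : Fin K) : ℕ) = 0 := by
    intro t ω
    rw [hA1]
    simp
  have hA2m : ∀ s t ω, ω ∈ A2 s t ↔ ((ω s : Fin K) : ℕ) = 0 ∧ ((ω t : Fin K) : ℕ) = 0 := by
    intro s t ω
    rw [hA2]
    simp
  have hA1c : ∀ t, ((A1 t).card : ℝ) = 1 / K * Fintype.card (Fin T → Fin K) := by
    intro t
    have h := sl2_pi T K hKn {t}
    rw [Finset.card_singleton, pow_one] at h
    have h' : (K : ℝ) * ((A1 t).card : ℝ) = (K : ℝ) ^ T := by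
      rw [hA1]
      exact_mod_cast h
    rw [hcΩ, Nat.cast_pow, ← h', one_div, inv_mul_cancel_left₀ hK0.ne']
  have hA2c : ∀ s t, s ≠ t → ((A2 s t).card : ℝ) = 1 / K ^ 2 * Fintype.card (Fin T → Fin K) := by
    intro s t hst
    have h := sl2_pi T K hKn {s, t}
    rw [Finset.card_pair hst] at h
    have h' : (K : ℝ) ^ 2 * ((A2 s t).card : ℝ) = (K : ℝ) ^ T := by
      rw [hA2]
      exact_mod_cast h
    rw [hcΩ, Nat.cast_pow, ← h', one_div, inv_mul_cancel_left₀ (pow_ne_zero 2 hK0.ne')]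
  -- the random sets
  obtain ⟨F, hF⟩ : ∃ F : (V → Fin T → Fin K) → ℕ → Finset V,
      F = fun g t => if h : t < T then
        (F0 \ Y t).filter (fun u => ((g u ⟨t, h⟩ : Fin K) : ℕ) = 0) else ∅ := ⟨_, rfl⟩
  have hFt : ∀ g (t : Fin T), F g t =
      (F0 \ Y t).filter (fun u => ((g u t : Fin K) : ℕ) = 0) := by
    intro g t
    rw [hF]
    simp only [t.2, dif_pos, Fin.eta]
  -- the four families of weights
  have hm1 : ∀ (t : Fin T) v, 0.7 * (σ * K) ≤
      (((F0 \ Y t).filter fun u => R.Adj v u).card : ℝ) := by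
    intro t v
    have h1 : dn R v F0 ≤ ((F0 \ Y t).filter fun u => R.Adj v u).card + dn R v (Y t) := by
      unfold dn
      refine (Finset.card_le_card ?_).trans (Finset.card_union_le _ _)
      intro u hu'
      simp only [mem_filter, mem_union, mem_sdiff] at hu' ⊢
      by_cases hy : u ∈ Y t
      · exact Or.inr ⟨hy, hu'.2⟩
      · exact Or.inl ⟨⟨hu'.1, hy⟩, hu'.2⟩
    have h2 : (dn R v F0 : ℝ) ≤ (((F0 \ Y t).filter fun u => R.Adj v u).card : ℝ) +
        dn R v (Y t) := by exact_mod_cast h1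
    have h3 := hl v
    have h4 := hY t t.2 v
    have e2 : (Δ : ℝ) / (N : ℝ) ^ 45 = σ * K / x ^ 6 := by
      rw [← hM39, ← hx]
      field_simp
    rw [hM39] at h3
    rw [e2] at h4
    have h5 : σ * K / x ^ 6 ≤ 0.05 * (σ * K) := by
      have h6 : (1000 : ℝ) ^ 6 ≤ x ^ 6 := pow_le_pow_left₀ (by norm_num) hx1 6
      have h7 : 0 < σ * K := by positivity
      rw [div_le_iff₀ (by positivity)]
      norm_num at h6 ⊢
      nlinarith
    norm_num at h5 ⊢
    linarith
  have hm2 : ∀ v, ((F0.filter fun u => R.Adj v u).card : ℝ) ≤ 5 / 4 * (σ * K) := by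
    intro v
    have h := hu v
    rw [hM39] at h
    exact h
  have hexp : ∀ a b : ℝ, a + b ≤ -(10 * y) → W * Real.exp b * Real.exp a ≤
      W * Real.exp (-(10 * y)) := by
    intro a b h
    rw [mul_assoc, ← Real.exp_add]
    apply mul_le_mul_of_nonneg_left _ hW0.le
    apply Real.exp_le_exp.2
    linarith
  -- (1)
  have s1 : ∀ (t : Fin T) v, ∑ g : V → Fin T → Fin K,
      Real.exp (σ / 8) * Real.exp (-(dn R v (F g t) : ℝ)) ≤ W * Real.exp (-(10 * y)) := by
    intro t v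
    have h := sl2_lo ((F0 \ Y t).filter fun u => R.Adj v u) (A1 t) (1 / K) (by positivity)
      (hA1c t).ge (fun g => dn R v (F g t)) (by
        intro g B hB hA
        show B.card ≤ dn R v (F g t)
        unfold dn
        rw [hFt]
        apply Finset.card_le_card
        intro u hu'
        have h1 := mem_filter.1 (hB hu')
        exact mem_filter.2 ⟨mem_filter.2 ⟨h1.1, (hA1m t _).1 (hA u hu')⟩, h1.2⟩)
    rw [← Finset.mul_sum]
    rw [← hW] at h
    have h3 := hexp (σ / 8) (-(1 / K *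
      (((F0 \ Y t).filter fun u => R.Adj v u).card : ℝ) / 2)) (by
        have h4 := hm1 t v
        have h5 : 0.7 * σ ≤ 1 / K * (((F0 \ Y t).filter fun u => R.Adj v u).card : ℝ) := by
          rw [one_div, inv_mul_eq_div, le_div_iff₀ hK0]
          refine le_trans (le_of_eq ?_) h4
          ring
        norm_num at h5 ⊢
        linarith)
    calc _ ≤ Real.exp (σ / 8) * (W * Real.exp (-(1 / K *
          (((F0 \ Y t).filter fun u => R.Adj v u).card : ℝ) / 2))) :=
          mul_le_mul_of_nonneg_left h (Real.exp_pos _).le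
      _ = _ := by ring
      _ ≤ _ := h3
  -- (2)
  have s2 : ∀ (t : Fin T) v, ∑ g : V → Fin T → Fin K,
      Real.exp (-(4 * σ)) * Real.exp (dn R v (F g t) : ℝ) ≤ W * Real.exp (-(10 * y)) := by
    intro t v
    have h := sl2_up (F0.filter fun u => R.Adj v u) (A1 t) (1 / K) (by positivity)
      (hA1c t).le (fun g => dn R v (F g t)) (by
        intro g
        refine ⟨(F g t).filter fun u => R.Adj v u, ?_, ?_, le_rfl⟩
        · intro u hu'
          rw [hFt] at hu'
          have h1 := mem_filter.1 hu'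
          exact mem_filter.2 ⟨(mem_sdiff.1 (mem_filter.1 h1.1).1).1, h1.2⟩
        · intro u hu'
          rw [hFt] at hu'
          exact (hA1m t _).2 (mem_filter.1 (mem_filter.1 hu').1).2)
    rw [← Finset.mul_sum]
    rw [← hW] at h
    have h3 := hexp (-(4 * σ)) (2 * (1 / K) *
      ((F0.filter fun u => R.Adj v u).card : ℝ)) (by
        have h4 := hm2 v
        have h5 : 2 * (1 / K) * ((F0.filter fun u => R.Adj v u).card : ℝ) ≤ 2.6 * σ := by
          have : 2 * (1 / K) * ((F0.filter fun u => R.Adj v u).card : ℝ) =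
            2 * ((F0.filter fun u => R.Adj v u).card : ℝ) / K := by
            ring
          rw [this, div_le_iff₀ hK0]
          have h7 : 0 < σ * K := by positivity
          norm_num
          linarith
        norm_num at h5 ⊢
        linarith)
    calc _ ≤ Real.exp (-(4 * σ)) * (W * Real.exp (2 * (1 / K) *
          ((F0.filter fun u => R.Adj v u).card : ℝ))) :=
          mul_le_mul_of_nonneg_left h (Real.exp_pos _).le
      _ = _ := by ring
      _ ≤ _ := h3
  -- (3)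
  have s3 : ∀ v, ∑ g : V → Fin T → Fin K, Real.exp (-(4 * τ)) *
      Real.exp ((univ.filter fun t => ((g v t : Fin K) : ℕ) = 0).card : ℝ) ≤
        W * Real.exp (-(10 * y)) := by
    intro v
    have h := LS.sl1c v T K hKn
    rw [← Finset.mul_sum]
    rw [← hW] at h
    have h3 := hexp (-(4 * τ)) (2 * T / K) (by
        have h5 : 2 * (T : ℝ) / K ≤ 2 * τ := by
          rw [div_le_iff₀ hK0]
          have h8 : (T : ℝ) ≤ τ * K := by
            have : (T : ℝ) ≤ Δ := by exact_mod_cast hT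
            rw [hΔτ] at this
            exact this
          linarith
        norm_num at h5 ⊢
        linarith)
    calc _ ≤ Real.exp (-(4 * τ)) * (W * Real.exp (2 * T / K)) :=
          mul_le_mul_of_nonneg_left h (Real.exp_pos _).le
      _ = _ := by ring
      _ ≤ _ := h3
  -- (4)
  have s4 : ∀ (s t : Fin T) v, s ≠ t → ∑ g : V → Fin T → Fin K,
      Real.exp (-(o)) * Real.exp (dn R v (F g s ∩ F g t) : ℝ) ≤
        W * Real.exp (-(10 * y)) := by
    intro s t v hst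
    have h := sl2_up (F0.filter fun u => R.Adj v u) (A2 s t) (1 / K ^ 2) (by positivity)
      (hA2c s t hst).le (fun g => dn R v (F g s ∩ F g t)) (by
        intro g
        refine ⟨(F g s ∩ F g t).filter fun u => R.Adj v u, ?_, ?_, le_rfl⟩
        · intro u hu'
          rw [hFt] at hu'
          have h1 := mem_filter.1 hu'
          exact mem_filter.2 ⟨(mem_sdiff.1 (mem_filter.1 (mem_inter.1 h1.1).1).1).1, h1.2⟩
        · intro u hu'
          rw [hFt, hFt] at hu'
          have h1 := mem_inter.1 (mem_filter.1 hu').1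
          exact (hA2m s t _).2 ⟨(mem_filter.1 h1.1).2, (mem_filter.1 h1.2).2⟩)
    rw [← Finset.mul_sum]
    rw [← hW] at h
    have h3 := hexp (-(o)) (2 * (1 / K ^ 2) *
      ((F0.filter fun u => R.Adj v u).card : ℝ)) (by
        have h4 := hm2 v
        have h5 : 2 * (1 / K ^ 2) * ((F0.filter fun u => R.Adj v u).card : ℝ) ≤ 5 / 8 * o := by
          have : 2 * (1 / (K : ℝ) ^ 2) * ((F0.filter fun u => R.Adj v u).card : ℝ) =
            2 * ((F0.filter fun u => R.Adj v u).card : ℝ) / K ^ 2 := by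
            ring
          rw [this, div_le_iff₀ (by positivity)]
          have h9 : σ * K = o / 4 * K ^ 2 := by rw [← hM39, hM39o]
          rw [h9] at h4
          linarith
        linarith)
    calc _ ≤ Real.exp (-(o)) * (W * Real.exp (2 * (1 / K ^ 2) *
          ((F0.filter fun u => R.Adj v u).card : ℝ))) :=
          mul_le_mul_of_nonneg_left h (Real.exp_pos _).le
      _ = _ := by ring
      _ ≤ _ := h3
  -- the union bound
  obtain ⟨w, hwd⟩ : ∃ w : ((Fin T × V) ⊕ (Fin T × V)) ⊕ (V ⊕ (Fin T × Fin T × V)) →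
      (V → Fin T → Fin K) → ℝ, w = fun i g => match i with
        | Sum.inl (Sum.inl p) => Real.exp (σ / 8) * Real.exp (-(dn R p.2 (F g p.1) : ℝ))
        | Sum.inl (Sum.inr p) => Real.exp (-(4 * σ)) * Real.exp (dn R p.2 (F g p.1) : ℝ)
        | Sum.inr (Sum.inl v) => Real.exp (-(4 * τ)) *
            Real.exp ((univ.filter fun t => ((g v t : Fin K) : ℕ) = 0).card : ℝ)
        | Sum.inr (Sum.inr p) => if p.1 = p.2.1 then 0 else Real.exp (-(o)) *
            Real.exp (dn R p.2.2 (F g p.1 ∩ F g p.2.1) : ℝ) := ⟨_, rfl⟩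
  have hub := sl2_ub (univ : Finset (((Fin T × V) ⊕ (Fin T × V)) ⊕ (V ⊕ (Fin T × Fin T × V))))
    w W (Real.exp (-(10 * y))) (by
      intro i _ g
      rw [hwd]
      rcases i with (p | p) | (v | p)
      · positivity
      · positivity
      · positivity
      · show 0 ≤ if p.1 = p.2.1 then (0 : ℝ) else Real.exp (-(o)) *
            Real.exp (dn R p.2.2 (F g p.1 ∩ F g p.2.1) : ℝ)
        split_ifs <;> positivity) (by
      intro i _
      rw [hwd]
      rcases i with (p | p) | (v | p)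
      · exact s1 p.1 p.2
      · exact s2 p.1 p.2
      · exact s3 v
      · show ∑ g : V → Fin T → Fin K, (if p.1 = p.2.1 then (0 : ℝ) else
            Real.exp (-(o)) * Real.exp (dn R p.2.2 (F g p.1 ∩ F g p.2.1) : ℝ)) ≤ _
        by_cases hp : p.1 = p.2.1
        · simp only [hp, if_true, Finset.sum_const_zero]
          positivity
        · simp only [hp, if_false]
          exact s4 p.1 p.2.1 p.2.2 hp) hW0 hWc (by
      rw [Finset.card_univ, Fintype.card_sum, Fintype.card_sum, Fintype.card_sum,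
        Fintype.card_prod, Fintype.card_prod, Fintype.card_prod, Fintype.card_fin]
      obtain ⟨v0⟩ := hV
      have h1 := hn2 v0
      have hn1 : 1 ≤ Fintype.card V := Fintype.card_pos_iff.2 ⟨v0⟩
      obtain ⟨n, hnn⟩ : ∃ n : ℕ, n = Fintype.card V := ⟨_, rfl⟩
      rw [← hnn] at h1 hn1 hn ⊢
      have hT2 : T ≤ 2 * n := hT.trans h1
      have h2 : T * n + T * n + (n + T * (T * n)) ≤ 9 * n ^ 3 := by
        have a1 : T * n ≤ 2 * n * n := Nat.mul_le_mul_right n hT2
        have a2 : T * (T * n) ≤ 2 * n * (2 * n * n) := Nat.mul_le_mul hT2 a1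
        have a3 : n * 1 ≤ n * n := Nat.mul_le_mul_left n hn1
        have a4 : n * n * 1 ≤ n * n * n := Nat.mul_le_mul_left (n * n) hn1
        nlinarith
      have h3 : ((T * n + T * n + (n + T * (T * n)) : ℕ) : ℝ) ≤ 9 * (n : ℝ) ^ 3 := by
        exact_mod_cast h2
      have h4 : (n : ℝ) ^ 3 ≤ Real.exp y ^ 3 := by
        apply pow_le_pow_left₀ (by positivity)
        rw [hy]
        exact hn
      have h5 : Real.exp y ^ 3 = Real.exp (3 * y) := by
        rw [← Real.exp_nat_mul]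
        norm_num
      have h6 : (9 : ℝ) < Real.exp y := by
        have := Real.add_one_le_exp y
        linarith
      calc ((T * n + T * n + (n + T * (T * n)) : ℕ) : ℝ) * Real.exp (-(10 * y))
          ≤ (9 * Real.exp (3 * y)) * Real.exp (-(10 * y)) := by
            apply mul_le_mul_of_nonneg_right _ (Real.exp_pos _).le
            rw [h5] at h4
            linarith
        _ = 9 * Real.exp (-(7 * y)) := by
            rw [mul_assoc, ← Real.exp_add]
            ring_nf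
        _ ≤ 9 * Real.exp (-y) := by
            apply mul_le_mul_of_nonneg_left _ (by norm_num)
            apply Real.exp_le_exp.2
            linarith
        _ < Real.exp y * Real.exp (-y) := mul_lt_mul_of_pos_right h6 (Real.exp_pos _)
        _ = 1 := by rw [← Real.exp_add, add_neg_cancel, Real.exp_zero])
  obtain ⟨g, hg⟩ := hub
  refine ⟨F g, ?_, ?_, ?_, ?_, ?_⟩
  · intro t ht
    have h := hFt g ⟨t, ht⟩
    have h' : F g t = (F0 \ Y t).filter (fun u => ((g u ⟨t, ht⟩ : Fin K) : ℕ) = 0) := h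
    rw [h']
    exact Finset.filter_subset _ _
  · intro t ht v
    have h := hg (Sum.inl (Sum.inl (⟨t, ht⟩, v))) (mem_univ _)
    rw [hwd] at h
    have h' : Real.exp (σ / 8) * Real.exp (-(dn R v (F g t) : ℝ)) < 1 := h
    rw [← Real.exp_add, Real.exp_lt_one_iff] at h'
    linarith
  · intro t ht v
    have h := hg (Sum.inl (Sum.inr (⟨t, ht⟩, v))) (mem_univ _)
    rw [hwd] at h
    have h' : Real.exp (-(4 * σ)) * Real.exp (dn R v (F g t) : ℝ) < 1 := h
    exact (sl2_exp_lt h').le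
  · intro v
    have h := hg (Sum.inr (Sum.inl v)) (mem_univ _)
    rw [hwd] at h
    have h' : Real.exp (-(4 * τ)) *
      Real.exp ((univ.filter fun t => ((g v t : Fin K) : ℕ) = 0).card : ℝ) < 1 := h
    refine le_trans ?_ (sl2_exp_lt h').le
    have hc : ((range T).filter fun t => v ∈ F g t).card ≤
        (univ.filter fun t : Fin T => ((g v t : Fin K) : ℕ) = 0).card := by
      have himg : ((range T).filter fun t => v ∈ F g t) ⊆
          (univ.filter fun t : Fin T => ((g v t : Fin K) : ℕ) = 0).image (fun t : Fin T => (t : ℕ)) := by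
        intro t ht
        rw [mem_filter, mem_range] at ht
        rw [mem_image]
        refine ⟨⟨t, ht.1⟩, ?_, rfl⟩
        rw [mem_filter]
        refine ⟨mem_univ _, ?_⟩
        have h1 : F g t = (F0 \ Y t).filter (fun u => ((g u ⟨t, ht.1⟩ : Fin K) : ℕ) = 0) :=
          hFt g ⟨t, ht.1⟩
        have h2 := ht.2
        rw [h1] at h2
        exact (mem_filter.1 h2).2
      exact (Finset.card_le_card himg).trans Finset.card_image_le
    exact_mod_cast hc
  · intro s hs t ht hst v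
    have h := hg (Sum.inr (Sum.inr (⟨s, hs⟩, ⟨t, ht⟩, v))) (mem_univ _)
    rw [hwd] at h
    have h' : (if (⟨s, hs⟩ : Fin T) = ⟨t, ht⟩ then (0 : ℝ) else Real.exp (-(o)) *
            Real.exp (dn R v (F g s ∩ F g t) : ℝ)) < 1 := h
    rw [if_neg (by
      intro he
      exact hst (Fin.ext_iff.1 he))] at h'
    exact (sl2_exp_lt h').le

end Pool.Agent.H12.LT
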