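import Mathlib
import Pool.Agent.H12.LT.Defs
import Pool.Agent.H12.LS.Gm
import Pool.Agent.H12.LT.Rg2
import Pool.Agent.H12.LT.Sl0
import Pool.Agent.H12.LT.Sl2
import Pool.Agent.H12.LT.Prc
import Pool.Agent.H12.LT.Np2

/-!
AS0: the data of the process. `H12/LS/As0.lean` with the parameter `L` (`rg2`, `xs_t`, `xs_gm` from `LT/Rg2.lean`; `LS.Gm`, `LS.gm_dg`,
`LS.gm_ee`, `LS.gm_nF` from `H12/LS/Gm.lean`).
-/

set_option autoImplicit false

namespace Pool.Agent.H12.LT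

open Finset Classical
open Pool.Agent.H71.DN Pool.Agent.H71.EX

private theorem As0_dn {V : Type} [Fintype V] {R G : SimpleGraph V} (h : R ≤ G) (v : V)
    (A : Finset V) : dn R v A ≤ dn G v A := by
  unfold dn
  refine card_le_card fun x hx => ?_
  rw [mem_filter] at hx ⊢
  exact ⟨hx.1, h hx.2⟩

private theorem As0_dg {V : Type} [Fintype V] {R G : SimpleGraph V} (h : R ≤ G) (v : V) :
    dg R v ≤ dg G v := by
  unfold dg
  refine card_le_card fun x hx => ?_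
  rw [mem_filter] at hx ⊢
  exact ⟨hx.1, h hx.2⟩

private theorem As0_ee {V : Type} [Fintype V] {R G : SimpleGraph V} (h : R ≤ G)
    (A B : Finset V) : ee R A B ≤ ee G A B := by
  unfold ee
  refine card_le_card fun x hx => ?_
  rw [mem_filter] at hx ⊢
  exact ⟨hx.1, h hx.2⟩

private theorem As0_un {V : Type} [Fintype V] (G : SimpleGraph V) (v : V) (A B : Finset V) :
    dn G v (A ∪ B) ≤ dn G v A + dn G v B := by
  unfold dn
  rw [filter_union]
  exact card_union_le _ _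

private theorem As0_pw {Δ x : ℝ} (hΔ : 0 ≤ Δ) (hx : 1000 ≤ x) (a b : ℕ) (hab : a < b) :
    1000 * (Δ / x ^ b) ≤ Δ / x ^ a := by
  have hx0 : 0 < x := by linarith
  have h1 : Δ / x ^ b ≤ Δ / x ^ (a + 1) :=
    div_le_div_of_nonneg_left hΔ (by positivity) (pow_le_pow_right₀ (by linarith) hab)
  have h2 : Δ / x ^ a = x * (Δ / x ^ (a + 1)) := by
    rw [pow_succ]
    field_simp
  have h3 : 0 ≤ Δ / x ^ (a + 1) := by positivity
  rw [h2]
  nlinarith

theorem as0 {V : Type} [Fintype V] (G : SimpleGraph V) (Δ N L T : ℕ) (h : Xt G Δ N L)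
    (W : ℕ → Finset V) (hT : (T : ℝ) ≤ Δ - 3 * (Δ / (N : ℝ) ^ 8)) (hT2 : Δ ≤ 2 * T)
    (wc : ∀ v, (((range T).filter fun t => v ∈ W t).card : ℝ) ≤ Δ / (N : ℝ) ^ 30)
    (wd : ∀ t < T, ∀ v, (dn G v (W t) : ℝ) ≤ Δ / (N : ℝ) ^ 50) :
    ∃ (F0 : Finset V) (R1 : SimpleGraph V) (w0 : ℕ) (F : ℕ → Finset V) (σ : ℕ → V → V),
      (∀ t < T, ∀ v, σ t (σ t v) = v) ∧
      (∀ t < T, ∀ v, σ t v ≠ v → v ∈ F0 ∧ v ∉ W t ∧ G.Adj v (σ t v)) ∧
      (∀ s < T, ∀ t < T, s ≠ t → ∀ v, σ s v ≠ v → σ s v ≠ σ t v) ∧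
      (∀ u ∈ F0, ∀ v ∈ F0, G.Adj u v → ∃ t < T, σ t u = v) ∧
      Pd (LS.Gm G F0) R1 Δ N L T w0 (fun t => W t ∪ univ.filter fun v => σ t v ≠ v) F F0 := by
  have hN : (1000 : ℝ) ≤ N := by exact_mod_cast h.hN
  have hN0 : (0 : ℝ) < N := by linarith
  have hΔ0 : (0 : ℝ) ≤ Δ := Nat.cast_nonneg _
  have pw := fun a b hab => As0_pw (x := (N : ℝ)) hΔ0 hN a b hab
  have hTΔ : T ≤ Δ := by
    have h1 : 0 ≤ 3 * ((Δ : ℝ) / (N : ℝ) ^ 8) := by positivity
    have h2 : (T : ℝ) ≤ Δ := by linarith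
    exact_mod_cast h2
  have hcv : ∀ v : V, Δ ≤ 2 * Fintype.card V := fun v => cv_s G Δ N L (xs_t G Δ N L h) v
  obtain ⟨R, hRG, rd, rb, rc⟩ := rg2 G Δ N L h
  obtain ⟨F0, f1, f2, f3⟩ := sl0 G R Δ N L h.hN h.hL h.hΔ h.hΔL h.n2 hRG h.up h.lo rd
  have q31 : 0 ≤ (Δ : ℝ) / (N : ℝ) ^ 31 := by positivity
  have q30 : 0 ≤ (Δ : ℝ) / (N : ℝ) ^ 30 := by positivity
  have q21 : 0 ≤ (Δ : ℝ) / (N : ℝ) ^ 21 := by positivity
  have q20 : 0 ≤ (Δ : ℝ) / (N : ℝ) ^ 20 := by positivity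
  have q50 : 0 ≤ (Δ : ℝ) / (N : ℝ) ^ 50 := by positivity
  have p1 := pw 29 30 (by norm_num)
  have p2 := pw 30 31 (by norm_num)
  have p3 := pw 20 21 (by norm_num)
  have p4 := pw 21 31 (by norm_num)
  have p5 := pw 45 50 (by norm_num)
  have p6 := pw 20 50 (by norm_num)
  obtain ⟨σ, s1, s2, s3, s4, s5⟩ := prc G Δ N L T F0 W h.hN h.hL h.hΔ h.hΔL h.n2 hcv hT2 hTΔ f1
    (fun v => (wc v).trans (by linarith))
  have hdW : ∀ t < T, ∀ v, (dn G v (W t ∪ univ.filter fun v => σ t v ≠ v) : ℝ) ≤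
      2 * (Δ / (N : ℝ) ^ 50) := by
    intro t ht v
    have h1 : (dn G v (W t ∪ univ.filter fun v => σ t v ≠ v) : ℝ) ≤
        dn G v (W t) + dn G v (univ.filter fun v => σ t v ≠ v) := by
      exact_mod_cast As0_un G v _ _
    have h2 := wd t ht v
    have h3 := s5 t ht v
    linarith
  obtain ⟨F, F1, F2, F3, F4, F5⟩ := sl2 R Δ N L T F0 (fun t => W t ∪ univ.filter fun v => σ t v ≠ v)
    h.hN h.hL h.hΔ h.hΔL h.n2 hcv hTΔ f2 f3 (fun t ht v => by
      have h1 : (dn R v (W t ∪ univ.filter fun v => σ t v ≠ v) : ℝ) ≤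
          dn G v (W t ∪ univ.filter fun v => σ t v ≠ v) := by
        exact_mod_cast As0_dn hRG v _
      have h2 := hdW t ht v
      linarith)
  have hGm : ∀ H : SimpleGraph V, LS.Gm H F0 ≤ H := fun H _ _ k => k.1
  have f1R : ∀ v, (dn R v F0 : ℝ) ≤ 2 * (Δ / (N : ℝ) ^ 31) := by
    intro v
    have h1 : (dn R v F0 : ℝ) ≤ dn G v F0 := by exact_mod_cast As0_dn hRG v F0
    exact h1.trans (f1 v)
  have hN8 : (1 : ℝ) ≤ (N : ℝ) ^ 8 := one_le_pow₀ (by linarith)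
  have hN8' : (0 : ℝ) < (N : ℝ) ^ 8 := by positivity
  refine ⟨F0, LS.Gm R F0, ⌊(Δ : ℝ) / (N : ℝ) ^ 29⌋₊, F, σ, s1, s2, s3, s4, ?_⟩
  refine ⟨xs_gm G Δ N L h F0 f1, fun a b k => ⟨hRG k.1, k.2⟩, fun v => ?_, fun A B hAB => ?_,
    fun S => ?_, hT, Nat.floor_le (by positivity), fun v => ?_, fun t ht v => ?_,
    fun t ht v hv => ?_, fun t ht => ?_, fun t ht v hv => ?_, fun t ht v => ?_, F4,
    fun s hs t ht hst v => ?_, fun u hu v hv k => k.2 ⟨hu, hv⟩, fun v => ?_⟩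
  · have a1 := rd v
    rw [abs_le] at a1 ⊢
    have a2 : (dg R v : ℝ) ≤ dg (LS.Gm R F0) v + dn R v F0 := by exact_mod_cast LS.gm_dg R F0 v
    have a3 : (dg G v : ℝ) ≤ dg (LS.Gm G F0) v + dn G v F0 := by exact_mod_cast LS.gm_dg G F0 v
    have a4 : (dg (LS.Gm R F0) v : ℝ) ≤ dg R v := by exact_mod_cast As0_dg (hGm R) v
    have a5 : (dg (LS.Gm G F0) v : ℝ) ≤ dg G v := by exact_mod_cast As0_dg (hGm G) v
    have a6 := f1 v
    have a7 := f1R v
    have a8 : (dg (LS.Gm G F0) v : ℝ) / (N : ℝ) ^ 8 ≤ dg G v / (N : ℝ) ^ 8 :=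
      div_le_div_of_nonneg_right a5 hN8'.le
    have a9 : (dg G v : ℝ) / (N : ℝ) ^ 8 ≤
        dg (LS.Gm G F0) v / (N : ℝ) ^ 8 + 2 * (Δ / (N : ℝ) ^ 31) := by
      have b1 : (dg G v : ℝ) / (N : ℝ) ^ 8 ≤
          (dg (LS.Gm G F0) v + 2 * (Δ / (N : ℝ) ^ 31)) / (N : ℝ) ^ 8 :=
        div_le_div_of_nonneg_right (by linarith) hN8'.le
      have b2 : 2 * ((Δ : ℝ) / (N : ℝ) ^ 31) / (N : ℝ) ^ 8 ≤ 2 * (Δ / (N : ℝ) ^ 31) :=
        div_le_self (by linarith) hN8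
      rw [add_div] at b1
      linarith
    constructor <;> linarith [a1.1, a1.2]
  · have a1 := rb A B hAB
    have a2 : (ee (LS.Gm R F0) A B : ℝ) ≤ ee R A B := by exact_mod_cast As0_ee (hGm R) A B
    have a3 := LS.gm_ee G F0 _ f1 A B
    have hA : (0 : ℝ) ≤ A.card := Nat.cast_nonneg _
    have hB : (0 : ℝ) ≤ B.card := Nat.cast_nonneg _
    have a4 : (ee G A B : ℝ) / (N : ℝ) ^ 8 ≤
        ee (LS.Gm G F0) A B / (N : ℝ) ^ 8 + 2 * (Δ / (N : ℝ) ^ 31) * A.card := by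
      have b1 : (ee G A B : ℝ) / (N : ℝ) ^ 8 ≤
          (ee (LS.Gm G F0) A B + 2 * (Δ / (N : ℝ) ^ 31) * A.card) / (N : ℝ) ^ 8 :=
        div_le_div_of_nonneg_right a3 hN8'.le
      have b2 : 2 * ((Δ : ℝ) / (N : ℝ) ^ 31) * A.card / (N : ℝ) ^ 8 ≤
          2 * (Δ / (N : ℝ) ^ 31) * A.card :=
        div_le_self (by positivity) hN8
      rw [add_div] at b1
      linarith
    have a5 : (Δ : ℝ) / (N : ℝ) ^ 21 * (A.card + B.card) + 2 * (Δ / (N : ℝ) ^ 31) * A.card ≤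
        Δ / (N : ℝ) ^ 20 * (A.card + B.card) := by
      have b1 : 2 * ((Δ : ℝ) / (N : ℝ) ^ 31) * A.card ≤ Δ / (N : ℝ) ^ 21 * A.card :=
        mul_le_mul_of_nonneg_right (by linarith) hA
      have b2 : 2 * ((Δ : ℝ) / (N : ℝ) ^ 21) * (A.card + B.card) ≤
          Δ / (N : ℝ) ^ 20 * (A.card + B.card) :=
        mul_le_mul_of_nonneg_right (by linarith) (by positivity)
      have b3 : 0 ≤ (Δ : ℝ) / (N : ℝ) ^ 21 * B.card := by positivity
      linarith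
    linarith
  · have a1 := rc S
    have a2 : (ee (LS.Gm G F0) S (univ \ S) : ℝ) ≤ ee G S (univ \ S) := by
      exact_mod_cast As0_ee (hGm G) S (univ \ S)
    have a3 := LS.gm_ee R F0 _ f1R S (univ \ S)
    have hS : (0 : ℝ) ≤ S.card := Nat.cast_nonneg _
    have a4 : (ee (LS.Gm G F0) S (univ \ S) : ℝ) / (N : ℝ) ^ 8 ≤
        ee G S (univ \ S) / (N : ℝ) ^ 8 := div_le_div_of_nonneg_right a2 hN8'.le
    have a5 : (Δ : ℝ) / (N : ℝ) ^ 21 * S.card + 2 * (Δ / (N : ℝ) ^ 31) * S.card ≤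
        Δ / (N : ℝ) ^ 20 * S.card := by
      rw [← add_mul]
      exact mul_le_mul_of_nonneg_right (by linarith) hS
    linarith
  · refine Nat.le_floor ?_
    have a1 : ((range T).filter fun t => v ∈ W t ∪ univ.filter fun v => σ t v ≠ v) ⊆
        ((range T).filter fun t => v ∈ W t) ∪ (range T).filter fun t => σ t v ≠ v := by
      intro t ht
      simp only [mem_filter, mem_union, mem_univ, true_and] at ht ⊢
      rcases ht.2 with k | k
      · exact Or.inl ⟨ht.1, k⟩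
      · exact Or.inr ⟨ht.1, k⟩
    have a2 : ((range T).filter fun t => σ t v ≠ v).card ≤ dn G v F0 := by
      unfold dn
      refine card_le_card_of_injOn (fun t => σ t v) ?_ ?_
      · intro t ht
        have ht' := mem_filter.1 (mem_coe.1 ht)
        have htT := mem_range.1 ht'.1
        refine mem_coe.2 (mem_filter.2 ⟨?_, (s2 t htT v ht'.2).2.2⟩)
        refine (s2 t htT (σ t v) ?_).1
        rw [s1 t htT v]
        exact fun k => ht'.2 k.symm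
      · intro s hs t ht hst
        have hs' := mem_filter.1 (mem_coe.1 hs)
        have ht' := mem_filter.1 (mem_coe.1 ht)
        by_contra hne
        exact s3 s (mem_range.1 hs'.1) t (mem_range.1 ht'.1) hne v hs'.2 hst
    have a3 := (card_le_card a1).trans (card_union_le _ _)
    have a4 : (((range T).filter fun t => v ∈ W t ∪ univ.filter fun v => σ t v ≠ v).card : ℝ) ≤
        ((range T).filter fun t => v ∈ W t).card + dn G v F0 := by
      exact_mod_cast a3.trans (Nat.add_le_add_left a2 _)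
    have a5 := wc v
    have a6 := f1 v
    linarith
  · have a1 : (dn (LS.Gm G F0) v (W t ∪ univ.filter fun v => σ t v ≠ v) : ℝ) ≤
        dn G v (W t ∪ univ.filter fun v => σ t v ≠ v) := by
      exact_mod_cast As0_dn (hGm G) v _
    have a2 := hdW t ht v
    linarith
  · exact (mem_sdiff.1 (F1 t ht hv)).2
  · exact fun v hv => (mem_sdiff.1 (F1 t ht hv)).1
  · rw [LS.gm_nF R F0 v hv]
    exact F2 t ht v
  · have a1 : (dn (LS.Gm R F0) v (F t) : ℝ) ≤ dn R v (F t) := by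
      exact_mod_cast As0_dn (hGm R) v _
    exact a1.trans (F3 t ht v)
  · have a1 : (dn (LS.Gm R F0) v (F s ∩ F t) : ℝ) ≤ dn R v (F s ∩ F t) := by
      exact_mod_cast As0_dn (hGm R) v _
    exact a1.trans (F5 s hs t ht hst v)
  · have a1 : (dn (LS.Gm G F0) v F0 : ℝ) ≤ dn G v F0 := by
      exact_mod_cast As0_dn (hGm G) v _
    have a2 := f1 v
    linarith

end Pool.Agent.H12.LT
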