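import Mathlib
import Pool.Agent.H12.LT.Defs
import Pool.Agent.H71.EX.Pa

/-!
PA2: the initial state of the process. `H12/LS/Pa2.lean` (proved) with the parameter `L` (`B2 N L 0 = 1`; the exponents of `P3` are `0`).
-/

set_option autoImplicit false

namespace Pool.Agent.H12.LT

open Finset Classical
open Pool.Agent.H71.DN Pool.Agent.H71.EX

theorem pa2 {V : Type} [Fintype V] (G R : SimpleGraph V) (Δ N L T w0 : ℕ) (W F : ℕ → Finset V)
    (F0 : Finset V) (h : Pd G R Δ N L T w0 W F F0) : Sm G R Δ N L T 0 W F F0 G ∅ := by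
  have hN : (1000 : ℝ) ≤ N := by exact_mod_cast h.xp.hN
  have hΔ0 : (0 : ℝ) ≤ Δ := Nat.cast_nonneg _
  have hV0 : (0 : ℝ) ≤ (Fintype.card V : ℝ) := Nat.cast_nonneg _
  have hP1 : P1 G R Δ N 0 W G ≤ Fintype.card V * B1 Δ N 0 := by
    have hv : ∀ v ∈ (univ : Finset V), Real.cosh (dl R Δ N 0 G v / (N : ℝ) ^ 11) *
        Real.exp (- (aa G W Δ N 0 v / (N : ℝ) ^ 11)) ≤ B1 Δ N 0 := by
      intro v _
      have e1 : aa G W Δ N 0 v = 0 := by
        unfold aa
        simp
      rw [e1, zero_div, neg_zero, Real.exp_zero, mul_one]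
      unfold B1
      apply EXPa_cosh
      have h8 : (1 : ℝ) ≤ (N : ℝ) ^ 8 := one_le_pow₀ (by linarith)
      have h1 : (dg G v : ℝ) ≤ Δ := by exact_mod_cast h.xp.up v
      have h4 : ((dg (G \ R) v : ℕ) : ℝ) = dg G v - dg R v := by
        have := EXPa_dg G R h.le v
        have h5 : ((dg (G \ R) v : ℕ) : ℝ) + dg R v = dg G v := by exact_mod_cast this
        linarith
      have h6 := EXPa_num Δ (dg G v) (dg R v) ((N : ℝ) ^ 8) (Δ / (N : ℝ) ^ 20) h8 h1
        (h.xp.lo v) (h.rd v)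
      have h7 : dl R Δ N 0 G v = (1 - 1 / (N : ℝ) ^ 8) * Δ - ((dg G v : ℝ) - dg R v) := by
        unfold dl Db
        rw [h4]
        simp
      rw [h7, abs_div, abs_of_pos (show (0 : ℝ) < (N : ℝ) ^ 11 by positivity)]
      have h8' : 2 * (Δ : ℝ) / (N : ℝ) ^ 31 + 2 * (0 : ℕ) / (N : ℝ) ^ 32 =
          (2 * (Δ / (N : ℝ) ^ 20)) / (N : ℝ) ^ 11 := by
        have : (N : ℝ) ≠ 0 := by positivity
        field_simp
        simp
      rw [h8']
      exact div_le_div_of_nonneg_right h6 (by positivity)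
    have := Finset.sum_le_card_nsmul univ _ _ hv
    rw [nsmul_eq_mul, Finset.card_univ] at this
    exact this
  have hT : (T : ℝ) ≤ Δ := by
    have h1 := h.hT
    have h2 : 0 ≤ (Δ : ℝ) / (N : ℝ) ^ 8 := by positivity
    linarith
  have hVT : (Fintype.card V : ℝ) * T ≤ Fintype.card V * Δ := mul_le_mul_of_nonneg_left hT hV0
  have hP2 : P2 R T F G ≤ Fintype.card V * Δ * B2 N L 0 := by
    have e1 : B2 N L 0 = 1 := by
      unfold B2
      simp
    have e2 : ∀ (v : V) (s : ℕ), usd R F G v s = 0 := by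
      intro v s
      unfold usd
      rw [Finset.card_eq_zero, Finset.filter_eq_empty_iff]
      intro u _ hu
      exact hu.2 (h.le hu.1)
    have e3 : P2 R T F G = Fintype.card V * T := by
      unfold P2
      simp only [e2, Nat.cast_zero, Real.exp_zero, Finset.sum_const, Finset.card_range,
        Finset.card_univ, nsmul_eq_mul, mul_one]
    rw [e1, mul_one, e3]
    exact hVT
  have hP3 : P3 R Δ N L T 0 F ∅ ≤ Fintype.card V * Δ := by
    have e2 : ∀ (v : V) (s : ℕ), dn R v (F s ∩ ∅) = 0 := by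
      intro v s
      unfold dn
      simp
    have e4 : ((range T).filter fun s => 0 ≤ s) = range T :=
      Finset.filter_true_of_mem (fun s _ => Nat.zero_le s)
    have e3 : P3 R Δ N L T 0 F ∅ = Fintype.card V * T := by
      unfold P3
      rw [e4]
      simp only [e2, Nat.cast_zero, Finset.range_zero, Finset.sum_empty, mul_zero, sub_zero,
        Real.exp_zero, Finset.sum_const, Finset.card_range, Finset.card_univ, nsmul_eq_mul, mul_one]
    rw [e3]
    exact hVT
  have b1 : 0 ≤ B1 Δ N 0 := (Real.exp_pos _).le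
  have b2 : 0 ≤ B2 N L 0 := (Real.exp_pos _).le
  have d1 : P1 G R Δ N 0 W G / (Fintype.card V * B1 Δ N 0) ≤ 1 :=
    div_le_one_of_le₀ hP1 (mul_nonneg hV0 b1)
  have d2 : P2 R T F G / (Fintype.card V * Δ * B2 N L 0) ≤ 1 :=
    div_le_one_of_le₀ hP2 (mul_nonneg (mul_nonneg hV0 hΔ0) b2)
  have d3 : P3 R Δ N L T 0 F ∅ / (Fintype.card V * Δ) ≤ 1 :=
    div_le_one_of_le₀ hP3 (mul_nonneg hV0 hΔ0)
  have d4 := add_le_add (add_le_add d1 d2) d3
  have d5 : (1 + 1 + 1 : ℝ) = 3 := by norm_num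
  rw [d5] at d4
  refine ⟨le_refl _, Finset.empty_subset _, fun v => by simp, ?_⟩
  exact d4

end Pool.Agent.H12.LT
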