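import Mathlib
import Pool.Agent.H12.LT.Defs
import Pool.Agent.H71.EX.Pb

/-!
PB2: bounds from the first potential. `H12/LS/Pb2.lean` (proved) with the parameter `L`. Only change in `pb2`: `#V ≤ exp L`, so
`|dl| / N ^ 11 ≤ log 6 + L + 2 Δ / N ^ 31 + 2 Δ / N ^ 32 + Δ / N ^ 32 ≤ 3 Δ / N ^ 31`, because `L + 2 ≤ Δ / (4 N ^ 31)` (`hΔL`: `N ^ 60 L ^ 3 ≤ Δ`).
-/

set_option autoImplicit false

namespace Pool.Agent.H12.LT

open Finset Classical
open Pool.Agent.H71.DN Pool.Agent.H71.EX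

private theorem Npos2 {V : Type} [Fintype V] {G R : SimpleGraph V} {Δ N L T w0 : ℕ} {W F : ℕ → Finset V}
    {F0 : Finset V} (h : Pd G R Δ N L T w0 W F F0) : (1000 : ℝ) ≤ N := by
  exact_mod_cast h.xp.hN

private theorem Δpos2 {V : Type} [Fintype V] {G R : SimpleGraph V} {Δ N L T w0 : ℕ} {W F : ℕ → Finset V}
    {F0 : Finset V} (h : Pd G R Δ N L T w0 W F F0) : (0 : ℝ) < Δ := by
  have h1 : 0 < N ^ 250 := pow_pos (by have := h.xp.hN; omega) 250
  exact_mod_cast h1.trans_le h.xp.hΔ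

theorem dbl2 {V : Type} [Fintype V] (G R : SimpleGraph V) (Δ N L T w0 : ℕ) (W F : ℕ → Finset V)
    (F0 : Finset V) (h : Pd G R Δ N L T w0 W F F0) (s : ℕ) (hs : s ≤ T) :
    2 * (Δ / (N : ℝ) ^ 8) ≤ Db Δ N s := by
  have hN := Npos2 h
  have h1 : (1 : ℝ) ≤ (N : ℝ) ^ 10 := one_le_pow₀ (by linarith)
  have h2 : 0 ≤ 1 / (N : ℝ) ^ 10 := by positivity
  have h3 : (s : ℝ) ≤ T := by exact_mod_cast hs
  have h4 := h.hT
  have h5 : (0 : ℝ) ≤ s := Nat.cast_nonneg _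
  unfold Db
  have h6 : 0 ≤ 1 / (N : ℝ) ^ 10 * s := mul_nonneg h2 h5
  have h7 : (1 - 1 / (N : ℝ) ^ 8) * Δ = Δ - Δ / (N : ℝ) ^ 8 := by ring
  rw [h7]
  linarith

private theorem dsum2 {V : Type} [Fintype V] (G R : SimpleGraph V) (Δ N L T w0 : ℕ) (W F : ℕ → Finset V)
    (F0 : Finset V) (h : Pd G R Δ N L T w0 W F F0) (t : ℕ) (ht : t ≤ T) (v : V) :
    ∑ s ∈ range t, (dn G v (W s) : ℝ) ≤ Δ * w0 := by
  have h1 : ∑ s ∈ range t, dn G v (W s) =
      ∑ u ∈ univ.filter (fun u => G.Adj v u), ((range t).filter fun s => u ∈ W s).card := by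
    unfold dn
    simp only [Finset.card_filter]
    rw [Finset.sum_filter]
    have e : ∀ s ∈ range t, ∑ u ∈ W s, (if G.Adj v u then 1 else 0) =
        ∑ u : V, if u ∈ W s then (if G.Adj v u then 1 else 0) else 0 := by
      intro s _
      rw [Finset.sum_ite_mem, Finset.univ_inter]
    rw [Finset.sum_congr rfl e, Finset.sum_comm]
    refine Finset.sum_congr rfl fun u _ => ?_
    by_cases hu : G.Adj v u
    · simp [hu]
    · simp [hu]
  have h2 : ∀ u, ((range t).filter fun s => u ∈ W s).card ≤ w0 := by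
    intro u
    refine le_trans (Finset.card_le_card ?_) (h.wc u)
    intro s hs
    rw [Finset.mem_filter, Finset.mem_range] at hs ⊢
    exact ⟨by omega, hs.2⟩
  have h3 : ∑ s ∈ range t, dn G v (W s) ≤ dg G v * w0 := by
    rw [h1]
    refine (Finset.sum_le_sum fun u _ => h2 u).trans ?_
    rw [Finset.sum_const, smul_eq_mul]
    exact le_of_eq rfl
  have h4 : ∑ s ∈ range t, dn G v (W s) ≤ Δ * w0 := h3.trans (Nat.mul_le_mul_right _ (h.xp.up v))
  exact_mod_cast h4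

theorem aab2 {V : Type} [Fintype V] (G R : SimpleGraph V) (Δ N L T w0 : ℕ) (W F : ℕ → Finset V)
    (F0 : Finset V) (h : Pd G R Δ N L T w0 W F F0) (t : ℕ) (ht : t ≤ T) (v : V) :
    aa G W Δ N t v ≤ Δ / (N : ℝ) ^ 21 := by
  have hN := Npos2 h
  have hN0 : (0 : ℝ) < N := by linarith
  have hΔ : (0 : ℝ) < Δ := Δpos2 h
  have h1 : ∑ s ∈ range t, (if v ∈ W s then (1 : ℝ) else 0) ≤ w0 := by
    rw [← Finset.sum_filter, Finset.sum_const, nsmul_eq_mul, mul_one]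
    have h2 : ((range t).filter fun s => v ∈ W s).card ≤ w0 := by
      refine le_trans (Finset.card_le_card ?_) (h.wc v)
      intro s hs
      rw [Finset.mem_filter, Finset.mem_range] at hs ⊢
      exact ⟨by omega, hs.2⟩
    exact_mod_cast h2
  have h2 : ∑ s ∈ range t, (dn G v (W s) : ℝ) / Db Δ N s ≤ w0 * (N : ℝ) ^ 8 / 2 := by
    have h3 : ∀ s ∈ range t, (dn G v (W s) : ℝ) / Db Δ N s ≤
        (dn G v (W s) : ℝ) / (2 * (Δ / (N : ℝ) ^ 8)) := by
      intro s hs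
      rw [Finset.mem_range] at hs
      exact div_le_div_of_nonneg_left (Nat.cast_nonneg _) (by positivity)
        (dbl2 G R Δ N L T w0 W F F0 h s (by omega))
    refine (Finset.sum_le_sum h3).trans ?_
    rw [← Finset.sum_div, div_le_iff₀ (by positivity)]
    have h4 := dsum2 G R Δ N L T w0 W F F0 h t ht v
    have h5 : (w0 : ℝ) * (N : ℝ) ^ 8 / 2 * (2 * (Δ / (N : ℝ) ^ 8)) = Δ * w0 := by
      field_simp
    rw [h5]
    exact h4
  have h3 : (w0 : ℝ) ≤ w0 * (N : ℝ) ^ 8 / 2 := by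
    have h4 : (2 : ℝ) ≤ (N : ℝ) ^ 8 := by
      have h5 : (N : ℝ) ^ 1 ≤ (N : ℝ) ^ 8 := pow_le_pow_right₀ (by linarith) (by norm_num)
      rw [pow_one] at h5
      linarith
    have h5 : (0 : ℝ) ≤ w0 := Nat.cast_nonneg _
    nlinarith
  unfold aa
  rw [Finset.sum_add_distrib]
  have h4 : (w0 : ℝ) * (N : ℝ) ^ 8 ≤ Δ / (N : ℝ) ^ 21 := by
    have h5 := mul_le_mul_of_nonneg_right h.hw (show (0 : ℝ) ≤ (N : ℝ) ^ 8 by positivity)
    refine h5.trans (le_of_eq ?_)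
    field_simp
  linarith

private theorem P1_nn {V : Type} [Fintype V] (G R : SimpleGraph V) (Δ N t : ℕ) (W : ℕ → Finset V)
    (U : SimpleGraph V) : 0 ≤ P1 G R Δ N t W U := by
  unfold P1
  exact Finset.sum_nonneg fun u _ => mul_nonneg (Real.cosh_pos _).le (Real.exp_pos _).le

private theorem P2_nn {V : Type} [Fintype V] (R : SimpleGraph V) (T : ℕ) (F : ℕ → Finset V)
    (U : SimpleGraph V) : 0 ≤ P2 R T F U := by
  unfold P2
  exact Finset.sum_nonneg fun u _ => Finset.sum_nonneg fun s _ => (Real.exp_pos _).le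

private theorem P3_nn {V : Type} [Fintype V] (R : SimpleGraph V) (Δ N L T t : ℕ) (F : ℕ → Finset V)
    (M : Finset V) : 0 ≤ P3 R Δ N L T t F M := by
  unfold P3
  exact Finset.sum_nonneg fun u _ => Finset.sum_nonneg fun s _ => (Real.exp_pos _).le

theorem tot2 {V : Type} [Fintype V] (G R : SimpleGraph V) (Δ N L T w0 : ℕ) (W F : ℕ → Finset V)
    (F0 : Finset V) (h : Pd G R Δ N L T w0 W F F0) (t : ℕ) (ht : t ≤ T) (U : SimpleGraph V)
    (M : Finset V) (hU : Sm G R Δ N L T t W F F0 U M) :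
    P1 G R Δ N t W U ≤ 3 * (Fintype.card V * B1 Δ N t) ∧
      P2 R T F U ≤ 3 * (Fintype.card V * Δ * B2 N L t) ∧
      P3 R Δ N L T t F M ≤ 3 * (Fintype.card V * Δ) := by
  have hΔ := Δpos2 h
  have n1 := P1_nn G R Δ N t W U
  have n2 := P2_nn R T F U
  have n3 := P3_nn R Δ N L T t F M
  rcases isEmpty_or_nonempty V with hV | hV
  · have hc : (Fintype.card V : ℝ) = 0 := by
      rw [Fintype.card_eq_zero]
      norm_num
    rw [hc]
    refine ⟨?_, ?_, ?_⟩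
    · unfold P1
      rw [Finset.univ_eq_empty, Finset.sum_empty]
      simp
    · unfold P2
      rw [Finset.univ_eq_empty, Finset.sum_empty]
      simp
    · unfold P3
      rw [Finset.univ_eq_empty, Finset.sum_empty]
      simp
  · have hc : (0 : ℝ) < Fintype.card V := by exact_mod_cast Fintype.card_pos
    have b1 : 0 < B1 Δ N t := Real.exp_pos _
    have b2 : 0 < B2 N L t := Real.exp_pos _
    have c1 : 0 < Fintype.card V * B1 Δ N t := mul_pos hc b1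
    have c2 : 0 < Fintype.card V * Δ * B2 N L t := mul_pos (mul_pos hc hΔ) b2
    have c3 : (0 : ℝ) < Fintype.card V * Δ := mul_pos hc hΔ
    have q1 := div_nonneg n1 c1.le
    have q2 := div_nonneg n2 c2.le
    have q3 := div_nonneg n3 c3.le
    have hp := hU.pot
    refine ⟨?_, ?_, ?_⟩
    · rw [← div_le_iff₀ c1]
      linarith
    · rw [← div_le_iff₀ c2]
      linarith
    · rw [← div_le_iff₀ c3]
      linarith

theorem pb2 {V : Type} [Fintype V] (G R : SimpleGraph V) (Δ N L T w0 : ℕ) (W F : ℕ → Finset V)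
    (F0 : Finset V) (h : Pd G R Δ N L T w0 W F F0) (t : ℕ) (ht : t ≤ T) (U : SimpleGraph V)
    (M : Finset V) (hU : Sm G R Δ N L T t W F F0 U M) (v : V) :
    |dl R Δ N t U v| ≤ 3 * (Δ / (N : ℝ) ^ 20) := by
  have hN := Npos2 h
  have hN0 : (0 : ℝ) < N := by linarith
  have hΔ1 : (N : ℝ) ^ 250 ≤ Δ := by exact_mod_cast h.xp.hΔ
  have hΔ : (0 : ℝ) < Δ := Δpos2 h
  have haa := aab2 G R Δ N L T w0 W F F0 h t ht v
  obtain ⟨d, hd⟩ : ∃ d : ℝ, d = |dl R Δ N t U v| := ⟨_, rfl⟩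
  obtain ⟨a, ha⟩ : ∃ a : ℝ, a = aa G W Δ N t v := ⟨_, rfl⟩
  rw [← ha] at haa
  rw [← hd]
  have htΔ : (t : ℝ) ≤ Δ := by
    have h1 : (t : ℝ) ≤ T := by exact_mod_cast ht
    have h2 := h.hT
    have h3 : 0 ≤ 3 * (Δ / (N : ℝ) ^ 8) := by positivity
    linarith
  -- the term of v
  have h1 : Real.cosh (dl R Δ N t U v / (N : ℝ) ^ 11) *
      Real.exp (- (aa G W Δ N t v / (N : ℝ) ^ 11)) ≤
      3 * (Fintype.card V * Real.exp (2 * Δ / (N : ℝ) ^ 31 + 2 * t / (N : ℝ) ^ 32)) := by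
    refine le_trans ?_ (tot2 G R Δ N L T w0 W F F0 h t ht U M hU).1
    exact Finset.single_le_sum (f := fun v => Real.cosh (dl R Δ N t U v / (N : ℝ) ^ 11) *
      Real.exp (- (aa G W Δ N t v / (N : ℝ) ^ 11)))
      (fun u _ => mul_nonneg (Real.cosh_pos _).le (Real.exp_pos _).le) (Finset.mem_univ v)
  have h2 : Real.exp (d / (N : ℝ) ^ 11) / 2 ≤ Real.cosh (dl R Δ N t U v / (N : ℝ) ^ 11) := by
    rw [← Real.cosh_abs, abs_div, abs_of_pos (show (0 : ℝ) < (N : ℝ) ^ 11 by positivity), ← hd,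
      Real.cosh_eq]
    have := (Real.exp_pos (-(d / (N : ℝ) ^ 11))).le
    linarith
  have h3 : Real.exp (d / (N : ℝ) ^ 11) / 2 * Real.exp (- (a / (N : ℝ) ^ 11)) ≤
      3 * (Real.exp L * Real.exp (2 * Δ / (N : ℝ) ^ 31 + 2 * t / (N : ℝ) ^ 32)) := by
    refine (mul_le_mul_of_nonneg_right h2 (Real.exp_pos _).le).trans ?_
    rw [ha]
    refine h1.trans (mul_le_mul_of_nonneg_left ?_ (by norm_num))
    exact mul_le_mul_of_nonneg_right h.xp.n2 (Real.exp_pos _).le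
  have h4 : (6 : ℝ) ≤ Real.exp 2 := by
    have h5 := Real.exp_one_gt_d9
    have h6 : Real.exp 2 = Real.exp 1 * Real.exp 1 := by
      rw [← Real.exp_add]
      norm_num
    rw [h6]
    nlinarith
  have h5 : Real.exp (d / (N : ℝ) ^ 11 + - (a / (N : ℝ) ^ 11)) ≤
      Real.exp (2 + (L + (2 * Δ / (N : ℝ) ^ 31 + 2 * t / (N : ℝ) ^ 32))) := by
    rw [Real.exp_add, Real.exp_add 2, Real.exp_add (L : ℝ)]
    have h6 : Real.exp (d / (N : ℝ) ^ 11) * Real.exp (- (a / (N : ℝ) ^ 11)) ≤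
        6 * (Real.exp L * Real.exp (2 * Δ / (N : ℝ) ^ 31 + 2 * t / (N : ℝ) ^ 32)) := by linarith
    refine h6.trans (mul_le_mul_of_nonneg_right h4 ?_)
    positivity
  have h6 := Real.exp_le_exp.1 h5
  have h7 : d ≤ a + (2 + L) * (N : ℝ) ^ 11 + 2 * (Δ / (N : ℝ) ^ 20) + 2 * (t / (N : ℝ) ^ 21) := by
    have h8 := mul_le_mul_of_nonneg_right h6 (show (0 : ℝ) ≤ (N : ℝ) ^ 11 by positivity)
    have e1 : (d / (N : ℝ) ^ 11 + - (a / (N : ℝ) ^ 11)) * (N : ℝ) ^ 11 = d - a := by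
      field_simp
      ring
    have e2 : (2 + (L + (2 * Δ / (N : ℝ) ^ 31 + 2 * t / (N : ℝ) ^ 32))) * (N : ℝ) ^ 11 =
        (2 + L) * (N : ℝ) ^ 11 + 2 * (Δ / (N : ℝ) ^ 20) + 2 * (t / (N : ℝ) ^ 21) := by
      field_simp
      ring
    rw [e1, e2] at h8
    linarith
  obtain ⟨y, hy⟩ : ∃ y : ℝ, y = Δ / (N : ℝ) ^ 21 := ⟨_, rfl⟩
  have hy0 : 0 < y := by rw [hy]; positivity
  have e3 : Δ / (N : ℝ) ^ 20 = N * y := by
    rw [hy]
    field_simp
  have h8 : t / (N : ℝ) ^ 21 ≤ y := by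
    rw [hy]
    exact div_le_div_of_nonneg_right htΔ (by positivity)
  have hL : (N : ℝ) ≤ L := by exact_mod_cast h.xp.hL
  have hL1 : (1000 : ℝ) ≤ L := hN.trans hL
  have h9 : (L : ℝ) * (N : ℝ) ^ 11 ≤ y := by
    have g1 : (N : ℝ) ^ 60 * (L : ℝ) ^ 3 ≤ Δ := by exact_mod_cast h.xp.hΔL
    rw [hy, le_div_iff₀ (by positivity)]
    have g2 : (N : ℝ) ^ 32 ≤ (N : ℝ) ^ 60 := pow_le_pow_right₀ (by linarith) (by norm_num)
    have g3 : (L : ℝ) ≤ (L : ℝ) ^ 3 := by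
      have := pow_le_pow_right₀ (show (1 : ℝ) ≤ L by linarith) (show 1 ≤ 3 by norm_num)
      rwa [pow_one] at this
    have g4 : (L : ℝ) * (N : ℝ) ^ 11 * (N : ℝ) ^ 21 = (N : ℝ) ^ 32 * L := by ring
    rw [g4]
    refine le_trans ?_ g1
    exact mul_le_mul g2 g3 (by positivity) (by positivity)
  have h10 : (2 + L) * (N : ℝ) ^ 11 ≤ 2 * (L * (N : ℝ) ^ 11) := by
    have : (0 : ℝ) ≤ (N : ℝ) ^ 11 := by positivity
    have e : (2 : ℝ) * (L * (N : ℝ) ^ 11) = (L + L) * (N : ℝ) ^ 11 := by ring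
    rw [e]
    exact mul_le_mul_of_nonneg_right (by linarith) this
  rw [e3] at h7 ⊢
  rw [← hy] at haa
  nlinarith

end Pool.Agent.H12.LT
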