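import Mathlib
import Pool.Agent.H12.LT.Defs
import Pool.Agent.H12.LT.Pb2
import Pool.Agent.H71.EX.Pr

/-!
PR2: at time `t ≤ T` every vertex has used at most `2 Δ / N ^ 10` edges of the reserve. `H12/LS/Pr2.lean` (proved) with the
parameter `L`.
-/

set_option autoImplicit false

namespace Pool.Agent.H12.LT

open Finset Classical
open Pool.Agent.H71.DN Pool.Agent.H71.EX

private lemma LTPr2_split {V : Type} [Fintype V] (U R : SimpleGraph V) (v : V) :
    dg U v = dg (U ⊓ R) v + dg (U \ R) v := by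
  unfold dg
  rw [← Finset.card_union_of_disjoint]
  · apply congrArg Finset.card
    ext u
    simp only [Finset.mem_filter, Finset.mem_univ, true_and, Finset.mem_union, SimpleGraph.inf_adj,
      SimpleGraph.sdiff_adj]
    tauto
  · rw [Finset.disjoint_left]
    intro u hu hu'
    simp only [Finset.mem_filter, Finset.mem_univ, true_and, SimpleGraph.inf_adj,
      SimpleGraph.sdiff_adj] at hu hu'
    exact hu'.2 hu.2

theorem pr2 {V : Type} [Fintype V] (G R : SimpleGraph V) (Δ N L T w0 : ℕ) (W F : ℕ → Finset V)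
    (F0 : Finset V) (h : Pd G R Δ N L T w0 W F F0) (t : ℕ) (ht : t ≤ T) (U : SimpleGraph V)
    (M : Finset V) (hU : Sm G R Δ N L T t W F F0 U M) (v : V) :
    (dg R v : ℝ) ≤ dg (U ⊓ R) v + 2 * (Δ / (N : ℝ) ^ 10) := by
  have hN : (1000 : ℝ) ≤ N := by exact_mod_cast h.xp.hN
  have hNpos : (0 : ℝ) < N := by linarith
  have hD0 : (0 : ℝ) ≤ (Δ : ℝ) := Nat.cast_nonneg _
  have hsp : (dg U v : ℝ) = dg (U ⊓ R) v + dg (U \ R) v := by
    exact_mod_cast LTPr2_split U R v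
  have hdeg0 : (dg U v : ℝ) + t = dg G v + ((range t).filter fun s => v ∈ W s).card +
      ((if v ∈ M then 1 else 0 : ℕ) : ℝ) := by
    exact_mod_cast hU.deg v
  have hm : (0 : ℝ) ≤ ((if v ∈ M then 1 else 0 : ℕ) : ℝ) := Nat.cast_nonneg _
  have hdeg : (dg G v : ℝ) + ((range t).filter fun s => v ∈ W s).card ≤ dg U v + t := by
    linarith
  have hwc : (0 : ℝ) ≤ ((range t).filter fun s => v ∈ W s).card := Nat.cast_nonneg _
  have hrd := (abs_le.mp (h.rd v)).2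
  have hlo := h.xp.lo v
  have hup : (dg G v : ℝ) ≤ Δ := by exact_mod_cast h.xp.up v
  have hdl := (abs_le.mp (pb2 G R Δ N L T w0 W F F0 h t ht U M hU v)).1
  unfold dl Db at hdl
  have hT := h.hT
  have htT : (t : ℝ) ≤ T := by exact_mod_cast ht
  have h8 : (0 : ℝ) ≤ Δ / (N : ℝ) ^ 8 := by positivity
  have htD : (t : ℝ) ≤ Δ := by linarith
  have hy0 : (0 : ℝ) ≤ 1 / (N : ℝ) ^ 8 := by positivity
  have hy1 : 1 / (N : ℝ) ^ 8 ≤ 1 := by
    rw [div_le_one (by positivity)]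
    exact one_le_pow₀ (by linarith)
  have ht10 : (t : ℝ) / (N : ℝ) ^ 10 ≤ Δ / (N : ℝ) ^ 10 :=
    div_le_div_of_nonneg_right htD (by positivity)
  have h20 : 5 * (Δ / (N : ℝ) ^ 20) ≤ Δ / (N : ℝ) ^ 10 := by
    have e1 : (Δ : ℝ) / (N : ℝ) ^ 20 = Δ / (N : ℝ) ^ 10 * (1 / (N : ℝ) ^ 10) := by
      field_simp
    have e2 : 1 / (N : ℝ) ^ 10 ≤ 1 / 5 := by
      apply one_div_le_one_div_of_le (by norm_num)
      calc (5 : ℝ) ≤ N := by linarith
        _ = (N : ℝ) ^ 1 := (pow_one _).symm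
        _ ≤ (N : ℝ) ^ 10 := pow_le_pow_right₀ (by linarith) (by norm_num)
    have e3 : (0 : ℝ) ≤ Δ / (N : ℝ) ^ 10 := by positivity
    rw [e1]
    nlinarith
  have hd1 : (0 : ℝ) ≤ (Δ : ℝ) - dg G v := by linarith
  have hd2 : (Δ : ℝ) - dg G v ≤ Δ / (N : ℝ) ^ 20 := by linarith
  have hprod : (1 - 1 / (N : ℝ) ^ 8) * ((Δ : ℝ) - dg G v) ≤ Δ / (N : ℝ) ^ 20 := by
    nlinarith
  have e8 : (dg G v : ℝ) / (N : ℝ) ^ 8 = 1 / (N : ℝ) ^ 8 * dg G v := by ring
  have e10 : (t : ℝ) / (N : ℝ) ^ 10 = 1 / (N : ℝ) ^ 10 * t := by ring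
  rw [e8] at hrd
  rw [e10] at ht10
  nlinarith

end Pool.Agent.H12.LT
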