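import Mathlib
import Pool.Agent.H12.LT.Defs
import Pool.Agent.H12.LT.Pr2
import Pool.Agent.H71.EX.Pq

/-!
PQA: the reserve restricted to the active vertices. `H12/LS/Pqa.lean` with the parameter `L` (no other change).
-/

set_option autoImplicit false

namespace Pool.Agent.H12.LT

open Finset Classical
open Pool.Agent.H71.DN Pool.Agent.H71.EX

private theorem Pqa_ee_sum {V : Type} [Fintype V] (G : SimpleGraph V) (P Q : Finset V) :
    ee G P Q = ∑ a ∈ P, (Q.filter fun u => G.Adj a u).card := by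
  unfold ee
  rw [Finset.card_filter, Finset.sum_product]
  refine Finset.sum_congr rfl fun a _ => ?_
  rw [Finset.card_filter]

private theorem Pqa_dg_mono {V : Type} [Fintype V] (H R : SimpleGraph V) (h : H ≤ R) (v : V) :
    dg H v ≤ dg R v := by
  unfold dg
  refine Finset.card_le_card fun u hu => ?_
  rw [Finset.mem_filter] at hu ⊢
  exact ⟨hu.1, h hu.2⟩

private theorem Pqa_dg_le {V A : Type} [Fintype V] [Fintype A] (H : SimpleGraph V) (f : A → V)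
    (hf : Function.Injective f) (a : A) : dg (H.comap f) a ≤ dg H (f a) := by
  unfold dg
  rw [← Finset.card_map ⟨f, hf⟩]
  refine Finset.card_le_card fun v hv => ?_
  rw [Finset.mem_map] at hv
  obtain ⟨b, hb, rfl⟩ := hv
  rw [Finset.mem_filter] at hb ⊢
  exact ⟨Finset.mem_univ _, hb.2⟩

private theorem Pqa_le_dg {V A : Type} [Fintype V] [Fintype A] (G H : SimpleGraph V) (hHG : H ≤ G)
    (f : A → V) (X : Finset V) (hX : ∀ v, v ∉ X → ∃ a, f a = v) (a : A) :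
    dg H (f a) ≤ dg (H.comap f) a + dn G (f a) X := by
  unfold dg dn
  have h1 : (univ.filter fun u => H.Adj (f a) u) ⊆
      (univ.filter fun b => (H.comap f).Adj a b).image f ∪ (X.filter fun u => G.Adj (f a) u) := by
    intro v hv
    rw [Finset.mem_filter] at hv
    rw [Finset.mem_union, Finset.mem_image, Finset.mem_filter]
    by_cases hvX : v ∈ X
    · exact Or.inr ⟨hvX, hHG hv.2⟩
    · obtain ⟨b, rfl⟩ := hX v hvX
      refine Or.inl ⟨b, ?_, rfl⟩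
      rw [Finset.mem_filter]
      exact ⟨Finset.mem_univ _, hv.2⟩
  exact (Finset.card_le_card h1).trans ((Finset.card_union_le _ _).trans
    (Nat.add_le_add Finset.card_image_le le_rfl))

private theorem Pqa_ee_le {V A : Type} [Fintype V] [Fintype A] (H R : SimpleGraph V) (hHR : H ≤ R)
    (f : A → V) (hf : Function.Injective f) (P Q : Finset A) :
    ee (H.comap f) P Q ≤ ee R (P.map ⟨f, hf⟩) (Q.map ⟨f, hf⟩) := by
  rw [Pqa_ee_sum, Pqa_ee_sum, Finset.sum_map]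
  refine Finset.sum_le_sum fun a _ => ?_
  rw [← Finset.card_map ⟨f, hf⟩]
  refine Finset.card_le_card fun v hv => ?_
  rw [Finset.mem_map] at hv
  obtain ⟨b, hb, rfl⟩ := hv
  rw [Finset.mem_filter] at hb
  rw [Finset.mem_filter]
  exact ⟨Finset.mem_map_of_mem _ hb.1, hHR hb.2⟩

/-- the real parameters -/
private theorem Pqa_par {V : Type} [Fintype V] (G R : SimpleGraph V) (Δ N L T w0 : ℕ)
    (W F : ℕ → Finset V) (F0 : Finset V) (h : Pd G R Δ N L T w0 W F F0) :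
    ∃ u : ℝ, 0 < u ∧ (1000 : ℝ) ≤ N ∧ (Δ : ℝ) = (N : ℝ) ^ 20 * u ∧ (N : ℝ) ^ 40 ≤ u ∧
      (Δ : ℝ) / (N : ℝ) ^ 20 = u ∧ (Δ : ℝ) / (N : ℝ) ^ 8 = (N : ℝ) ^ 12 * u ∧
      (Δ : ℝ) / (N : ℝ) ^ 9 = (N : ℝ) ^ 11 * u ∧ (Δ : ℝ) / (N : ℝ) ^ 10 = (N : ℝ) ^ 10 * u ∧
      (Δ : ℝ) / (N : ℝ) = (N : ℝ) ^ 19 * u := by
  have hN : (1000 : ℝ) ≤ N := by exact_mod_cast h.xp.hN
  have hN0 : (0 : ℝ) < N := by linarith
  have hΔ0 : (N : ℝ) ^ 250 ≤ Δ := by exact_mod_cast h.xp.hΔ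
  have hΔ : (N : ℝ) ^ 60 ≤ Δ :=
    (pow_le_pow_right₀ (by linarith) (by norm_num)).trans hΔ0
  have hN20 : (0 : ℝ) < (N : ℝ) ^ 20 := by positivity
  have h1 : (N : ℝ) ^ 40 ≤ (Δ : ℝ) / (N : ℝ) ^ 20 := by
    rw [le_div_iff₀ hN20, ← pow_add]
    exact hΔ
  have h2 : (Δ : ℝ) = (N : ℝ) ^ 20 * ((Δ : ℝ) / (N : ℝ) ^ 20) := by
    field_simp
  refine ⟨(Δ : ℝ) / (N : ℝ) ^ 20, lt_of_lt_of_le (by positivity) h1, hN, h2, h1, rfl, ?_, ?_, ?_,
    ?_⟩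
  all_goals field_simp

/-- degree bounds -/
private theorem Pqa_deg {V : Type} [Fintype V] (G R : SimpleGraph V) (Δ N L T w0 : ℕ)
    (W F : ℕ → Finset V) (F0 : Finset V) (h : Pd G R Δ N L T w0 W F F0) (t : ℕ) (ht : t < T) (U : SimpleGraph V)
    (M : Finset V) (hU : Sm G R Δ N L T t W F F0 U M) (a : {v // v ∉ W t}) :
    dg ((U ⊓ R).comap (Subtype.val : {v // v ∉ W t} → V)) a ≤ dg R a.1 ∧
    (dg R a.1 : ℝ) ≤ dg ((U ⊓ R).comap (Subtype.val : {v // v ∉ W t} → V)) a +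
      2 * (Δ / (N : ℝ) ^ 10) + Δ / (N : ℝ) ^ 20 := by
  constructor
  · exact (Pqa_dg_le (U ⊓ R) Subtype.val Subtype.val_injective a).trans
      (Pqa_dg_mono _ _ inf_le_right _)
  · have h1 := pr2 G R Δ N L T w0 W F F0 h t ht.le U M hU a.1
    have h2 := Pqa_le_dg G (U ⊓ R) (inf_le_right.trans h.le) (Subtype.val : {v // v ∉ W t} → V)
      (W t) (fun v hv => ⟨⟨v, hv⟩, rfl⟩) a
    have h3 : (dg (U ⊓ R) a.1 : ℝ) ≤
        dg ((U ⊓ R).comap (Subtype.val : {v // v ∉ W t} → V)) a + dn G a.1 (W t) := by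
      exact_mod_cast h2
    have h4 := h.wd t ht a.1
    linarith

private theorem Pqa_lo {V : Type} [Fintype V] (G R : SimpleGraph V) (Δ N L T w0 : ℕ)
    (W F : ℕ → Finset V) (F0 : Finset V) (h : Pd G R Δ N L T w0 W F F0) (v : V) (u : ℝ) (hu : 0 < u)
    (hN : (1000 : ℝ) ≤ N) (hΔ : (Δ : ℝ) = (N : ℝ) ^ 20 * u) :
    (N : ℝ) ^ 12 * u - 2 * u ≤ dg R v ∧ (dg R v : ℝ) ≤ (N : ℝ) ^ 12 * u + u := by
  have hN0 : (0 : ℝ) < N := by linarith
  have hN8 : (0 : ℝ) < (N : ℝ) ^ 8 := by positivity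
  have e20 : (Δ : ℝ) / (N : ℝ) ^ 20 = u := by rw [hΔ]; field_simp
  have h1 := h.rd v
  rw [e20, abs_le] at h1
  have h2 : (dg G v : ℝ) / (N : ℝ) ^ 8 ≤ (N : ℝ) ^ 12 * u := by
    rw [div_le_iff₀ hN8]
    have h3 : (dg G v : ℝ) ≤ Δ := by exact_mod_cast h.xp.up v
    rw [hΔ] at h3
    have e : (N : ℝ) ^ 12 * u * (N : ℝ) ^ 8 = (N : ℝ) ^ 20 * u := by ring
    rw [e]
    exact h3
  have h3 : (N : ℝ) ^ 12 * u - u ≤ (dg G v : ℝ) / (N : ℝ) ^ 8 := by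
    rw [le_div_iff₀ hN8]
    have h4 := h.xp.lo v
    rw [e20, hΔ] at h4
    have h5 : u ≤ u * (N : ℝ) ^ 8 := by
      refine le_mul_of_one_le_right hu.le ?_
      exact one_le_pow₀ (by linarith)
    have e : ((N : ℝ) ^ 12 * u - u) * (N : ℝ) ^ 8 = (N : ℝ) ^ 20 * u - u * (N : ℝ) ^ 8 := by ring
    rw [e]
    linarith
  constructor <;> linarith [h1.1, h1.2]

theorem pqa1 {V : Type} [Fintype V] (G R : SimpleGraph V) (Δ N L T w0 : ℕ) (W F : ℕ → Finset V)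
    (F0 : Finset V) (h : Pd G R Δ N L T w0 W F F0) (t : ℕ) (ht : t < T) (U : SimpleGraph V)
    (M : Finset V) (hU : Sm G R Δ N L T t W F F0 U M) (a : {v // v ∉ W t}) :
    |1 / (N : ℝ) ^ 10 - 1 / ((N : ℝ) ^ 2 * Δ) *
      dg ((U ⊓ R).comap (Subtype.val : {v // v ∉ W t} → V)) a| ≤ 3 / (N : ℝ) ^ 12 := by
  obtain ⟨u, hu, hN, hΔ, -, e20, e8, e9, e10, -⟩ := Pqa_par G R Δ N L T w0 W F F0 h
  obtain ⟨d1, d2⟩ := Pqa_deg G R Δ N L T w0 W F F0 h t ht U M hU a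
  obtain ⟨l1, l2⟩ := Pqa_lo G R Δ N L T w0 W F F0 h a.1 u hu hN hΔ
  rw [e10, e20] at d2
  have d1' : (dg ((U ⊓ R).comap (Subtype.val : {v // v ∉ W t} → V)) a : ℝ) ≤ dg R a.1 := by
    exact_mod_cast d1
  generalize (dg ((U ⊓ R).comap (Subtype.val : {v // v ∉ W t} → V)) a : ℝ) = d at *
  have hN0 : (0 : ℝ) < N := by linarith
  have hΔ0 : (0 : ℝ) < Δ := by rw [hΔ]; positivity
  have h10 : (3 : ℝ) ≤ (N : ℝ) ^ 10 := by
    calc (3 : ℝ) ≤ N := by linarith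
      _ = (N : ℝ) ^ 1 := (pow_one _).symm
      _ ≤ (N : ℝ) ^ 10 := pow_le_pow_right₀ (by linarith) (by norm_num)
  have h3 : 3 * u ≤ (N : ℝ) ^ 10 * u := mul_le_mul_of_nonneg_right h10 hu.le
  have key : |(N : ℝ) ^ 12 * u - d| ≤ 3 * ((N : ℝ) ^ 10 * u) := by
    rw [abs_le]
    constructor <;> linarith
  have e1 : 1 / (N : ℝ) ^ 10 - 1 / ((N : ℝ) ^ 2 * Δ) * d =
      ((N : ℝ) ^ 12 * u - d) / ((N : ℝ) ^ 2 * Δ) := by
    rw [hΔ]
    field_simp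
  have e2 : 3 / (N : ℝ) ^ 12 = 3 * ((N : ℝ) ^ 10 * u) / ((N : ℝ) ^ 2 * Δ) := by
    rw [hΔ]
    field_simp
  have hpos : (0 : ℝ) < (N : ℝ) ^ 2 * Δ := by positivity
  rw [e1, e2, abs_div, abs_of_pos hpos]
  exact div_le_div_of_nonneg_right key hpos.le

theorem pqa2 {V : Type} [Fintype V] (G R : SimpleGraph V) (Δ N L T w0 : ℕ) (W F : ℕ → Finset V)
    (F0 : Finset V) (h : Pd G R Δ N L T w0 W F F0) (t : ℕ) (ht : t < T) (U : SimpleGraph V)
    (M : Finset V) (hU : Sm G R Δ N L T t W F F0 U M) :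
    Lc ((U ⊓ R).comap (Subtype.val : {v // v ∉ W t} → V)) (Δ / (N : ℝ) ^ 9 / 2) := by
  obtain ⟨u, hu, hN, hΔ, -, e20, e8, e9, e10, e1⟩ := Pqa_par G R Δ N L T w0 W F F0 h
  have hN0 : (0 : ℝ) < N := by linarith
  have hN8 : (0 : ℝ) < (N : ℝ) ^ 8 := by positivity
  intro P Q hPQ
  rw [e9]
  have hd : ∀ a : {v // v ∉ W t}, (N : ℝ) ^ 12 * u - 2 * ((N : ℝ) ^ 10 * u) - 3 * u ≤
      dg ((U ⊓ R).comap (Subtype.val : {v // v ∉ W t} → V)) a := by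
    intro a
    obtain ⟨-, d2⟩ := Pqa_deg G R Δ N L T w0 W F F0 h t ht U M hU a
    obtain ⟨l1, l2⟩ := Pqa_lo G R Δ N L T w0 W F F0 h a.1 u hu hN hΔ
    rw [e10, e20] at d2
    linarith
  refine le_trans ?_ (Finset.card_nsmul_le_sum _ _ _ (fun a _ => hd a))
  rw [@Finset.card_union_of_disjoint _ P Q (fun a b => Classical.propDecidable (a = b)) hPQ,
    nsmul_eq_mul, Nat.cast_add]
  have h1 := Pqa_ee_le (U ⊓ R) R inf_le_right (Subtype.val : {v // v ∉ W t} → V)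
    Subtype.val_injective P Q
  have hdis : Disjoint (P.map ⟨(Subtype.val : {v // v ∉ W t} → V), Subtype.val_injective⟩)
      (Q.map ⟨(Subtype.val : {v // v ∉ W t} → V), Subtype.val_injective⟩) :=
    (Finset.disjoint_map _).2 hPQ
  have h2 := h.rb _ _ hdis
  have h3 := h.xp.nb _ _ hdis
  rw [Finset.card_map, Finset.card_map] at h2 h3
  rw [e20] at h2
  rw [e1] at h3
  have h1' : (ee ((U ⊓ R).comap (Subtype.val : {v // v ∉ W t} → V)) P Q : ℝ) ≤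
      ee R (P.map ⟨(Subtype.val : {v // v ∉ W t} → V), Subtype.val_injective⟩)
      (Q.map ⟨(Subtype.val : {v // v ∉ W t} → V), Subtype.val_injective⟩) := by
    exact_mod_cast h1
  generalize (ee ((U ⊓ R).comap (Subtype.val : {v // v ∉ W t} → V)) P Q : ℝ) = x at *
  generalize (ee R (P.map ⟨(Subtype.val : {v // v ∉ W t} → V), Subtype.val_injective⟩)
      (Q.map ⟨(Subtype.val : {v // v ∉ W t} → V), Subtype.val_injective⟩) : ℝ) = y at *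
  generalize (ee G (P.map ⟨(Subtype.val : {v // v ∉ W t} → V), Subtype.val_injective⟩)
      (Q.map ⟨(Subtype.val : {v // v ∉ W t} → V), Subtype.val_injective⟩) : ℝ) = z at *
  have hc0 : (0 : ℝ) ≤ (P.card : ℝ) + Q.card :=
    add_nonneg (Nat.cast_nonneg _) (Nat.cast_nonneg _)
  generalize (P.card : ℝ) + (Q.card : ℝ) = c at *
  have h4 : 2 * (z / (N : ℝ) ^ 8) ≤ ((N : ℝ) ^ 12 * u - (N : ℝ) ^ 11 * u) * c := by
    rw [← mul_div_assoc, div_le_iff₀ hN8]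
    have e3 : ((N : ℝ) ^ 12 * u - (N : ℝ) ^ 11 * u) * c * (N : ℝ) ^ 8 =
        (N : ℝ) ^ 20 * u * c - (N : ℝ) ^ 19 * u * c := by ring
    rw [e3, ← hΔ]
    linarith
  have h10 : (1 : ℝ) ≤ (N : ℝ) ^ 10 := one_le_pow₀ (by linarith)
  have h5 : u ≤ (N : ℝ) ^ 10 * u := le_mul_of_one_le_left hu.le h10
  have h6 : 1000 * ((N : ℝ) ^ 10 * u) ≤ (N : ℝ) ^ 11 * u := by
    have e3 : (N : ℝ) ^ 11 * u = N * ((N : ℝ) ^ 10 * u) := by ring
    rw [e3]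
    exact mul_le_mul_of_nonneg_right hN (by positivity)
  have h7 : 0 ≤ c * ((N : ℝ) ^ 11 * u / 2 - 2 * ((N : ℝ) ^ 10 * u) - 5 * u) :=
    mul_nonneg hc0 (by linarith)
  linarith

end Pool.Agent.H12.LT
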