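import Mathlib
import Pool.Agent.H12.LT.Defs
import Pool.Agent.H12.LT.Pb2

/-!
PC2: in step `t` every vertex outside `F0` has at least `sg / 16` unused reserve edges to vertices of `F t` that have not been missed
(`sg = sg Δ N L = Δ / (N ^ 42 L)`). Compare `H12/LS/Pc2.lean` (proved; copy and adapt).

Proof.  Let `n = #V`, `v ∉ F0`, `k = dn R v (F t)`, `a = usd R F U v t`, `m = dn R v (F t ∩ M)`,
`l = dn (U ⊓ R) v (F t \ M)`: `k ≤ a + m + l` and `sg / 8 ≤ k` (`fl`). By `tot2`: `exp a ≤ P2 ≤ 3 n Δ B2 N L t` and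
`exp (m / ov - 2 / ov * e0 * c) ≤ P3 ≤ 3 n Δ`, `c = ∑ r ∈ range t, dn R v (F r ∩ F t)`, `ov = ov Δ N L = 4 Δ / (N ^ 45 L ^ 2)`.
`3 n Δ ≤ 6 n ^ 2 ≤ exp (2 L + 2)`; `B2 ≤ exp (12 Δ / (N ^ 44 L)) = exp (12 sg / N ^ 2)` as `t ≤ T ≤ Δ`. So
`a ≤ 2 L + 2 + 12 sg / N ^ 2`. By double counting `c ≤ 4 sg * 4 Δ / (N ^ 3 L)` (`fu`, `fm`), so `e0 * c ≤ 16 sg / N ^ 2` (`e0 = N L / Δ`), and
`m ≤ ov (2 L + 2) + 32 sg / N ^ 2`, `ov (2 L + 2) ≤ 4 L ov = 16 sg / N ^ 3`. Finally `2 L + 2 ≤ 3 L ≤ sg / N` (`N ^ 60 L ^ 3 ≤ Δ`). So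
`l ≥ sg / 8 - sg / N - 12 sg / N ^ 2 - 16 sg / N ^ 3 - 32 sg / N ^ 2 ≥ sg / 16` (`N ≥ 1000`).
-/

set_option autoImplicit false

namespace Pool.Agent.H12.LT

open Finset Classical
open Pool.Agent.H71.DN Pool.Agent.H71.EX

private theorem pc2_cnt {V : Type} [Fintype V] (R : SimpleGraph V) (F : ℕ → Finset V) (t : ℕ)
    (v : V) (K : ℝ) (h1 : ∀ u : V, (((range t).filter fun r => u ∈ F r).card : ℝ) ≤ K) :
    ∑ r ∈ range t, (dn R v (F r ∩ F t) : ℝ) ≤ dn R v (F t) * K := by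
  have e1 : ∀ r ∈ range t, (dn R v (F r ∩ F t) : ℝ) =
      ∑ u ∈ (F t).filter (fun u => R.Adj v u), (if u ∈ F r then (1 : ℝ) else 0) := by
    intro r _
    rw [Finset.sum_boole]
    unfold dn
    congr 2
    ext u
    simp only [Finset.mem_filter, Finset.mem_inter]
    tauto
  rw [Finset.sum_congr rfl e1, Finset.sum_comm]
  have e2 : ∀ u ∈ (F t).filter (fun u => R.Adj v u),
      ∑ r ∈ range t, (if u ∈ F r then (1 : ℝ) else 0) ≤ K := by
    intro u _
    rw [Finset.sum_boole]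
    exact h1 u
  calc ∑ u ∈ (F t).filter (fun u => R.Adj v u), ∑ r ∈ range t, (if u ∈ F r then (1 : ℝ) else 0)
      ≤ ∑ u ∈ (F t).filter (fun u => R.Adj v u), K := Finset.sum_le_sum e2
    _ = dn R v (F t) * K := by
        rw [Finset.sum_const, nsmul_eq_mul]
        rfl

private theorem pc2_split {V : Type} [Fintype V] (R U : SimpleGraph V) (F : ℕ → Finset V) (t : ℕ)
    (v : V) (M : Finset V) :
    dn R v (F t) ≤ usd R F U v t + dn R v (F t ∩ M) + dn (U ⊓ R) v (F t \ M) := by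
  unfold dn usd
  refine (Finset.card_le_card ?_).trans
    ((Finset.card_union_le _ _).trans (Nat.add_le_add_right (Finset.card_union_le _ _) _))
  intro u hu
  simp only [Finset.mem_filter, Finset.mem_union, Finset.mem_inter, Finset.mem_sdiff,
    SimpleGraph.inf_adj] at hu ⊢
  obtain ⟨h1, h2⟩ := hu
  by_cases h3 : U.Adj v u
  · by_cases h4 : u ∈ M
    · exact Or.inl (Or.inr ⟨⟨h1, h4⟩, h2⟩)
    · exact Or.inr ⟨⟨h1, h4⟩, h3, h2⟩
  · exact Or.inl (Or.inl ⟨h1, h2, h3⟩)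

private theorem pc2_fin (N X a m l : ℝ) (hN : 1000 ≤ N) (hX : 0 ≤ X) (h1 : X / 8 ≤ a + m + l)
    (h2 : a ≤ 12 * (X / N ^ 2) + X / N) (h3 : m ≤ 16 * (X / N ^ 3) + 32 * (X / N ^ 2)) :
    X / 16 ≤ l := by
  have hN1 : (1 : ℝ) ≤ N := by linarith
  have e1 : X / N ≤ X / 1000 := div_le_div_of_nonneg_left hX (by norm_num) hN
  have e2 : X / N ^ 2 ≤ X / 1000 :=
    div_le_div_of_nonneg_left hX (by norm_num) (hN.trans (le_self_pow₀ hN1 (by norm_num)))
  have e3 : X / N ^ 3 ≤ X / 1000 :=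
    div_le_div_of_nonneg_left hX (by norm_num) (hN.trans (le_self_pow₀ hN1 (by norm_num)))
  linarith

theorem pc2 {V : Type} [Fintype V] (G R : SimpleGraph V) (Δ N L T w0 : ℕ) (W F : ℕ → Finset V)
    (F0 : Finset V) (h : Pd G R Δ N L T w0 W F F0) (t : ℕ) (ht : t < T) (U : SimpleGraph V)
    (M : Finset V) (hU : Sm G R Δ N L T t W F F0 U M) (v : V) (hv : v ∉ F0) :
    sg Δ N L / 16 ≤ dn (U ⊓ R) v (F t \ M) := by
  have hN : (1000 : ℝ) ≤ N := by exact_mod_cast h.xp.hN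
  have hN0 : (0 : ℝ) < N := by linarith
  have hN1 : (1 : ℝ) ≤ N := by linarith
  have hL : (N : ℝ) ≤ L := by exact_mod_cast h.xp.hL
  have hL0 : (0 : ℝ) < L := by linarith
  have hΔN : (0 : ℝ) < Δ := by
    have h0 : 0 < Δ := lt_of_lt_of_le (pow_pos (by have := h.xp.hN; omega) 250) h.xp.hΔ
    exact_mod_cast h0
  have hΔL : (N : ℝ) ^ 60 * (L : ℝ) ^ 3 ≤ Δ := by exact_mod_cast h.xp.hΔL
  have hn2 := h.xp.n2
  have hnn : (0 : ℝ) ≤ Fintype.card V := Nat.cast_nonneg _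
  -- Δ ≤ 2 n
  have hΔn : (Δ : ℝ) ≤ 2 * Fintype.card V := by
    have h1 := h.xp.lo v
    have h2 : (dg G v : ℝ) ≤ Fintype.card V := by
      have : dg G v ≤ Fintype.card V := by
        unfold dg
        exact (Finset.card_filter_le _ _).trans (le_of_eq Finset.card_univ)
      exact_mod_cast this
    have h3 : (Δ : ℝ) / (N : ℝ) ^ 20 ≤ Δ / 2 := by
      apply div_le_div_of_nonneg_left hΔN.le (by norm_num)
      calc (2 : ℝ) ≤ N := by linarith
        _ ≤ (N : ℝ) ^ 20 := le_self_pow₀ hN1 (by norm_num)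
    linarith
  -- 3 n Δ ≤ exp (2 L + 2)
  have h3n : 3 * ((Fintype.card V : ℝ) * Δ) ≤ Real.exp (2 * L + 2) := by
    have h6 : (6 : ℝ) ≤ Real.exp 2 := by
      have h1 := Real.add_one_le_exp (1 : ℝ)
      have h2 := Real.exp_one_gt_d9
      have : Real.exp 2 = Real.exp 1 * Real.exp 1 := by rw [← Real.exp_add]; norm_num
      rw [this]
      nlinarith
    have hE : 0 < Real.exp (L : ℝ) := Real.exp_pos _
    calc 3 * ((Fintype.card V : ℝ) * Δ) ≤ 3 * ((Fintype.card V : ℝ) * (2 * Fintype.card V)) := by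
          gcongr
      _ = 6 * ((Fintype.card V : ℝ) * Fintype.card V) := by ring
      _ ≤ Real.exp 2 * (Real.exp L * Real.exp L) := by
          apply mul_le_mul h6 _ (by positivity) (by positivity)
          exact mul_le_mul hn2 hn2 hnn hE.le
      _ = Real.exp (2 * L + 2) := by
          rw [← Real.exp_add, ← Real.exp_add]
          congr 1
          ring
  obtain ⟨_, hP2, hP3⟩ := tot2 G R Δ N L T w0 W F F0 h t ht.le U M hU
  have hsg0 : 0 < sg Δ N L := by
    unfold sg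
    positivity
  have hov0 : 0 < ov Δ N L := by
    unfold ov
    positivity
  -- 2 L + 2 ≤ sg / N
  have h2L : 2 * (L : ℝ) + 2 ≤ sg Δ N L / N := by
    unfold sg
    rw [div_div, le_div_iff₀ (by positivity)]
    have e1 : (2 * (L : ℝ) + 2) ≤ L ^ 2 := by nlinarith
    calc (2 * (L : ℝ) + 2) * ((N : ℝ) ^ 42 * L * N) ≤ L ^ 2 * ((N : ℝ) ^ 42 * L * N) :=
          mul_le_mul_of_nonneg_right e1 (by positivity)
      _ = (N : ℝ) ^ 43 * (L : ℝ) ^ 3 := by ring
      _ ≤ (N : ℝ) ^ 60 * (L : ℝ) ^ 3 :=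
          mul_le_mul_of_nonneg_right (pow_le_pow_right₀ hN1 (by norm_num)) (by positivity)
      _ ≤ Δ := hΔL
  -- bound of a
  have ha : (usd R F U v t : ℝ) ≤ 12 * (sg Δ N L / (N : ℝ) ^ 2) + sg Δ N L / N := by
    have h1 : Real.exp (usd R F U v t) ≤ P2 R T F U := by
      unfold P2
      have h2 : Real.exp (usd R F U v t) ≤ ∑ s ∈ range T, Real.exp (usd R F U v s) :=
        Finset.single_le_sum (f := fun s => Real.exp (usd R F U v s))
          (fun s _ => (Real.exp_pos _).le) (Finset.mem_range.2 ht)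
      refine h2.trans ?_
      exact Finset.single_le_sum (f := fun w => ∑ s ∈ range T, Real.exp (usd R F U w s))
        (fun w _ => Finset.sum_nonneg fun s _ => (Real.exp_pos _).le) (Finset.mem_univ v)
    have hB : B2 N L t ≤ Real.exp (12 * (sg Δ N L / (N : ℝ) ^ 2)) := by
      unfold B2
      apply Real.exp_le_exp.2
      have h2 : (t : ℝ) ≤ Δ := by
        have h3 : (t : ℝ) ≤ T := by exact_mod_cast ht.le
        have h4 := h.hT
        have h5 : (0 : ℝ) ≤ 3 * (Δ / (N : ℝ) ^ 8) := by positivity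
        linarith
      have e2 : 12 * (sg Δ N L / (N : ℝ) ^ 2) = 12 * Δ / ((N : ℝ) ^ 44 * L) := by
        unfold sg
        field_simp
      rw [e2]
      gcongr
    have hB0 : 0 < B2 N L t := Real.exp_pos _
    have h4 : Real.exp (usd R F U v t) ≤
        Real.exp (2 * L + 2 + 12 * (sg Δ N L / (N : ℝ) ^ 2)) := by
      calc Real.exp (usd R F U v t) ≤ 3 * (Fintype.card V * Δ * B2 N L t) := h1.trans hP2
        _ = (3 * ((Fintype.card V : ℝ) * Δ)) * B2 N L t := by ring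
        _ ≤ Real.exp (2 * L + 2) * Real.exp (12 * (sg Δ N L / (N : ℝ) ^ 2)) :=
            mul_le_mul h3n hB hB0.le (Real.exp_pos _).le
        _ = Real.exp (2 * L + 2 + 12 * (sg Δ N L / (N : ℝ) ^ 2)) := by
            rw [← Real.exp_add]
    have h5 := Real.exp_le_exp.1 h4
    linarith
  -- bound of m
  have hm : (dn R v (F t ∩ M) : ℝ) ≤ 16 * (sg Δ N L / (N : ℝ) ^ 3) +
      32 * (sg Δ N L / (N : ℝ) ^ 2) := by
    have hc : ∑ r ∈ range t, (dn R v (F r ∩ F t) : ℝ) ≤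
        4 * sg Δ N L * (4 * (Δ / ((N : ℝ) ^ 3 * L))) := by
      have h1 : ∀ u : V, (((range t).filter fun r => u ∈ F r).card : ℝ) ≤
          4 * (Δ / ((N : ℝ) ^ 3 * L)) := by
        intro u
        refine le_trans ?_ (h.fm u)
        have : ((range t).filter fun r => u ∈ F r).card ≤ ((range T).filter fun r => u ∈ F r).card := by
          apply Finset.card_le_card
          apply Finset.filter_subset_filter
          exact Finset.range_mono ht.le
        exact_mod_cast this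
      refine (pc2_cnt R F t v _ h1).trans ?_
      have h2 := h.fu t ht v
      exact mul_le_mul_of_nonneg_right h2 (by positivity)
    have hd : 2 / ov Δ N L * e0 Δ N L * ∑ r ∈ range t, (dn R v (F r ∩ F t) : ℝ) ≤
        1 / ov Δ N L * (32 * (sg Δ N L / (N : ℝ) ^ 2)) := by
      have he0 : 0 ≤ 2 / ov Δ N L * e0 Δ N L := by
        unfold e0
        positivity
      refine (mul_le_mul_of_nonneg_left hc he0).trans (le_of_eq ?_)
      unfold e0 sg
      field_simp
      ring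
    have h1 : Real.exp (1 / ov Δ N L * dn R v (F t ∩ M) -
        2 / ov Δ N L * e0 Δ N L * ∑ r ∈ range t, (dn R v (F r ∩ F t) : ℝ)) ≤
        P3 R Δ N L T t F M := by
      unfold P3
      have h2 : Real.exp (1 / ov Δ N L * dn R v (F t ∩ M) -
          2 / ov Δ N L * e0 Δ N L * ∑ r ∈ range t, (dn R v (F r ∩ F t) : ℝ)) ≤
          ∑ s ∈ (range T).filter fun s => t ≤ s,
            Real.exp (1 / ov Δ N L * dn R v (F s ∩ M) -
              2 / ov Δ N L * e0 Δ N L * ∑ r ∈ range t, (dn R v (F r ∩ F s) : ℝ)) :=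
        Finset.single_le_sum (f := fun s => Real.exp (1 / ov Δ N L * dn R v (F s ∩ M) -
              2 / ov Δ N L * e0 Δ N L * ∑ r ∈ range t, (dn R v (F r ∩ F s) : ℝ)))
          (fun s _ => (Real.exp_pos _).le)
          (Finset.mem_filter.2 ⟨Finset.mem_range.2 ht, le_rfl⟩)
      refine h2.trans ?_
      exact Finset.single_le_sum (f := fun w => ∑ s ∈ (range T).filter fun s => t ≤ s,
            Real.exp (1 / ov Δ N L * dn R w (F s ∩ M) -
              2 / ov Δ N L * e0 Δ N L * ∑ r ∈ range t, (dn R w (F r ∩ F s) : ℝ)))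
        (fun w _ => Finset.sum_nonneg fun s _ => (Real.exp_pos _).le) (Finset.mem_univ v)
    have h4 := Real.exp_le_exp.1 ((h1.trans hP3).trans h3n)
    have h5 : 1 / ov Δ N L * dn R v (F t ∩ M) ≤
        1 / ov Δ N L * (32 * (sg Δ N L / (N : ℝ) ^ 2)) + 4 * L := by
      have : (2 : ℝ) ≤ 2 * L := by linarith
      linarith
    have h6 := mul_le_mul_of_nonneg_left h5 hov0.le
    have e3 : ov Δ N L * (1 / ov Δ N L * (dn R v (F t ∩ M) : ℝ)) = dn R v (F t ∩ M) := by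
      field_simp
    have e4 : ov Δ N L * (1 / ov Δ N L * (32 * (sg Δ N L / (N : ℝ) ^ 2)) + 4 * L) =
        32 * (sg Δ N L / (N : ℝ) ^ 2) + ov Δ N L * (4 * L) := by
      field_simp
    have e5 : ov Δ N L * (4 * L) = 16 * (sg Δ N L / (N : ℝ) ^ 3) := by
      unfold ov sg
      field_simp
      ring
    rw [e3, e4, e5] at h6
    linarith
  have hk := h.fl t ht v hv
  have hsp : (dn R v (F t) : ℝ) ≤ usd R F U v t + dn R v (F t ∩ M) + dn (U ⊓ R) v (F t \ M) := by
    exact_mod_cast pc2_split R U F t v M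
  exact pc2_fin (N : ℝ) (sg Δ N L) (usd R F U v t) (dn R v (F t ∩ M)) (dn (U ⊓ R) v (F t \ M)) hN
    hsg0.le (hk.trans hsp) ha hm

end Pool.Agent.H12.LT
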