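import Mathlib
import Pool.Agent.H12.LT.Defs
import Pool.Agent.H12.LT.Pc2
import Pool.Agent.H12.LT.Pqa
import Pool.Agent.H71.EX.Pq

/-!
PQC: large sets of active vertices have many reserve edges to the other active vertices, or contain many vertices of
`F t \ M`. Compare `H12/LS/Pqc.lean` (copy and adapt).

Proof.  `A = {v // v ∉ W t}`, `H = (U ⊓ R).comap val` (a graph on `A`), `Fu = F t \ M`; by `fW` all its vertices are active.
Suppose the claim fails. Then `#{a ∈ S : a ∈ Fu} * e0 < 1`, so `#{a ∈ S : a ∈ Fu} < Δ / (N L)`, and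
`ee H S (univ \ S) < 2 N ^ 2 Δ`. Let `S1 = {a ∈ S : a ∉ F0}`, `S2 = {a ∈ S : a ∈ F0}`.
(1) By `pc2` every `a ∈ S1` has at least `sg / 16` `H`-neighbours in `Fu` (they are active). Count the pairs `(a, b)`,
`a ∈ S1`, `b ∈ Fu` (as elements of `A`), `H.Adj a b`: at least `#S1 sg / 16`. Those with `b ∉ S` are counted in `ee H S (univ \ S)`; those with
`b ∈ S`: at most `∑ b ∈ S ∩ Fu, dg H b ≤ Δ / (N L) * (2 Δ / N ^ 8)` (`dg H b ≤ dg R b ≤ Δ / N ^ 8 + Δ / N ^ 20`). So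
`#S1 ≤ 16 N ^ 42 L / Δ * (2 Δ ^ 2 / (N ^ 9 L) + 2 N ^ 2 Δ) = 32 N ^ 33 Δ + 32 N ^ 44 L ≤ N ^ 37 Δ` (`N ^ 44 L ≤ Δ` by `hΔL`).
(2) By `pqa1` `dg H a ≥ Δ / (2 N ^ 8)` for all `a`. For `a ∈ S2` all `H`-neighbours are outside `F0` (`fi`, `H ≤ G`), so they are in `S1` or
outside `S`. So `#S2 * Δ / (2 N ^ 8) ≤ ∑ b ∈ S1, #{a ∈ S2 : H.Adj b a} + ee H S (univ \ S) ≤ #S1 * Δ / N ^ 30 + 2 N ^ 2 Δ` (`f1`), so
`#S2 ≤ 2 N ^ 15 Δ + 4 N ^ 10 ≤ N ^ 16 Δ`. Together `#S < N ^ 60 Δ`, a contradiction.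
-/

set_option autoImplicit false

namespace Pool.Agent.H12.LT

open Finset Classical
open Pool.Agent.H71.DN Pool.Agent.H71.EX

private theorem pqc_ee_sum {V : Type} [Fintype V] (G : SimpleGraph V) (P Q : Finset V) :
    ee G P Q = ∑ a ∈ P, (Q.filter fun u => G.Adj a u).card := by
  unfold ee
  rw [Finset.card_filter, Finset.sum_product]
  refine Finset.sum_congr rfl fun a _ => ?_
  rw [Finset.card_filter]

private theorem pqc_ee_mono {V : Type} [Fintype V] (G : SimpleGraph V) (P P' Q : Finset V)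
    (h : P ⊆ P') : ee G P Q ≤ ee G P' Q := by
  unfold ee
  exact Finset.card_le_card (Finset.filter_subset_filter _ (Finset.product_subset_product_left h))

private theorem pqc_ee_swap {V : Type} [Fintype V] (G : SimpleGraph V) (P Q : Finset V) :
    ee G P Q = ∑ b ∈ Q, (P.filter fun a => G.Adj b a).card := by
  rw [pqc_ee_sum]
  simp only [Finset.card_filter]
  rw [Finset.sum_comm]
  refine Finset.sum_congr rfl fun b _ => Finset.sum_congr rfl fun a _ => ?_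
  simp only [G.adj_comm]

private theorem pqc_c1 {V : Type} [Fintype V] (H : SimpleGraph V) (S S1 B X Y : Finset V)
    (hX : ∀ b, b ∉ S → b ∈ X) (hY : ∀ b ∈ Y, b ∈ S → b ∈ B)
    (h1 : S1 ⊆ S) (K : ℝ) (h2 : ∀ a ∈ S1, K ≤ (dn H a Y : ℝ)) :
    (S1.card : ℝ) * K ≤ (ee H S X : ℝ) + ((∑ b ∈ B, dg H b : ℕ) : ℝ) := by
  have e0 : ∑ a ∈ S1, dn H a Y ≤ ee H S1 X + ee H S1 B := by
    rw [pqc_ee_sum, pqc_ee_sum, ← Finset.sum_add_distrib]
    refine Finset.sum_le_sum fun a _ => ?_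
    unfold dn
    refine (Finset.card_le_card ?_).trans (Finset.card_union_le _ _)
    intro b hb
    rw [Finset.mem_filter] at hb
    rw [Finset.mem_union, Finset.mem_filter, Finset.mem_filter]
    by_cases hbS : b ∈ S
    · exact Or.inr ⟨hY b hb.1 hbS, hb.2⟩
    · exact Or.inl ⟨hX b hbS, hb.2⟩
  have e1 : ∑ a ∈ S1, dn H a Y ≤ ee H S X + ∑ b ∈ B, dg H b := by
    refine e0.trans (Nat.add_le_add (pqc_ee_mono H S1 S _ h1) ?_)
    rw [pqc_ee_swap]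
    refine Finset.sum_le_sum fun b _ => ?_
    unfold dg
    refine Finset.card_le_card fun u hu => ?_
    rw [Finset.mem_filter] at hu ⊢
    exact ⟨Finset.mem_univ _, hu.2⟩
  have e2 : (S1.card : ℝ) * K ≤ ((∑ a ∈ S1, dn H a Y : ℕ) : ℝ) := by
    rw [Nat.cast_sum, ← nsmul_eq_mul, ← Finset.sum_const]
    exact Finset.sum_le_sum h2
  have e3 : ((∑ a ∈ S1, dn H a Y : ℕ) : ℝ) ≤ ((ee H S X + ∑ b ∈ B, dg H b : ℕ) : ℝ) := by
    exact_mod_cast e1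
  rw [Nat.cast_add] at e3
  exact e2.trans e3

private theorem pqc_c2 {V : Type} [Fintype V] (H : SimpleGraph V) (S S1 S2 X : Finset V)
    (hX : ∀ b, b ∉ S → b ∈ X)
    (h1 : S2 ⊆ S) (h2 : ∀ a ∈ S2, ∀ b ∈ S, H.Adj a b → b ∈ S1) :
    ∑ a ∈ S2, dg H a ≤ ∑ b ∈ S1, dn H b S2 + ee H S X := by
  have e1 : ∑ a ∈ S2, dg H a ≤ ee H S2 S1 + ee H S2 X := by
    rw [pqc_ee_sum, pqc_ee_sum, ← Finset.sum_add_distrib]
    refine Finset.sum_le_sum fun a ha => ?_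
    unfold dg
    refine (Finset.card_le_card ?_).trans (Finset.card_union_le _ _)
    intro b hb
    rw [Finset.mem_filter] at hb
    rw [Finset.mem_union, Finset.mem_filter, Finset.mem_filter]
    by_cases hbS : b ∈ S
    · exact Or.inl ⟨h2 a ha b hbS hb.2, hb.2⟩
    · exact Or.inr ⟨hX b hbS, hb.2⟩
  refine e1.trans (Nat.add_le_add (le_of_eq ?_) (pqc_ee_mono H S2 S _ h1))
  rw [pqc_ee_swap]
  rfl

private theorem pqc_dn_le {V A : Type} [Fintype V] [Fintype A] (G : SimpleGraph V)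
    (H : SimpleGraph A) (f : A → V) (v : V) (a : A) (X : Finset V) (Y : Finset A)
    (h : ∀ u ∈ X, G.Adj v u → ∃ b, b ∈ Y ∧ H.Adj a b ∧ f b = u) : dn G v X ≤ dn H a Y := by
  unfold dn
  refine (Finset.card_le_card ?_).trans (Finset.card_image_le (f := f))
  intro u hu
  rw [Finset.mem_filter] at hu
  obtain ⟨b, hb, hab, hf⟩ := h u hu.1 hu.2
  rw [Finset.mem_image]
  exact ⟨b, Finset.mem_filter.2 ⟨hb, hab⟩, hf⟩

private theorem pqc_fin (N Δ L x k s1 s2 : ℝ) (hN : 1000 ≤ N) (hL : N ≤ L) (hΔ : 1 ≤ Δ)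
    (hΔL : N ^ 60 * L ^ 3 ≤ Δ)
    (hx : x ≤ 2 * (N ^ 2 * Δ)) (hk : k ≤ Δ / (N * L))
    (h1 : s1 * (Δ / (N ^ 42 * L) / 16) ≤ x + k * (2 * (Δ / N ^ 8)))
    (h2 : s2 * (Δ / N ^ 8 / 2) ≤ s1 * (Δ / N ^ 30) + x) : s1 + s2 ≤ N ^ 60 * Δ := by
  have hN0 : 0 < N := by linarith
  have hN1 : 1 ≤ N := by linarith
  have hL0 : 0 < L := by linarith
  have hL1 : 1 ≤ L := by linarith
  have hΔ0 : 0 < Δ := by linarith
  have hNL : N ^ 44 * L ≤ Δ := by
    refine le_trans ?_ hΔL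
    refine mul_le_mul (pow_le_pow_right₀ hN1 (by norm_num)) ?_ hL0.le (by positivity)
    calc L = L ^ 1 := (pow_one L).symm
      _ ≤ L ^ 3 := pow_le_pow_right₀ hL1 (by norm_num)
  have a1 : k * (2 * (Δ / N ^ 8)) ≤ Δ / (N * L) * (2 * (Δ / N ^ 8)) :=
    mul_le_mul_of_nonneg_right hk (by positivity)
  have a2 : s1 * (Δ / (N ^ 42 * L) / 16) ≤ 2 * (N ^ 2 * Δ) + Δ / (N * L) * (2 * (Δ / N ^ 8)) := by
    linarith
  have a3 : s1 ≤ 64 * (N ^ 33 * Δ) := by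
    have b3 := mul_le_mul_of_nonneg_right a2 (by positivity : 0 ≤ 16 * (N ^ 42 * L) / Δ)
    have b4 : s1 * (Δ / (N ^ 42 * L) / 16) * (16 * (N ^ 42 * L) / Δ) = s1 := by
      field_simp
    have b5 : (2 * (N ^ 2 * Δ) + Δ / (N * L) * (2 * (Δ / N ^ 8))) * (16 * (N ^ 42 * L) / Δ) =
        32 * (N ^ 44 * L) + 32 * (N ^ 33 * Δ) := by
      field_simp
      ring
    rw [b4, b5] at b3
    have b6 : Δ ≤ N ^ 33 * Δ := by
      calc Δ = 1 * Δ := (one_mul _).symm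
        _ ≤ N ^ 33 * Δ := mul_le_mul_of_nonneg_right (one_le_pow₀ hN1) hΔ0.le
    linarith
  have a4 : s2 ≤ 128 * (N ^ 11 * Δ) + 4 * N ^ 10 := by
    have b1 : s1 * (Δ / N ^ 30) ≤ 64 * (N ^ 33 * Δ) * (Δ / N ^ 30) :=
      mul_le_mul_of_nonneg_right a3 (by positivity)
    have b2 : s2 * (Δ / N ^ 8 / 2) ≤ 64 * (N ^ 33 * Δ) * (Δ / N ^ 30) + 2 * (N ^ 2 * Δ) := by
      linarith
    have b3 := mul_le_mul_of_nonneg_right b2 (by positivity : 0 ≤ 2 * N ^ 8 / Δ)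
    have b4 : s2 * (Δ / N ^ 8 / 2) * (2 * N ^ 8 / Δ) = s2 := by
      field_simp
    have b5 : (64 * (N ^ 33 * Δ) * (Δ / N ^ 30) + 2 * (N ^ 2 * Δ)) * (2 * N ^ 8 / Δ) =
        128 * (N ^ 11 * Δ) + 4 * N ^ 10 := by
      field_simp
      ring
    rw [b4, b5] at b3
    exact b3
  have a5 : N ^ 10 ≤ N ^ 33 * Δ := by
    calc N ^ 10 ≤ N ^ 33 := pow_le_pow_right₀ hN1 (by norm_num)
      _ = N ^ 33 * 1 := (mul_one _).symm
      _ ≤ N ^ 33 * Δ := mul_le_mul_of_nonneg_left hΔ (by positivity)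
  have a6 : N ^ 11 * Δ ≤ N ^ 33 * Δ :=
    mul_le_mul_of_nonneg_right (pow_le_pow_right₀ hN1 (by norm_num)) hΔ0.le
  have a7 : 1000 * (N ^ 33 * Δ) ≤ N ^ 60 * Δ := by
    have : 1000 * N ^ 33 ≤ N ^ 60 := by
      calc 1000 * N ^ 33 ≤ N * N ^ 33 := mul_le_mul_of_nonneg_right hN (by positivity)
        _ = N ^ 34 := by ring
        _ ≤ N ^ 60 := pow_le_pow_right₀ hN1 (by norm_num)
    calc 1000 * (N ^ 33 * Δ) = (1000 * N ^ 33) * Δ := by ring
      _ ≤ N ^ 60 * Δ := mul_le_mul_of_nonneg_right this hΔ0.le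
  have a8 : 0 ≤ N ^ 33 * Δ := by positivity
  linarith

theorem pqc {V : Type} [Fintype V] (G R : SimpleGraph V) (Δ N L T w0 : ℕ) (W F : ℕ → Finset V)
    (F0 : Finset V) (h : Pd G R Δ N L T w0 W F F0) (t : ℕ) (ht : t < T) (U : SimpleGraph V)
    (M : Finset V) (hU : Sm G R Δ N L T t W F F0 U M) (S : Finset {v // v ∉ W t})
    (hS : N ^ 60 * Δ < S.card) :
    2 ≤ 1 / ((N : ℝ) ^ 2 * Δ) *
      ee ((U ⊓ R).comap (Subtype.val : {v // v ∉ W t} → V)) S (univ \ S) +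
      2 * ∑ a ∈ S, ev Δ N L t F M a.1 := by
  have hN : (1000 : ℝ) ≤ N := by exact_mod_cast h.xp.hN
  have hN0 : (0 : ℝ) < N := by linarith
  have hΔ1 : (1 : ℝ) ≤ Δ := by
    have h0 : 0 < Δ := lt_of_lt_of_le (pow_pos (by have := h.xp.hN; omega) 250) h.xp.hΔ
    exact_mod_cast h0
  have hΔ0 : (0 : ℝ) < Δ := by linarith
  have hL : (N : ℝ) ≤ L := by exact_mod_cast h.xp.hL
  have hL0 : (0 : ℝ) < L := by linarith
  have hΔL : (N : ℝ) ^ 60 * (L : ℝ) ^ 3 ≤ Δ := by exact_mod_cast h.xp.hΔL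
  by_contra hcon
  rw [not_le] at hcon
  -- the sum
  have hev : ∑ a ∈ S, ev Δ N L t F M a.1 =
      ((S.filter fun a => a.1 ∈ F t ∧ a.1 ∉ M).card : ℝ) * e0 Δ N L := by
    unfold ev
    rw [← Finset.sum_filter, Finset.sum_const, nsmul_eq_mul]
  rw [hev] at hcon
  -- degrees
  have hpos : (0 : ℝ) < (N : ℝ) ^ 2 * Δ := by positivity
  have hdeg : ∀ a : {v // v ∉ W t},
      (Δ : ℝ) / (N : ℝ) ^ 8 / 2 ≤ dg ((U ⊓ R).comap (Subtype.val : {v // v ∉ W t} → V)) a ∧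
      (dg ((U ⊓ R).comap (Subtype.val : {v // v ∉ W t} → V)) a : ℝ) ≤ 2 * (Δ / (N : ℝ) ^ 8) := by
    intro a
    have h1 := pqa1 G R Δ N L T w0 W F F0 h t ht U M hU a
    generalize (dg ((U ⊓ R).comap (Subtype.val : {v // v ∉ W t} → V)) a : ℝ) = d at *
    rw [abs_le] at h1
    have e1 : ∀ y : ℝ, 1 / ((N : ℝ) ^ 2 * Δ) * y * ((N : ℝ) ^ 2 * Δ) = y := by
      intro y
      field_simp
    have g1 := mul_le_mul_of_nonneg_right h1.1 hpos.le
    have g2 := mul_le_mul_of_nonneg_right h1.2 hpos.le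
    rw [sub_mul, e1] at g1 g2
    have e2 : 1 / (N : ℝ) ^ 10 * ((N : ℝ) ^ 2 * Δ) = Δ / (N : ℝ) ^ 8 := by
      field_simp
    have e3 : 3 / (N : ℝ) ^ 12 * ((N : ℝ) ^ 2 * Δ) = 3 / (N : ℝ) ^ 2 * (Δ / (N : ℝ) ^ 8) := by
      field_simp
    have e4 : 3 / (N : ℝ) ^ 2 * (Δ / (N : ℝ) ^ 8) ≤ 1 / 2 * (Δ / (N : ℝ) ^ 8) := by
      refine mul_le_mul_of_nonneg_right ?_ (by positivity)
      rw [div_le_div_iff₀ (by positivity) (by norm_num)]
      nlinarith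
    rw [neg_mul, e2, e3] at g1
    rw [e2, e3] at g2
    have e5 : (0 : ℝ) ≤ Δ / (N : ℝ) ^ 8 := by positivity
    constructor <;> linarith
  generalize hH : (U ⊓ R).comap (Subtype.val : {v // v ∉ W t} → V) = H at *
  set B := S.filter fun a => a.1 ∈ F t ∧ a.1 ∉ M with hB
  set S1 := S.filter fun a => a.1 ∉ F0 with hS1
  set S2 := S.filter fun a => a.1 ∈ F0 with hS2
  have hHa : ∀ a b : {v // v ∉ W t}, H.Adj a b ↔ (U.Adj a.1 b.1 ∧ R.Adj a.1 b.1) := by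
    intro a b
    rw [← hH]
    rfl
  -- (1)
  set Y := univ.filter fun b : {v // v ∉ W t} => b.1 ∈ F t ∧ b.1 ∉ M with hY
  have p1 := pqc_c1 H S S1 B (univ \ S) Y
    (fun b hb => Finset.mem_sdiff.2 ⟨Finset.mem_univ _, hb⟩) (by
      intro b hb hbS
      rw [hY, Finset.mem_filter] at hb
      rw [hB, Finset.mem_filter]
      exact ⟨hbS, hb.2⟩) (Finset.filter_subset _ _) (sg Δ N L / 16) (by
    intro a ha
    rw [hS1, Finset.mem_filter] at ha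
    refine (pc2 G R Δ N L T w0 W F F0 h t ht U M hU a.1 ha.2).trans ?_
    have : dn (U ⊓ R) a.1 (F t \ M) ≤ dn H a Y := by
      refine pqc_dn_le (U ⊓ R) H Subtype.val a.1 a (F t \ M) Y fun u hu hu2 => ?_
      have hu1 := Finset.mem_sdiff.1 hu
      refine ⟨⟨u, h.fW t ht u hu1.1⟩, ?_, ?_, rfl⟩
      · rw [hY, Finset.mem_filter]
        exact ⟨Finset.mem_univ _, hu1⟩
      · rw [hHa]
        exact hu2
    exact_mod_cast this)
  -- (2)
  have p2 := pqc_c2 H S S1 S2 (univ \ S)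
    (fun b hb => Finset.mem_sdiff.2 ⟨Finset.mem_univ _, hb⟩) (Finset.filter_subset _ _) (by
    intro a ha b hb hab
    rw [hS2, Finset.mem_filter] at ha
    rw [hS1, Finset.mem_filter]
    refine ⟨hb, fun hb0 => ?_⟩
    rw [hHa] at hab
    exact h.fi a.1 ha.2 b.1 hb0 (hU.le hab.1))
  have hsum1 : ((∑ b ∈ B, dg H b : ℕ) : ℝ) ≤ (B.card : ℝ) * (2 * (Δ / (N : ℝ) ^ 8)) := by
    rw [Nat.cast_sum, ← nsmul_eq_mul, ← Finset.sum_const]
    exact Finset.sum_le_sum fun b _ => (hdeg b).2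
  have hsum2 : (S2.card : ℝ) * (Δ / (N : ℝ) ^ 8 / 2) ≤ ((∑ a ∈ S2, dg H a : ℕ) : ℝ) := by
    rw [Nat.cast_sum, ← nsmul_eq_mul, ← Finset.sum_const]
    exact Finset.sum_le_sum fun b _ => (hdeg b).1
  have hsum3 : ((∑ b ∈ S1, dn H b S2 : ℕ) : ℝ) ≤ (S1.card : ℝ) * (Δ / (N : ℝ) ^ 30) := by
    rw [Nat.cast_sum, ← nsmul_eq_mul, ← Finset.sum_const]
    refine Finset.sum_le_sum fun b _ => ?_
    refine le_trans ?_ (h.f1 b.1)
    have : dn H b S2 ≤ dn G b.1 F0 := by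
      unfold dn
      rw [← Finset.card_map ⟨(Subtype.val : {v // v ∉ W t} → V), Subtype.val_injective⟩]
      refine Finset.card_le_card fun v hv => ?_
      rw [Finset.mem_map] at hv
      obtain ⟨c, hc, rfl⟩ := hv
      rw [Finset.mem_filter, hS2, Finset.mem_filter, hHa] at hc
      rw [Finset.mem_filter]
      exact ⟨hc.1.2, hU.le hc.2.1⟩
    exact_mod_cast this
  have p2' : ((∑ a ∈ S2, dg H a : ℕ) : ℝ) ≤ ((∑ b ∈ S1, dn H b S2 : ℕ) : ℝ) +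
      (ee H S (univ \ S) : ℝ) := by
    exact_mod_cast p2
  have hcard : S1.card + S2.card = S.card := by
    rw [hS1, hS2, add_comm]
    exact Finset.card_filter_add_card_filter_not (fun a : {v // v ∉ W t} => a.1 ∈ F0)
  have hk0 : (0 : ℝ) ≤ B.card := Nat.cast_nonneg _
  have hx0 : (0 : ℝ) ≤ ee H S (univ \ S) := Nat.cast_nonneg _
  have he0 : (0 : ℝ) < e0 Δ N L := by
    unfold e0
    positivity
  have hx : (ee H S (univ \ S) : ℝ) ≤ 2 * ((N : ℝ) ^ 2 * Δ) := by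
    have h1 : 1 / ((N : ℝ) ^ 2 * Δ) * ee H S (univ \ S) ≤ 2 := by
      have h2 : 0 ≤ 2 * ((B.card : ℝ) * e0 Δ N L) := by positivity
      linarith
    rw [one_div, inv_mul_eq_div, div_le_iff₀ hpos] at h1
    exact h1
  have hk : (B.card : ℝ) ≤ Δ / ((N : ℝ) * L) := by
    have h1 : (B.card : ℝ) * e0 Δ N L ≤ 1 := by
      have h2 : 0 ≤ 1 / ((N : ℝ) ^ 2 * Δ) * ee H S (univ \ S) := by positivity
      linarith
    unfold e0 at h1
    rw [← mul_div_assoc, div_le_iff₀ hΔ0, one_mul] at h1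
    rw [le_div_iff₀ (by positivity)]
    exact h1
  have hsg : sg Δ N L / 16 = Δ / ((N : ℝ) ^ 42 * L) / 16 := rfl
  rw [hsg] at p1
  have hfin := pqc_fin (N : ℝ) Δ L (ee H S (univ \ S)) B.card S1.card S2.card hN hL hΔ1 hΔL hx hk
    (by linarith) (by linarith)
  have hcard' : (S1.card : ℝ) + S2.card = S.card := by exact_mod_cast hcard
  have hS' : (N : ℝ) ^ 60 * Δ < S.card := by exact_mod_cast hS
  linarith

end Pool.Agent.H12.LT
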