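import Mathlib
import Pool.Agent.H12.LT.Defs
import Pool.Agent.H12.LT.Ps2
import Pool.Agent.H12.LT.Zq
import Pool.Agent.H12.LT.Pt1
import Pool.Agent.H12.LT.Pt2
import Pool.Agent.H12.LT.Pt3

/-!
PT4: one step of the process keeps the invariant. `H12/LS/Pt4.lean` (proved) with the parameter `L`; the factor `1 + 12 N ^ 2 / Δ` is replaced by
`1 + 12 / (N ^ 44 L)` (`zr`, `pt2a`).
-/

set_option autoImplicit false

namespace Pool.Agent.H12.LT

open Finset Classical
open Pool.Agent.H71.DN Pool.Agent.H71.EX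

private theorem Pt4_z0 {V : Type} [Fintype V] (R : SimpleGraph V) (Δ N L t : ℕ)
    (W F : ℕ → Finset V) (U : SimpleGraph V) (M : Finset V) (z : V → V → ℝ)
    (hz : Zw R Δ N L t W F U M z) (v : V) : z v v = 0 :=
  hz.zer v v (Or.inr (Or.inr (U.loopless.irrefl v)))

private theorem Pt4_row {V : Type} [Fintype V] (G R : SimpleGraph V) (Δ N L T w0 : ℕ)
    (W F : ℕ → Finset V) (F0 : Finset V) (h : Pd G R Δ N L T w0 W F F0) (t : ℕ) (ht : t < T)
    (U : SimpleGraph V) (M : Finset V) (z : V → V → ℝ) (hz : Zw R Δ N L t W F U M z)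
    (b1 b2 b3 : ℝ) (hb2 : 0 < b2) (v : V) (hv : v ∉ W t) :
    ∑ u, z v u * (kk G R Δ N t W U v * (if u = v ∨ R.Adj v u then 1 else 0) / b1 +
        (∑ s ∈ range T, 2 * Real.exp (usd R F U v s) *
          (if u ∈ F s ∧ R.Adj v u then 1 else 0)) / b2 +
        g3 R Δ N L T t F M v * (if u = v then 1 else 0) / b3) +
      ev Δ N L t F M v * (kk G R Δ N t W U v * (if v = v ∨ R.Adj v v then 1 else 0) / b1 +
        (∑ s ∈ range T, 2 * Real.exp (usd R F U v s) *
          (if v ∈ F s ∧ R.Adj v v then 1 else 0)) / b2 +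
        g3 R Δ N L T t F M v * (if v = v then 1 else 0) / b3) ≤
      kk G R Δ N t W U v * Qv R Δ N t W U v / b1 +
        (12 / ((N : ℝ) ^ 44 * L) * ∑ s ∈ range T, Real.exp (usd R F U v s)) / b2 +
        g3 R Δ N L T t F M v * ev Δ N L t F M v / b3 := by
  have hR : ¬ R.Adj v v := R.loopless.irrefl v
  have e1 : ∑ u, z v u * (kk G R Δ N t W U v * (if u = v ∨ R.Adj v u then 1 else 0) / b1) =
      kk G R Δ N t W U v / b1 * ∑ u, z v u * (if u = v ∨ R.Adj v u then 1 else 0) := by
    rw [mul_sum]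
    apply sum_congr rfl
    intro u _
    ring
  have e2 : ∑ u, z v u * ((∑ s ∈ range T, 2 * Real.exp (usd R F U v s) *
      (if u ∈ F s ∧ R.Adj v u then 1 else 0)) / b2) =
      (∑ s ∈ range T, 2 * Real.exp (usd R F U v s) *
        ∑ u, z v u * (if u ∈ F s ∧ R.Adj v u then 1 else 0)) / b2 := by
    rw [sum_div]
    have e : ∀ u, z v u * ((∑ s ∈ range T, 2 * Real.exp (usd R F U v s) *
        (if u ∈ F s ∧ R.Adj v u then 1 else 0)) / b2) =
        ∑ s ∈ range T, z v u * (2 * Real.exp (usd R F U v s) *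
        (if u ∈ F s ∧ R.Adj v u then 1 else 0)) / b2 := by
      intro u
      rw [sum_div, mul_sum]
      apply sum_congr rfl
      intro s _
      ring
    rw [sum_congr rfl (fun u _ => e u), sum_comm]
    apply sum_congr rfl
    intro s _
    rw [mul_sum, sum_div]
    apply sum_congr rfl
    intro u _
    ring
  have e3 : ∑ u, z v u * (g3 R Δ N L T t F M v * (if u = v then 1 else 0) / b3) = 0 := by
    apply sum_eq_zero
    intro u _
    by_cases hu : u = v
    · subst hu
      rw [Pt4_z0 R Δ N L t W F U M z hz u]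
      ring
    · rw [if_neg hu]
      ring
  have e4 : (∑ s ∈ range T, 2 * Real.exp (usd R F U v s) *
      (if v ∈ F s ∧ R.Adj v v then (1 : ℝ) else 0)) = 0 := by
    apply sum_eq_zero
    intro s _
    rw [if_neg (fun k => hR k.2)]
    ring
  have hq := zq G R Δ N L T w0 W F F0 h t ht U M z hz v hv
  have e5 : ∑ s ∈ range T, 2 * Real.exp (usd R F U v s) *
        ∑ u, z v u * (if u ∈ F s ∧ R.Adj v u then 1 else 0) ≤
      12 / ((N : ℝ) ^ 44 * L) * ∑ s ∈ range T, Real.exp (usd R F U v s) := by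
    rw [mul_sum]
    apply sum_le_sum
    intro s hs
    have h1 := zr G R Δ N L T w0 W F F0 h t ht U M z hz v hv s (mem_range.mp hs)
    have h2 : (0 : ℝ) ≤ 2 * Real.exp (usd R F U v s) := by positivity
    refine (mul_le_mul_of_nonneg_left h1 h2).trans (le_of_eq ?_)
    ring
  have e6 := div_le_div_of_nonneg_right e5 hb2.le
  have e7 : ∀ u, z v u * (kk G R Δ N t W U v * (if u = v ∨ R.Adj v u then 1 else 0) / b1 +
        (∑ s ∈ range T, 2 * Real.exp (usd R F U v s) *
          (if u ∈ F s ∧ R.Adj v u then 1 else 0)) / b2 +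
        g3 R Δ N L T t F M v * (if u = v then 1 else 0) / b3) =
      z v u * (kk G R Δ N t W U v * (if u = v ∨ R.Adj v u then 1 else 0) / b1) +
        z v u * ((∑ s ∈ range T, 2 * Real.exp (usd R F U v s) *
          (if u ∈ F s ∧ R.Adj v u then 1 else 0)) / b2) +
        z v u * (g3 R Δ N L T t F M v * (if u = v then 1 else 0) / b3) := by
    intro u
    ring
  rw [sum_congr rfl (fun u _ => e7 u), sum_add_distrib, sum_add_distrib, e1, e2, e3, e4,
    if_pos (Or.inl rfl), if_pos rfl]
  rw [← hq]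
  have e8 : ∀ x y k g e : ℝ, k / b1 * x + y / b2 + 0 + e * (k * 1 / b1 + 0 / b2 + g * 1 / b3) =
      k * (x + e) / b1 + y / b2 + g * e / b3 := by
    intro x y k g e
    ring
  rw [e8]
  linarith

theorem pt4 {V : Type} [Fintype V] (G R : SimpleGraph V) (Δ N L T w0 : ℕ) (W F : ℕ → Finset V)
    (F0 : Finset V) (h : Pd G R Δ N L T w0 W F F0) (t : ℕ) (ht : t < T) (U : SimpleGraph V)
    (M : Finset V) (hU : Sm G R Δ N L T t W F F0 U M) :
    ∃ π : V → V, Mt t W F U M π ∧
      ∀ U' : SimpleGraph V, (∀ a b, U'.Adj a b ↔ U.Adj a b ∧ π a ≠ b) →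
        Sm G R Δ N L T (t + 1) W F F0 U' (M ∪ univ.filter fun u => u ∉ W t ∧ π u = u) := by
  obtain ⟨z, hz, hps⟩ := ps2 G R Δ N L T w0 W F F0 h t ht U M hU
  have hN : (1000 : ℝ) ≤ N := by exact_mod_cast h.xp.hN
  have hN0 : (0 : ℝ) < N := by linarith
  have hΔ0 : (0 : ℝ) < Δ := by
    have h1 : 0 < Δ := lt_of_lt_of_le (pow_pos (by have := h.xp.hN; omega) 250) h.xp.hΔ
    exact_mod_cast h1
  obtain ⟨b1, hb1⟩ : ∃ b : ℝ, b = Fintype.card V * B1 Δ N (t + 1) := ⟨_, rfl⟩
  obtain ⟨b2, hb2⟩ : ∃ b : ℝ, b = Fintype.card V * Δ * B2 N L (t + 1) := ⟨_, rfl⟩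
  obtain ⟨b3, hb3⟩ : ∃ b : ℝ, b = Fintype.card V * Δ := ⟨_, rfl⟩
  obtain ⟨π, hπ, hsum⟩ := hps (fun v u =>
    kk G R Δ N t W U v * (if u = v ∨ R.Adj v u then 1 else 0) / b1 +
      (∑ s ∈ range T, 2 * Real.exp (usd R F U v s) *
        (if u ∈ F s ∧ R.Adj v u then 1 else 0)) / b2 +
      g3 R Δ N L T t F M v * (if u = v then 1 else 0) / b3)
  refine ⟨π, hπ, ?_⟩
  intro U' hU'
  have hle : U' ≤ G := fun x y hxy => hU.le ((hU' x y).mp hxy).1
  refine ⟨hle, ?_, ?_, ?_⟩
  · intro u hu
    rw [mem_union] at hu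
    rcases hu with hu | hu
    · exact hU.mf hu
    · rw [mem_filter] at hu
      exact h.f0 t ht (hπ.mis u hu.2.1 hu.2.2).1
  · intro v
    have h0 := hU.deg v
    have hMv : v ∈ M ∪ univ.filter (fun u => u ∉ W t ∧ π u = u) ↔
        v ∈ M ∨ (v ∉ W t ∧ π v = v) := by
      rw [mem_union, mem_filter]
      simp only [mem_univ, true_and]
    by_cases hv : v ∈ W t
    · have hn : ¬ U.Adj v (π v) := by
        rw [hπ.fix v hv]
        exact U.loopless.irrefl v
      have h1 := Pt_dg0 U U' v (π v) (fun b => hU' v b) hn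
      rw [range_add_one, filter_insert, if_pos hv, card_insert_of_notMem, h1]
      · by_cases hM : v ∈ M
        · rw [if_pos hM] at h0
          rw [if_pos (hMv.mpr (Or.inl hM))]
          omega
        · rw [if_neg hM] at h0
          rw [if_neg (fun k => (hMv.mp k).elim hM (fun k' => k'.1 hv))]
          omega
      · rw [mem_filter, mem_range]
        exact fun k => lt_irrefl _ k.1
    · rw [range_add_one, filter_insert, if_neg hv]
      by_cases hp : π v = v
      · have hn : ¬ U.Adj v (π v) := by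
          rw [hp]
          exact U.loopless.irrefl v
        have h1 := Pt_dg0 U U' v (π v) (fun b => hU' v b) hn
        have h2 := (hπ.mis v hv hp).2
        rw [if_neg h2] at h0
        rw [if_pos (hMv.mpr (Or.inr ⟨hv, hp⟩)), h1]
        omega
      · have h1 := Pt_dg1 U U' v (π v) (fun b => hU' v b) (hπ.adj v hp)
        by_cases hM : v ∈ M
        · rw [if_pos hM] at h0
          rw [if_pos (hMv.mpr (Or.inl hM))]
          omega
        · rw [if_neg hM] at h0
          rw [if_neg (fun k => (hMv.mp k).elim hM (fun k' => hp k'.2))]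
          omega
  · rcases isEmpty_or_nonempty V with hV | hV
    · have e1 : P1 G R Δ N (t + 1) W U' = 0 := by
        unfold P1
        rw [univ_eq_empty, sum_empty]
      have e2 : P2 R T F U' = 0 := by
        unfold P2
        rw [univ_eq_empty, sum_empty]
      have e3 : P3 R Δ N L T (t + 1) F (M ∪ univ.filter fun u => u ∉ W t ∧ π u = u) = 0 := by
        unfold P3
        rw [sum_of_isEmpty]
      rw [e1, e2, e3, zero_div, zero_div, zero_div]
      norm_num
    have hn : (0 : ℝ) < Fintype.card V := by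
      exact_mod_cast Fintype.card_pos
    have hB1 : 0 < B1 Δ N (t + 1) := Real.exp_pos _
    have hB2 : 0 < B2 N L (t + 1) := Real.exp_pos _
    have hB10 : 0 < B1 Δ N t := Real.exp_pos _
    have hB20 : 0 < B2 N L t := Real.exp_pos _
    have pb1 : 0 < b1 := by rw [hb1]; positivity
    have pb2 : 0 < b2 := by rw [hb2]; positivity
    have pb3 : 0 < b3 := by rw [hb3]; positivity
    rw [← hb1, ← hb2, ← hb3]
    have k1 := div_le_div_of_nonneg_right
      (pt1 G R Δ N L T w0 W F F0 h t ht U M hU π hπ U' hU') pb1.le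
    have k2 := div_le_div_of_nonneg_right (pt2 R T t W F U M π hπ U' hU') pb2.le
    have k3 := div_le_div_of_nonneg_right
      (pt3 G R Δ N L T w0 W F F0 h t ht U M π hπ) pb3.le
    have k4 := div_le_div_of_nonneg_right
      (pt3a G R Δ N L T w0 W F F0 h t ht M) pb3.le
    rw [add_div] at k1 k2 k3 k4
    have hrow : ∑ v ∈ univ \ W t, (kk G R Δ N t W U v * Qv R Δ N t W U v / b1 +
        (12 / ((N : ℝ) ^ 44 * L) * ∑ s ∈ range T, Real.exp (usd R F U v s)) / b2 +
        g3 R Δ N L T t F M v * ev Δ N L t F M v / b3) ≤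
        (∑ v ∈ univ \ W t, kk G R Δ N t W U v * Qv R Δ N t W U v) / b1 +
        (12 / ((N : ℝ) ^ 44 * L) * P2 R T F U) / b2 +
        (∑ v ∈ univ \ W t, g3 R Δ N L T t F M v * ev Δ N L t F M v) / b3 := by
      rw [sum_add_distrib, sum_add_distrib, ← sum_div, ← sum_div, ← sum_div, ← mul_sum]
      have e : ∑ v ∈ univ \ W t, ∑ s ∈ range T, Real.exp (usd R F U v s) ≤ P2 R T F U := by
        unfold P2
        apply sum_le_sum_of_subset_of_nonneg (subset_univ _)
        intro v _ _
        exact sum_nonneg fun s _ => (Real.exp_pos _).le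
      have e' := div_le_div_of_nonneg_right (mul_le_mul_of_nonneg_left e
        (by positivity : (0 : ℝ) ≤ 12 / ((N : ℝ) ^ 44 * L))) pb2.le
      linarith
    have hall : ∑ v ∈ univ \ W t, (kk G R Δ N t W U v *
          (if π v = v ∨ R.Adj v (π v) then 1 else 0) / b1 +
        (∑ s ∈ range T, 2 * Real.exp (usd R F U v s) *
          (if π v ∈ F s ∧ R.Adj v (π v) then 1 else 0)) / b2 +
        g3 R Δ N L T t F M v * (if π v = v then 1 else 0) / b3) ≤
        ∑ v ∈ univ \ W t, (kk G R Δ N t W U v * Qv R Δ N t W U v / b1 +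
        (12 / ((N : ℝ) ^ 44 * L) * ∑ s ∈ range T, Real.exp (usd R F U v s)) / b2 +
        g3 R Δ N L T t F M v * ev Δ N L t F M v / b3) := by
      refine hsum.trans ?_
      apply sum_le_sum
      intro v hv
      rw [mem_sdiff] at hv
      exact Pt4_row G R Δ N L T w0 W F F0 h t ht U M z hz b1 b2 b3 pb2 v hv.2
    rw [sum_add_distrib, sum_add_distrib, ← sum_div, ← sum_div, ← sum_div] at hall
    have hkk : ∑ v ∈ univ \ W t, kk G R Δ N t W U v *
        ((if π v = v ∨ R.Adj v (π v) then 1 else 0) - Qv R Δ N t W U v) =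
        ∑ v ∈ univ \ W t, kk G R Δ N t W U v *
          (if π v = v ∨ R.Adj v (π v) then 1 else 0) -
        ∑ v ∈ univ \ W t, kk G R Δ N t W U v * Qv R Δ N t W U v := by
      rw [← sum_sub_distrib]
      apply sum_congr rfl
      intro v _
      ring
    rw [hkk, sub_div] at k1
    have hP2 : 0 ≤ P2 R T F U := by
      unfold P2
      exact sum_nonneg fun v _ => sum_nonneg fun s _ => (Real.exp_pos _).le
    have f1 : Real.exp (2 / (N : ℝ) ^ 32) * P1 G R Δ N t W U / b1 =
        P1 G R Δ N t W U / (Fintype.card V * B1 Δ N t) := by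
      have e : B1 Δ N (t + 1) = Real.exp (2 / (N : ℝ) ^ 32) * B1 Δ N t := by
        unfold B1
        rw [← Real.exp_add]
        congr 1
        push_cast
        ring
      rw [hb1, e]
      have hE : 0 < Real.exp (2 / (N : ℝ) ^ 32) := Real.exp_pos _
      rw [div_eq_div_iff (by positivity) (by positivity)]
      ring
    have f2 : P2 R T F U / b2 + 12 / ((N : ℝ) ^ 44 * L) * P2 R T F U / b2 ≤
        P2 R T F U / (Fintype.card V * Δ * B2 N L t) := by
      have e := pt2a N L t
      have e2 : P2 R T F U / b2 + 12 / ((N : ℝ) ^ 44 * L) * P2 R T F U / b2 =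
          P2 R T F U * (1 + 12 / ((N : ℝ) ^ 44 * L)) / b2 := by ring
      rw [e2, hb2, div_le_div_iff₀ (by positivity) (by positivity)]
      have e3 := mul_le_mul_of_nonneg_left e
        (by positivity : (0 : ℝ) ≤ P2 R T F U * (Fintype.card V * Δ))
      calc P2 R T F U * (1 + 12 / ((N : ℝ) ^ 44 * L)) * (Fintype.card V * Δ * B2 N L t) =
          P2 R T F U * (Fintype.card V * Δ) * ((1 + 12 / ((N : ℝ) ^ 44 * L)) * B2 N L t) := by
            ring
        _ ≤ P2 R T F U * (Fintype.card V * Δ) * B2 N L (t + 1) := e3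
        _ = _ := by ring
    have hpot := hU.pot
    have f3 : P3 R Δ N L T t F M / (Fintype.card V * Δ) = P3 R Δ N L T t F M / b3 := by rw [hb3]
    linarith

end Pool.Agent.H12.LT
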