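import Mathlib
import Pool.Agent.H12.LT.Defs
import Pool.Agent.H12.LT.Np2
import Pool.Agent.H12.LT.Sa2
import Pool.Agent.H71.EX.Sb

/-!
SB2: the sparse random classes `X j`, `j < m0`. `H12/LS/Sb2.lean` (proved) with the parameter `L`: `3 L` instead of `3 N` in `fr`; the invariant is
`Ψ j ≤ exp (L + 3)`, so `dn G v (U j) ≤ 2 j / N ^ 3 + L + 3 ≤ 3 Δ / N ^ 3` and at the end
`Z v ≥ m0 / (32 N ^ 7) - L - 3 ≥ Δ / (64 N ^ 7) - L - 3 ≥ Δ / (100 N ^ 7)` (`N ^ 60 L ^ 3 ≤ Δ`).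
-/

set_option autoImplicit false

namespace Pool.Agent.H12.LT

open Finset Classical
open Pool.Agent.H71.DN Pool.Agent.H71.EX

/-- The sparse random classes (without the condition on their size). -/
structure Sy {V : Type} [Fintype V] (G : SimpleGraph V) (Δ N L m0 : ℕ) (X : ℕ → Finset V) :
    Prop where
  dis : ∀ i < m0, ∀ j < m0, i ≠ j → Disjoint (X i) (X j)
  fr : ∀ j < m0, ∀ v, dn G v (X j) ≤ 3 * L
  ev : ∀ v, (Δ : ℝ) / (100 * (N : ℝ) ^ 7) ≤ ((range m0).filter fun j => Ev G (X j) v).card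

theorem LTSb2_num {V : Type} [Fintype V] {G : SimpleGraph V} {Δ N L : ℕ} (h : Xs G Δ N L)
    (k : ℕ) (hk : k ≤ 50) : (L : ℝ) + 3 ≤ Δ / (N : ℝ) ^ k := by
  have hN1 : (1000 : ℝ) ≤ N := by exact_mod_cast h.hN
  have hL1 : (N : ℝ) ≤ L := by exact_mod_cast h.hL
  have hD : (N : ℝ) ^ 60 * (L : ℝ) ^ 3 ≤ Δ := by exact_mod_cast h.hΔL
  have hk2 : (0 : ℝ) < (N : ℝ) ^ k := by
    have : (0 : ℝ) < N := by linarith
    positivity
  rw [le_div_iff₀ hk2]
  have h1 : (L : ℝ) + 3 ≤ (L : ℝ) ^ 3 := by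
    have : (1 : ℝ) ≤ (L : ℝ) := by linarith
    nlinarith [mul_nonneg (by linarith : (0 : ℝ) ≤ L - 1) (by linarith : (0 : ℝ) ≤ (L : ℝ)),
      mul_self_nonneg ((L : ℝ) - 1)]
  have h2 : (N : ℝ) ^ k ≤ (N : ℝ) ^ 60 := pow_le_pow_right₀ (by linarith) (by omega)
  calc ((L : ℝ) + 3) * (N : ℝ) ^ k ≤ (L : ℝ) ^ 3 * (N : ℝ) ^ 60 :=
        mul_le_mul h1 h2 hk2.le (by positivity)
    _ = (N : ℝ) ^ 60 * (L : ℝ) ^ 3 := by ring
    _ ≤ Δ := hD

/-- the invariant -/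
structure LTSb2_I {V : Type} [Fintype V] (G : SimpleGraph V) (Δ N L j : ℕ) (X : ℕ → Finset V) :
    Prop where
  dis : ∀ i < j, ∀ k < j, i ≠ k → Disjoint (X i) (X k)
  fr : ∀ i < j, ∀ v, dn G v (X i) ≤ 3 * L
  pot : Sb_P G N X j ≤ 2 * Fintype.card V * (1 + 2 / (Δ : ℝ)) ^ j

theorem LTSb2_bd {V : Type} [Fintype V] (G : SimpleGraph V) (Δ N L j : ℕ) (X : ℕ → Finset V)
    (h : Xs G Δ N L) (hj : j ≤ Δ) (hI : LTSb2_I G Δ N L j X) : Sb_P G N X j ≤ Real.exp (L + 3) := by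
  have hN := h.hN
  have hN0 : (0 : ℝ) < N := by exact_mod_cast (by omega : 0 < N)
  have hD0 : (0 : ℝ) < Δ := by
    have h1 : 0 < N ^ 250 := pow_pos (by omega) _
    exact_mod_cast lt_of_lt_of_le h1 h.hΔ
  have h1 : (1 + 2 / (Δ : ℝ)) ^ j ≤ Real.exp 2 := by
    have h2 : 1 + 2 / (Δ : ℝ) ≤ Real.exp (2 / Δ) := by
      have := Real.add_one_le_exp (2 / (Δ : ℝ))
      linarith
    calc (1 + 2 / (Δ : ℝ)) ^ j ≤ (Real.exp (2 / Δ)) ^ j :=
          pow_le_pow_left₀ (by positivity) h2 j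
      _ = Real.exp (j * (2 / Δ)) := by rw [← Real.exp_nat_mul]
      _ ≤ Real.exp 2 := by
          apply Real.exp_le_exp.2
          have h3 : (j : ℝ) ≤ Δ := by exact_mod_cast hj
          calc (j : ℝ) * (2 / Δ) ≤ Δ * (2 / Δ) := by
                apply mul_le_mul_of_nonneg_right h3 (by positivity)
            _ = 2 := by field_simp
  have h4 : (2 : ℝ) ≤ Real.exp 1 := by
    have := Real.add_one_le_exp (1 : ℝ)
    linarith
  calc Sb_P G N X j ≤ 2 * Fintype.card V * (1 + 2 / (Δ : ℝ)) ^ j := hI.pot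
    _ ≤ 2 * Real.exp L * Real.exp 2 := by
        apply mul_le_mul (mul_le_mul_of_nonneg_left h.n2 (by norm_num)) h1 (by positivity)
          (by positivity)
    _ ≤ Real.exp 1 * Real.exp L * Real.exp 2 := by
        apply mul_le_mul_of_nonneg_right _ (Real.exp_pos _).le
        exact mul_le_mul_of_nonneg_right h4 (Real.exp_pos _).le
    _ = Real.exp (L + 3) := by
        rw [← Real.exp_add, ← Real.exp_add]
        apply congrArg
        ring

theorem LTSb2_step {V : Type} [Fintype V] (G : SimpleGraph V) (Δ N L : ℕ) (h : Xs G Δ N L) (j : ℕ)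
    (hj : j + 1 ≤ Δ) (hex : ∃ X : ℕ → Finset V, LTSb2_I G Δ N L j X) :
    ∃ X : ℕ → Finset V, LTSb2_I G Δ N L (j + 1) X := by
  obtain ⟨X, hI⟩ := hex
  have hN := h.hN
  have hN0 : (0 : ℝ) < N := by exact_mod_cast (by omega : 0 < N)
  have hN1 : (1000 : ℝ) ≤ N := by exact_mod_cast hN
  have hD0 : (0 : ℝ) < Δ := by
    have h1 : 0 < N ^ 250 := pow_pos (by omega) _
    exact_mod_cast lt_of_lt_of_le h1 h.hΔ
  have hD1 : (N : ℝ) ^ 60 ≤ Δ := by
    exact_mod_cast le_trans (Nat.pow_le_pow_right (by omega) (by norm_num : 60 ≤ 250)) h.hΔ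
  have hb := LTSb2_bd G Δ N L j X h (by omega) hI
  have hU : ∀ v, (dn G v (Sb_U X j) : ℝ) ≤ 3 * Δ / (N : ℝ) ^ 3 := by
    intro v
    have h1 := le_trans (Sb_ge2 G N X j v) hb
    have h2 := Real.exp_le_exp.1 h1
    have h3 : (j : ℝ) ≤ Δ := by exact_mod_cast (by omega : j ≤ Δ)
    have h4 : 2 * (j : ℝ) / (N : ℝ) ^ 3 ≤ 2 * Δ / (N : ℝ) ^ 3 := by
      apply div_le_div_of_nonneg_right _ (by positivity)
      linarith
    have h5 : (L : ℝ) + 3 ≤ Δ / (N : ℝ) ^ 3 := LTSb2_num h 3 (by norm_num)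
    have h6 : 3 * (Δ : ℝ) / (N : ℝ) ^ 3 = 2 * Δ / (N : ℝ) ^ 3 + Δ / (N : ℝ) ^ 3 := by ring
    rw [h6]
    linarith
  obtain ⟨Y, hY1, hY3, hY4⟩ := sa2 G Δ N L h (Sb_U X j) hU
    (fun v => Real.exp (-(Sb_Z G X j v : ℝ) + j / (32 * (N : ℝ) ^ 7)))
    (fun v => Real.exp ((dn G v (Sb_U X j) : ℝ) - 2 * j / (N : ℝ) ^ 3))
    (fun v => Real.exp_pos _) (fun v => (Real.exp_pos _).le)
  have hc : ∀ i < j, Function.update X j Y i = X i := fun i hi =>
    Function.update_of_ne (by omega) _ _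
  have hs : Function.update X j Y j = Y := Function.update_self _ _ _
  have hdY : ∀ i < j, Disjoint (X i) Y := by
    intro i hi
    apply Disjoint.symm
    apply Disjoint.mono_right _ hY1
    intro a ha
    exact mem_biUnion.2 ⟨i, mem_range.2 hi, ha⟩
  refine ⟨Function.update X j Y, ?_, ?_, ?_⟩
  · intro i hi k hk hik
    rcases Nat.lt_succ_iff_lt_or_eq.1 hi with h1 | h1
    · rcases Nat.lt_succ_iff_lt_or_eq.1 hk with h2 | h2
      · rw [hc i h1, hc k h2]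
        exact hI.dis i h1 k h2 hik
      · rw [hc i h1, h2, hs]
        exact hdY i h1
    · rcases Nat.lt_succ_iff_lt_or_eq.1 hk with h2 | h2
      · rw [hc k h2, h1, hs]
        exact (hdY k h2).symm
      · exact absurd (h1.trans h2.symm) hik
  · intro i hi v
    rcases Nat.lt_succ_iff_lt_or_eq.1 hi with h1 | h1
    · rw [hc i h1]
      exact hI.fr i h1 v
    · rw [h1, hs]
      exact hY3 v
  · have hUc : Sb_U (Function.update X j Y) j = Sb_U X j := Sb_Ucongr _ _ j hc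
    have hZc : ∀ v, Sb_Z G (Function.update X j Y) j v = Sb_Z G X j v :=
      fun v => Sb_Zcongr G _ _ j hc v
    rw [Sb_Psucc G N _ j (by rw [hs, hUc]; exact hY1)]
    simp only [hUc, hZc, hs]
    refine le_trans hY4 ?_
    have h7 : (∑ v, Real.exp (-(Sb_Z G X j v : ℝ) + j / (32 * (N : ℝ) ^ 7)) +
        ∑ v, Real.exp ((dn G v (Sb_U X j) : ℝ) - 2 * j / (N : ℝ) ^ 3)) = Sb_P G N X j := rfl
    rw [h7]
    calc Sb_P G N X j * (1 + 2 / (Δ : ℝ)) ≤
          2 * Fintype.card V * (1 + 2 / (Δ : ℝ)) ^ j * (1 + 2 / (Δ : ℝ)) :=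
          mul_le_mul_of_nonneg_right hI.pot (by positivity)
      _ = 2 * Fintype.card V * (1 + 2 / (Δ : ℝ)) ^ (j + 1) := by ring

theorem LTSb2_all {V : Type} [Fintype V] (G : SimpleGraph V) (Δ N L : ℕ) (h : Xs G Δ N L) (j : ℕ)
    (hj : j ≤ Δ) : ∃ X : ℕ → Finset V, LTSb2_I G Δ N L j X := by
  induction j with
  | zero =>
    refine ⟨fun _ => ∅, ?_, ?_, ?_⟩
    · intro i hi
      omega
    · intro i hi
      omega
    · have h1 : ∀ v : V, Sb_Z G (fun _ => (∅ : Finset V)) 0 v = 0 := by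
        intro v
        simp [Sb_Z]
      have h2 : Sb_U (fun _ => (∅ : Finset V)) 0 = ∅ := by
        simp [Sb_U]
      have h3 : ∀ v : V, dn G v ∅ = 0 := by
        intro v
        simp [dn]
      unfold Sb_P
      simp only [h1, h2, h3, Nat.cast_zero, neg_zero, zero_div, add_zero, mul_zero, sub_zero,
        Real.exp_zero, Finset.sum_const, Finset.card_univ, nsmul_eq_mul, mul_one, pow_zero]
      linarith
  | succ j ih => exact LTSb2_step G Δ N L h j hj (ih (by omega))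

theorem sb2 {V : Type} [Fintype V] (G : SimpleGraph V) (Δ N L m0 : ℕ) (h : Xs G Δ N L)
    (hm : m0 ≤ Δ) (hm2 : Δ ≤ 2 * m0) : ∃ X : ℕ → Finset V, Sy G Δ N L m0 X := by
  obtain ⟨X, hI⟩ := LTSb2_all G Δ N L h m0 hm
  have hN := h.hN
  have hN1 : (1000 : ℝ) ≤ N := by exact_mod_cast hN
  have hN0 : (0 : ℝ) < N := by linarith
  have hD1 : (N : ℝ) ^ 60 ≤ Δ := by
    exact_mod_cast le_trans (Nat.pow_le_pow_right (by omega) (by norm_num : 60 ≤ 250)) h.hΔ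
  have hb := LTSb2_bd G Δ N L m0 X h hm hI
  refine ⟨X, hI.dis, hI.fr, ?_⟩
  intro v
  have h1 := Real.exp_le_exp.1 (le_trans (Sb_ge1 G N X m0 v) hb)
  have h2 : (Δ : ℝ) ≤ 2 * m0 := by exact_mod_cast hm2
  have h3 : (Δ : ℝ) / (64 * (N : ℝ) ^ 7) ≤ m0 / (32 * (N : ℝ) ^ 7) := by
    rw [div_le_div_iff₀ (by positivity) (by positivity)]
    have : (0 : ℝ) ≤ (N : ℝ) ^ 7 := by positivity
    nlinarith
  have h4 : (Δ : ℝ) / (100 * (N : ℝ) ^ 7) + (L + 3) ≤ Δ / (64 * (N : ℝ) ^ 7) := by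
    have h5 : (Δ : ℝ) / (64 * (N : ℝ) ^ 7) =
        Δ / (100 * (N : ℝ) ^ 7) + (9 / 1600) * (Δ / (N : ℝ) ^ 7) := by
      field_simp
      ring
    rw [h5]
    have h6 : (L : ℝ) + 3 ≤ (9 / 1600) * (Δ / (N : ℝ) ^ 7) := by
      have h7 := LTSb2_num h 8 (by norm_num)
      have h8 : (Δ : ℝ) / (N : ℝ) ^ 8 = Δ / (N : ℝ) ^ 7 / N := by
        field_simp
      have h9 : (0 : ℝ) ≤ Δ / (N : ℝ) ^ 7 := by positivity
      have h11 : (Δ : ℝ) / (N : ℝ) ^ 7 / N ≤ (9 / 1600) * (Δ / (N : ℝ) ^ 7) := by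
        rw [div_le_iff₀ hN0]
        nlinarith
      linarith
    linarith
  have h10 : ((Sb_Z G X m0 v : ℕ) : ℝ) = (((range m0).filter fun j => Ev G (X j) v).card : ℝ) :=
    rfl
  rw [← h10]
  linarith

end Pool.Agent.H12.LT
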