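import Mathlib

/-!
NU2: the choice of `b`, `N0` and `L` (pure numerics). Compare `H12/LS/Nu2.lean` (proved).

Proof.  `a = 1 / (4 + ε) < 1 / 4`, `b = min (1 / 300) (ε / (300 (4 + ε)))` (so `100 b ≤ ε`), `N0 = ⌈Δ ^ b⌉₊`, `L = 2 ⌈Δ ^ a⌉₊`. For large `Δ`
(depending on `ε`, `C`): `1000 ≤ Δ ^ b ≤ N0 ≤ 2 Δ ^ b`, so `8 N0 ≤ 16 Δ ^ b`, and `2 Δ ^ a ≤ L ≤ 3 Δ ^ a`. `8 N0 ≤ L`: `b < a`.
`(8 N0) ^ 250 ≤ 16 ^ 250 Δ ^ (250 b) ≤ Δ ^ (300 b) ≤ Δ`; `(8 N0) ^ 60 L ^ 3 ≤ 16 ^ 60 * 27 Δ ^ (60 b + 3 a) ≤ Δ` (`60 b ≤ 1/5`, `3 a < 3/4`);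
`Δ / N0 ≤ Δ ^ (1 - b)`; `(8 N0) ^ 60 Δ ≤ 16 ^ 60 Δ ^ (1 + 60 b) ≤ Δ ^ (1 + 100 b) ≤ Δ ^ (1 + ε)`; `12 Δ ^ 2 ≤ exp (Δ ^ a)`;
`C Δ ^ (3/4) (log Δ) ^ (1/4) (8 N0) ^ 60 L ≤ 3 C 16 ^ 60 Δ ^ (3/4 + 60 b + a) (log Δ) ^ (1/4) ≤ Δ`, because
`60 b ≤ ε / (5 (4 + ε)) < ε / (4 (4 + ε)) = 1 / 4 - a`.
-/

set_option autoImplicit false

namespace Pool.Agent.H12.LT

theorem nu2 (ε : ℝ) (hε : 0 < ε) : ∃ b : ℝ, 0 < b ∧ ∀ C : ℝ, ∃ Δ0 : ℕ, ∀ Δ : ℕ, Δ0 ≤ Δ →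
    2 ≤ Δ ∧ ∃ N0 L : ℕ, 1000 ≤ N0 ∧ 8 * N0 ≤ L ∧ (8 * N0) ^ 250 ≤ Δ ∧
      (8 * N0) ^ 60 * L ^ 3 ≤ Δ ∧
      (Δ : ℝ) / N0 ≤ (Δ : ℝ) ^ (1 - b) ∧
      (((8 * N0) ^ 60 * Δ : ℕ) : ℝ) ≤ (Δ : ℝ) ^ (1 + ε) ∧
      Real.exp ((Δ : ℝ) ^ (1 / (4 + ε))) * (12 * (Δ : ℝ) ^ 2) ≤ Real.exp L ∧
      C * (Δ : ℝ) ^ (3 / 4 : ℝ) * (Real.log Δ) ^ (1 / 4 : ℝ) * (((8 * N0) ^ 60 * L : ℕ) : ℝ) ≤ Δ := by
  have h4ε : 0 < 4 + ε := by linarith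
  obtain ⟨a, ha⟩ : ∃ a : ℝ, a = 1 / (4 + ε) := ⟨_, rfl⟩
  have ha0 : 0 < a := by
    rw [ha]
    positivity
  have ha1 : a * (4 + ε) = 1 := by
    rw [ha]
    field_simp
  obtain ⟨c, hc⟩ : ∃ c : ℝ, c = ε * a := ⟨_, rfl⟩
  have hc0 : 0 < c := by
    rw [hc]
    positivity
  have hac : 4 * a + c = 1 := by
    rw [hc]
    linarith
  have ha4 : 4 * a ≤ 1 := by linarith
  have hcε : 4 * c ≤ ε := by
    rw [hc]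
    nlinarith
  obtain ⟨b, hb⟩ : ∃ b : ℝ, b = c * a / 100 := ⟨_, rfl⟩
  have hb0 : 0 < b := by
    rw [hb]
    positivity
  have hb1 : 100 * b ≤ a := by
    rw [hb]
    nlinarith
  have hb2 : 400 * b ≤ c := by
    rw [hb]
    nlinarith
  obtain ⟨η, hη⟩ : ∃ η : ℝ, η = c / 100 := ⟨_, rfl⟩
  have hη0 : 0 < η := by
    rw [hη]
    positivity
  have hη1 : 100 * η = c := by
    rw [hη]
    ring
  rw [← ha]
  clear ha hb hc hη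
  refine ⟨b, hb0, fun C => ?_⟩
  have epow : ∀ (t K : ℝ), 0 < t → ∀ᶠ n : ℕ in Filter.atTop, K ≤ (n : ℝ) ^ t := fun t K ht =>
    ((tendsto_rpow_atTop ht).comp tendsto_natCast_atTop_atTop).eventually_ge_atTop K
  have elog : ∀ a : ℝ, 0 < a → ∀ᶠ n : ℕ in Filter.atTop, Real.log (n : ℝ) ≤ (n : ℝ) ^ a := by
    intro a ha
    have h := (isLittleO_log_rpow_atTop ha).bound one_pos
    have h2 := tendsto_natCast_atTop_atTop.eventually h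
    filter_upwards [h2] with n hn
    have h3 : (0 : ℝ) ≤ (n : ℝ) ^ a := Real.rpow_nonneg (Nat.cast_nonneg n) a
    have h4 := le_trans (le_abs_self (Real.log (n : ℝ))) hn
    simpa [Real.norm_eq_abs, abs_of_nonneg h3] using h4
  have e1 := epow b 1048576 hb0
  have e2 := elog (a / 2) (by positivity)
  have e3 := epow η |C| hη0
  have e4 := elog η hη0
  have e5 : ∀ᶠ n : ℕ in Filter.atTop, 2 ≤ n := Filter.eventually_ge_atTop 2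
  have e6 := epow η 3 hη0
  obtain ⟨Δ0, hall⟩ :=
    Filter.eventually_atTop.mp (e1.and (e2.and (e3.and (e4.and (e5.and e6)))))
  refine ⟨Δ0, fun Δ hΔ => ?_⟩
  obtain ⟨h1, h2, h3, h4, h5, h6⟩ := hall Δ hΔ
  refine ⟨h5, ⌈(Δ : ℝ) ^ b⌉₊, 2 * ⌈(Δ : ℝ) ^ a⌉₊, ?_⟩
  have hD2 : (2 : ℝ) ≤ (Δ : ℝ) := by exact_mod_cast h5
  have hD1 : (1 : ℝ) ≤ (Δ : ℝ) := by linarith
  have hD0 : (0 : ℝ) < (Δ : ℝ) := by linarith
  have hDn : (0 : ℝ) ≤ (Δ : ℝ) := hD0.le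
  have hmon : ∀ s t : ℝ, s ≤ t → (Δ : ℝ) ^ s ≤ (Δ : ℝ) ^ t := fun s t hst =>
    Real.rpow_le_rpow_of_exponent_le hD1 hst
  have hadd : ∀ s t : ℝ, (Δ : ℝ) ^ s * (Δ : ℝ) ^ t = (Δ : ℝ) ^ (s + t) := fun s t =>
    (Real.rpow_add hD0 s t).symm
  have hpos : ∀ t : ℝ, 0 ≤ (Δ : ℝ) ^ t := fun t => Real.rpow_nonneg hDn t
  have hw1 : (1048576 : ℝ) ≤ (Δ : ℝ) ^ (a / 2) := h1.trans (hmon _ _ (by linarith))
  have hw2 : (Δ : ℝ) ^ a = (Δ : ℝ) ^ (a / 2) * (Δ : ℝ) ^ (a / 2) := by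
    rw [hadd]
    congr 1
    ring
  have hxz : (Δ : ℝ) ^ b * (Δ : ℝ) ^ b ≤ (Δ : ℝ) ^ a := by
    rw [hadd]
    exact hmon _ _ (by linarith)
  have hM1 : (Δ : ℝ) ^ a ≤ (⌈(Δ : ℝ) ^ a⌉₊ : ℝ) := Nat.le_ceil _
  have hM2 : (⌈(Δ : ℝ) ^ a⌉₊ : ℝ) ≤ (Δ : ℝ) ^ a + 1 := (Nat.ceil_lt_add_one (hpos a)).le
  have hzη : 3 * (Δ : ℝ) ^ a ≤ (Δ : ℝ) ^ (a + η) := by
    rw [← hadd, mul_comm]
    exact mul_le_mul_of_nonneg_left h6 (hpos a)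
  generalize hM : ⌈(Δ : ℝ) ^ a⌉₊ = M at *
  generalize hx : (Δ : ℝ) ^ b = x at *
  have hx0 : 0 < x := by linarith
  have hxn : 0 ≤ x := hx0.le
  have hx1 : 1 ≤ x := by linarith
  have hz : 1048576 ≤ (Δ : ℝ) ^ a := by nlinarith
  have hL2 : 2 * (M : ℝ) ≤ (Δ : ℝ) ^ (a + η) := by linarith
  have hN1 : x ≤ (⌈x⌉₊ : ℝ) := Nat.le_ceil x
  have hN2 : (⌈x⌉₊ : ℝ) ≤ 2 * x := by
    have := Nat.ceil_lt_add_one hxn
    linarith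
  generalize hN : ⌈x⌉₊ = N at *
  have hy0 : (0 : ℝ) ≤ 8 * (N : ℝ) := by positivity
  have hy1 : 8 * (N : ℝ) ≤ 16 * x := by linarith
  -- the main comparison
  have hy5 : (8 * (N : ℝ)) ^ 5 ≤ x ^ 6 := by
    calc (8 * (N : ℝ)) ^ 5 ≤ (16 * x) ^ 5 := pow_le_pow_left₀ hy0 hy1 5
      _ = 1048576 * x ^ 5 := by ring
      _ ≤ x * x ^ 5 := mul_le_mul_of_nonneg_right h1 (by positivity)
      _ = x ^ 6 := by ring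
  have hy60 : (8 * (N : ℝ)) ^ 60 ≤ x ^ 72 := by
    calc (8 * (N : ℝ)) ^ 60 = ((8 * (N : ℝ)) ^ 5) ^ 12 := by rw [← pow_mul]
      _ ≤ (x ^ 6) ^ 12 := pow_le_pow_left₀ (by positivity) hy5 12
      _ = x ^ 72 := by rw [← pow_mul]
  have hy250 : (8 * (N : ℝ)) ^ 250 ≤ x ^ 300 := by
    calc (8 * (N : ℝ)) ^ 250 = ((8 * (N : ℝ)) ^ 5) ^ 50 := by rw [← pow_mul]
      _ ≤ (x ^ 6) ^ 50 := pow_le_pow_left₀ (by positivity) hy5 50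
      _ = x ^ 300 := by rw [← pow_mul]
  have hxpow : ∀ k : ℕ, x ^ k = (Δ : ℝ) ^ (b * (k : ℝ)) := by
    intro k
    rw [← hx, Real.rpow_mul hDn, Real.rpow_natCast]
  have hx300 : x ^ 300 ≤ (Δ : ℝ) := by
    rw [hxpow 300]
    calc (Δ : ℝ) ^ (b * ((300 : ℕ) : ℝ)) ≤ (Δ : ℝ) ^ (1 : ℝ) := by
          apply hmon
          push_cast
          linarith
      _ = (Δ : ℝ) := Real.rpow_one _
  have hx72 : x ^ 72 ≤ (Δ : ℝ) ^ (18 * η) := by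
    rw [hxpow 72]
    apply hmon
    push_cast
    linarith
  have hx72d : x ^ 72 ≤ (Δ : ℝ) ^ ε := by
    rw [hxpow 72]
    apply hmon
    push_cast
    linarith
  refine ⟨?_, ?_, ?_, ?_, ?_, ?_, ?_, ?_⟩
  · have : (1000 : ℝ) ≤ (N : ℝ) := by linarith
    exact_mod_cast this
  · have : 8 * (N : ℝ) ≤ 2 * (M : ℝ) := by
      have h7 : 8 * x ≤ x * x := by nlinarith
      linarith
    exact_mod_cast this
  · have : (8 * (N : ℝ)) ^ 250 ≤ (Δ : ℝ) := hy250.trans hx300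
    exact_mod_cast this
  · have h7 : (8 * (N : ℝ)) ^ 60 * (2 * (M : ℝ)) ^ 3 ≤ (Δ : ℝ) := by
      calc (8 * (N : ℝ)) ^ 60 * (2 * (M : ℝ)) ^ 3
          ≤ (Δ : ℝ) ^ (18 * η) * ((Δ : ℝ) ^ (a + η)) ^ 3 :=
            mul_le_mul (hy60.trans hx72) (pow_le_pow_left₀ (by positivity) hL2 3)
              (by positivity) (hpos _)
        _ = (Δ : ℝ) ^ (18 * η + (a + η) * 3) := by
            rw [← Real.rpow_natCast ((Δ : ℝ) ^ (a + η)) 3, ← Real.rpow_mul hDn, hadd]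
            norm_num
        _ ≤ (Δ : ℝ) ^ (1 : ℝ) := hmon _ _ (by linarith)
        _ = (Δ : ℝ) := Real.rpow_one _
    exact_mod_cast h7
  · have hNpos : (0 : ℝ) < (N : ℝ) := by linarith
    rw [Real.rpow_sub hD0, Real.rpow_one, hx]
    exact div_le_div_of_nonneg_left hDn hx0 hN1
  · have h6 : (((8 * N) ^ 60 * Δ : ℕ) : ℝ) = (8 * (N : ℝ)) ^ 60 * (Δ : ℝ) := by
      push_cast
      ring
    rw [h6, add_comm (1 : ℝ) ε, Real.rpow_add hD0, Real.rpow_one]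
    exact mul_le_mul_of_nonneg_right (hy60.trans hx72d) hDn
  · generalize (Δ : ℝ) ^ (a / 2) = w at *
    have h9 : (Δ : ℝ) ≤ Real.exp w := by
      calc (Δ : ℝ) = Real.exp (Real.log (Δ : ℝ)) := (Real.exp_log hD0).symm
        _ ≤ Real.exp w := Real.exp_le_exp.mpr h2
    have h8 : (12 : ℝ) ≤ Real.exp w := by
      have := Real.add_one_le_exp w
      linarith
    have h10 : 12 * (Δ : ℝ) ^ 2 ≤ Real.exp (3 * w) := by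
      calc 12 * (Δ : ℝ) ^ 2 ≤ Real.exp w * (Real.exp w) ^ 2 :=
            mul_le_mul h8 (pow_le_pow_left₀ hDn h9 2) (by positivity) (Real.exp_pos w).le
        _ = Real.exp (3 * w) := by
            rw [← Real.exp_nat_mul, ← Real.exp_add]
            have h11 : w + ((2 : ℕ) : ℝ) * w = 3 * w := by
              push_cast
              ring
            rw [h11]
    calc Real.exp ((Δ : ℝ) ^ a) * (12 * (Δ : ℝ) ^ 2)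
        ≤ Real.exp ((Δ : ℝ) ^ a) * Real.exp (3 * w) :=
          mul_le_mul_of_nonneg_left h10 (Real.exp_pos _).le
      _ = Real.exp ((Δ : ℝ) ^ a + 3 * w) := (Real.exp_add _ _).symm
      _ ≤ Real.exp (((2 * M : ℕ)) : ℝ) := by
          apply Real.exp_le_exp.mpr
          push_cast
          have h11 : 3 * w ≤ w * w := mul_le_mul_of_nonneg_right (by linarith) (by linarith)
          linarith
  · have h6 : (((8 * N) ^ 60 * (2 * M) : ℕ) : ℝ) = (8 * (N : ℝ)) ^ 60 * (2 * (M : ℝ)) := by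
      push_cast
      ring
    rw [h6]
    have hl0 : 0 ≤ Real.log (Δ : ℝ) := Real.log_nonneg hD1
    have h7 : (Real.log (Δ : ℝ)) ^ (1 / 4 : ℝ) ≤ (Δ : ℝ) ^ η := by
      calc (Real.log (Δ : ℝ)) ^ (1 / 4 : ℝ) ≤ ((Δ : ℝ) ^ η) ^ (1 / 4 : ℝ) :=
            Real.rpow_le_rpow hl0 h4 (by norm_num)
        _ = (Δ : ℝ) ^ (η * (1 / 4)) := by
            rw [← Real.rpow_mul hDn]
        _ ≤ (Δ : ℝ) ^ η := hmon _ _ (by linarith)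
    have h8 : C ≤ (Δ : ℝ) ^ η := (le_abs_self C).trans h3
    have p1 : (0 : ℝ) ≤ (Δ : ℝ) ^ (3 / 4 : ℝ) := hpos _
    have p2 : (0 : ℝ) ≤ (Real.log (Δ : ℝ)) ^ (1 / 4 : ℝ) := Real.rpow_nonneg hl0 _
    have p0 : (0 : ℝ) ≤ 2 * (M : ℝ) := by positivity
    have p3 : (0 : ℝ) ≤ (8 * (N : ℝ)) ^ 60 * (2 * (M : ℝ)) := mul_nonneg (pow_nonneg hy0 60) p0
    have p4 : (0 : ℝ) ≤ (Δ : ℝ) ^ η := hpos _
    have p5 : (0 : ℝ) ≤ (Δ : ℝ) ^ (18 * η) := hpos _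
    have p6 : (0 : ℝ) ≤ (Δ : ℝ) ^ (a + η) := hpos _
    have h9 : (8 * (N : ℝ)) ^ 60 * (2 * (M : ℝ)) ≤ (Δ : ℝ) ^ (18 * η) * (Δ : ℝ) ^ (a + η) :=
      mul_le_mul (hy60.trans hx72) hL2 p0 p5
    calc C * (Δ : ℝ) ^ (3 / 4 : ℝ) * (Real.log (Δ : ℝ)) ^ (1 / 4 : ℝ) *
          ((8 * (N : ℝ)) ^ 60 * (2 * (M : ℝ)))
        ≤ (Δ : ℝ) ^ η * (Δ : ℝ) ^ (3 / 4 : ℝ) * (Real.log (Δ : ℝ)) ^ (1 / 4 : ℝ) *
            ((8 * (N : ℝ)) ^ 60 * (2 * (M : ℝ))) := by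
          apply mul_le_mul_of_nonneg_right _ p3
          apply mul_le_mul_of_nonneg_right _ p2
          exact mul_le_mul_of_nonneg_right h8 p1
      _ ≤ (Δ : ℝ) ^ η * (Δ : ℝ) ^ (3 / 4 : ℝ) * (Δ : ℝ) ^ η *
            ((Δ : ℝ) ^ (18 * η) * (Δ : ℝ) ^ (a + η)) := by
          apply mul_le_mul _ h9 p3 (mul_nonneg (mul_nonneg p4 p1) p4)
          exact mul_le_mul_of_nonneg_left h7 (mul_nonneg p4 p1)
      _ = (Δ : ℝ) ^ (η + 3 / 4 + η + (18 * η + (a + η))) := by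
          rw [hadd, hadd, hadd, hadd]
      _ ≤ (Δ : ℝ) ^ (1 : ℝ) := hmon _ _ (by linarith)
      _ = (Δ : ℝ) := Real.rpow_one _

end Pool.Agent.H12.LT
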