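import Mathlib
import Pool.Agent.H12.LT.Defs
import Pool.Agent.H84.RG.Reg

/-!
RE: the regularisation. `re2` in `H84/RG/Re.lean` (proved) with the parameter `L`.
-/

set_option autoImplicit false

namespace Pool.Agent.H12.LT

open Finset Classical
open Pool.Agent.H71.DN Pool.Agent.H71.EX

theorem re {V : Type} [Fintype V] (G : SimpleGraph V) (Δ N0 L : ℕ) (hN0 : 1000 ≤ N0)
    (hL : 8 * N0 ≤ L) (hΔ : (8 * N0) ^ 250 ≤ Δ) (hΔL : (8 * N0) ^ 60 * L ^ 3 ≤ Δ)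
    (hn : (Fintype.card V : ℝ) * (12 * (Δ : ℝ) ^ 2) ≤ Real.exp L)
    (up : ∀ v, dg G v ≤ Δ)
    (hs : ∀ S : Finset V, S.card ≤ (8 * N0) ^ 60 * Δ →
      (ee G S S : ℝ) ≤ ((Δ : ℝ) - Δ / N0) * S.card)
    (hb : ∀ A B : Finset V, Disjoint A B →
      2 * (ee G A B : ℝ) ≤ ((Δ : ℝ) - Δ / N0) * (A.card + B.card)) :
    ∃ (W : Type) (_ : Fintype W) (G' : SimpleGraph W) (φ : V → W), Function.Injective φ ∧
      (∀ u v, G.Adj u v → G'.Adj (φ u) (φ v)) ∧ Xt G' Δ (8 * N0) L := by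
  obtain ⟨N, hN⟩ : ∃ N, N = 8 * N0 := ⟨_, rfl⟩
  have hN1 : 8000 ≤ N := by omega
  have hN1' : 1 ≤ N := by omega
  have hr0 : (0 : ℝ) < N0 := by
    have : 0 < N0 := by omega
    exact_mod_cast this
  have hNr : (N : ℝ) = 8 * N0 := by rw [hN]; push_cast; ring
  have hNr1 : (8000 : ℝ) ≤ N := by exact_mod_cast hN1
  have hNr0 : (0 : ℝ) < N := by linarith
  rw [← hN] at hL hΔ hΔL hs ⊢
  have hΔr : (N : ℝ) ^ 250 ≤ Δ := by exact_mod_cast hΔ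
  have hp1 : ∀ m : ℕ, (1 : ℝ) ≤ (N : ℝ) ^ m := fun m => one_le_pow₀ (by linarith)
  have h5 : 5 ≤ Δ := by
    have : N ^ 1 ≤ N ^ 250 := Nat.pow_le_pow_right hN1' (by norm_num)
    rw [pow_one] at this
    omega
  have hΔ0 : (0 : ℝ) < Δ := by
    have : 0 < Δ := by omega
    exact_mod_cast this
  have hδ : 2 + 12 * Real.sqrt ((N ^ 60 * Δ : ℕ) : ℝ) ≤ (Δ : ℝ) / N0 := by
    -- `√(N ^ 60 Δ) ≤ Δ / N ^ 90`
    have e1 : Real.sqrt ((N ^ 60 * Δ : ℕ) : ℝ) ≤ (Δ : ℝ) / (N : ℝ) ^ 90 := by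
      rw [Real.sqrt_le_left (by positivity)]
      push_cast
      rw [div_pow, le_div_iff₀ (by positivity), ← pow_mul]
      calc (N : ℝ) ^ 60 * Δ * (N : ℝ) ^ (90 * 2) = (N : ℝ) ^ 240 * Δ := by ring
        _ ≤ (N : ℝ) ^ 250 * Δ := by
          refine mul_le_mul_of_nonneg_right (pow_le_pow_right₀ (by linarith) (by norm_num)) hΔ0.le
        _ ≤ Δ * Δ := mul_le_mul_of_nonneg_right hΔr hΔ0.le
        _ = (Δ : ℝ) ^ 2 := by ring
    have e2 : (Δ : ℝ) / (N : ℝ) ^ 90 ≤ (Δ : ℝ) / (N : ℝ) ^ 2 :=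
      div_le_div_of_nonneg_left hΔ0.le (by positivity) (pow_le_pow_right₀ (by linarith) (by norm_num))
    have e3 : (2 : ℝ) ≤ (Δ : ℝ) / (N : ℝ) ^ 2 := by
      rw [le_div_iff₀ (by positivity)]
      have : (N : ℝ) ^ 3 ≤ (N : ℝ) ^ 250 := pow_le_pow_right₀ (by linarith) (by norm_num)
      nlinarith [hp1 2]
    have e4 : 13 * ((Δ : ℝ) / (N : ℝ) ^ 2) ≤ (Δ : ℝ) / N0 := by
      rw [← mul_div_assoc, div_le_div_iff₀ (by positivity) hr0, hNr]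
      nlinarith [mul_pos hΔ0 hr0, (by exact_mod_cast hN0 : (1000 : ℝ) ≤ N0)]
    linarith
  obtain ⟨W, iW, G', φ, h1, h2, h3, h4, h6, h7, h8⟩ := Pool.Agent.H84.RG.reg G Δ (N ^ 60 * Δ) ((Δ : ℝ) / N0) h5 hδ up hs hb
  refine ⟨W, iW, G', φ, h1, h2, ⟨by omega, hL, hΔ, hΔL, ?_, h4, ?_, ?_, ?_⟩⟩
  · refine le_trans ?_ hn
    have : Fintype.card W ≤ Fintype.card V * (12 * Δ ^ 2) := by
      rw [mul_comm]; exact h3
    exact_mod_cast this
  · intro v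
    have e1 : (Δ : ℝ) ≤ dg G' v + 1 := by exact_mod_cast h6 v
    have e2 : (1 : ℝ) ≤ Δ / (N : ℝ) ^ 21 := by
      rw [le_div_iff₀ (by positivity), one_mul]
      exact le_trans (pow_le_pow_right₀ (by linarith) (by norm_num)) hΔr
    linarith
  · intro S hS
    have e1 := h7 S hS
    have e2 : 2 * ((Δ : ℝ) / N) * S.card ≤ (Δ : ℝ) / N0 / 2 * S.card := by
      refine mul_le_mul_of_nonneg_right ?_ (Nat.cast_nonneg _)
      rw [hNr, div_div, ← mul_div_assoc, div_le_div_iff₀ (by positivity) (by positivity)]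
      nlinarith [mul_pos hΔ0 hr0]
    exact e2.trans e1
  · intro A B hAB
    have e1 := h8 A B hAB
    have e2 : (Δ : ℝ) / N * ((A.card : ℝ) + B.card) ≤ (Δ : ℝ) / N0 / 3 * ((A.card : ℝ) + B.card) := by
      refine mul_le_mul_of_nonneg_right ?_ (by positivity)
      rw [hNr, div_div, div_le_div_iff₀ (by positivity) (by positivity)]
      nlinarith [mul_pos hΔ0 hr0]
    linarith

end Pool.Agent.H12.LT
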