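import Mathlib
import Pool.Agent.H12.LT.Defs
import Pool.Agent.H12.LT.Nu2
import Pool.Agent.H12.LT.Re
import Pool.Agent.H12.LT.As2
import Pool.Agent.H70.HY.Main
import Pool.Agent.H2.HV.FIN

/-!
FIN2: the theorem. Compare `H12/LS/Fin2.lean` (copy and adapt).

Proof.  `C` from `H2.HV.main_hv`; `nu2` for `ε` gives `b` and, with this `C`, `Δ0`. Let `Δ = G.maxDegree ≥ Δ0` and `N0`, `L` as in `nu2`. Let `p ≥ 1`.
If `C Δ ^ (3/4) (log Δ) ^ (1/4) ≤ p`: `main_hv`. Otherwise `p ((8 N0) ^ 60 L) ≤ Δ` by the last inequality of `nu2`. `re` for `G`: `up`: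
`dg G v = G.degree v ≤ G.maxDegree`; `hs`, `hb`: the hypotheses and `Δ / N0 ≤ Δ ^ (1 - b)`; `hn`: `log n ≤ Δ ^ (1 / (4 + ε))` (from
`(log n) ^ (4 + ε) ≤ Δ`, `n ≥ 1`; if `n = 0` the left side is `0`), so `n ≤ exp (Δ ^ (1 / (4 + ε)))`, and `nu2`. It gives `G'`, `φ` with
`Xt G' Δ (8 N0) L`; `as2` gives `HYLab G' Δ p`, and `H70.HY.HYLab.comap` (`H70/HY/Main.lean`) `HYLab G Δ p`.
-/

set_option autoImplicit false

namespace Pool.Agent.H12.LT

open Finset Classical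
open Pool.Agent.H71.DN Pool.Agent.H71.EX

private theorem Fin2_dg {V : Type} [Fintype V] (G : SimpleGraph V) [DecidableRel G.Adj] (v : V) :
    dg G v ≤ G.maxDegree := by
  have h1 : dg G v = G.degree v := by
    unfold dg
    rw [← SimpleGraph.card_neighborFinset_eq_degree]
    apply congrArg
    ext u
    simp
  rw [h1]
  exact G.degree_le_maxDegree v

private theorem Fin2_log (n : ℕ) (x ε : ℝ) (hx : 0 ≤ x) (hε : 0 < ε)
    (h : (Real.log n) ^ (4 + ε) ≤ x) : (n : ℝ) ≤ Real.exp (x ^ (1 / (4 + ε))) := by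
  rcases Nat.eq_zero_or_pos n with h0 | h0
  · rw [h0, Nat.cast_zero]
    exact (Real.exp_pos _).le
  · have h1 : (1 : ℝ) ≤ n := by exact_mod_cast h0
    have h2 : 0 ≤ Real.log n := Real.log_nonneg h1
    have h3 : Real.log n ≤ x ^ (1 / (4 + ε)) := by
      have h4 := Real.rpow_le_rpow (Real.rpow_nonneg h2 _) h (by positivity : 0 ≤ 1 / (4 + ε))
      rw [← Real.rpow_mul h2, mul_one_div, div_self (by positivity), Real.rpow_one] at h4
      exact h4
    calc (n : ℝ) = Real.exp (Real.log n) := (Real.exp_log (by linarith)).symm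
      _ ≤ Real.exp (x ^ (1 / (4 + ε))) := Real.exp_le_exp.2 h3

theorem fin2 (ε : ℝ) (hε : 0 < ε) : ∃ b : ℝ, 0 < b ∧ ∃ Δ0 : ℕ,
    ∀ (V : Type) [Fintype V] (G : SimpleGraph V) [DecidableRel G.Adj],
      Δ0 ≤ G.maxDegree →
      (Real.log (Fintype.card V)) ^ (4 + ε) ≤ (G.maxDegree : ℝ) →
      (∀ S : Finset V, (S.card : ℝ) ≤ (G.maxDegree : ℝ) ^ (1 + ε) →
        (ee G S S : ℝ) ≤ ((G.maxDegree : ℝ) - (G.maxDegree : ℝ) ^ (1 - b)) * S.card) →
      (∀ A B : Finset V, Disjoint A B → 2 * (ee G A B : ℝ) ≤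
        ((G.maxDegree : ℝ) - (G.maxDegree : ℝ) ^ (1 - b)) * (A.card + B.card)) →
      ∀ p : ℕ, 1 ≤ p → H70.HY.HYLab G G.maxDegree p := by
  obtain ⟨C, hC, hmain⟩ := H2.HV.main_hv
  obtain ⟨b, hb, hnu⟩ := nu2 ε hε
  obtain ⟨Δ0, hΔ0⟩ := hnu C
  refine ⟨b, hb, Δ0, ?_⟩
  intro V _ G _ hΔ hcard hS hAB p hp
  obtain ⟨h2, N0, L, hN0, hL, hN250, hNL, hdiv, hpow, hexp, hCC⟩ := hΔ0 _ hΔ
  by_cases hbig : C * (G.maxDegree : ℝ) ^ (3 / 4 : ℝ) * (Real.log G.maxDegree) ^ (1 / 4 : ℝ) ≤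
      (p : ℝ)
  · exact hmain V G p h2 hbig
  · rw [not_le] at hbig
    have hp60 : p * ((8 * N0) ^ 60 * L) ≤ G.maxDegree := by
      have h3 : ((p * ((8 * N0) ^ 60 * L) : ℕ) : ℝ) ≤ G.maxDegree := by
        refine le_trans ?_ hCC
        rw [Nat.cast_mul]
        exact mul_le_mul_of_nonneg_right hbig.le (Nat.cast_nonneg _)
      exact_mod_cast h3
    have hmono : ∀ x : ℝ, 0 ≤ x → ((G.maxDegree : ℝ) - (G.maxDegree : ℝ) ^ (1 - b)) * x ≤
        ((G.maxDegree : ℝ) - (G.maxDegree : ℝ) / N0) * x := by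
      intro x hx
      exact mul_le_mul_of_nonneg_right (by linarith) hx
    obtain ⟨W, iW, G', φ, hφ, hadj, hX⟩ := re G G.maxDegree N0 L hN0 hL hN250 hNL
      (by
        refine le_trans ?_ hexp
        exact mul_le_mul_of_nonneg_right
          (Fin2_log _ _ ε (Nat.cast_nonneg _) hε hcard) (by positivity))
      (Fin2_dg G)
      (fun S hSc => by
        refine le_trans (hS S ?_) (hmono _ (Nat.cast_nonneg _))
        exact le_trans (by exact_mod_cast hSc) hpow)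
      (fun A B hd => by
        refine le_trans (hAB A B hd) (hmono _ ?_)
        positivity)
    exact H70.HY.HYLab.comap φ hφ hadj (as2 G' G.maxDegree (8 * N0) L p hX hp hp60)

end Pool.Agent.H12.LT
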